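import Pool.Agent.H87D.SmoothShort

/-!
The `ρ`-mass of the smooth numbers in a block of bounded mass is small.

PROOF PLAN.  `abel_mass`: with `f t` the number of elements of `V` in `(k, k+t]`, `m = n - k`:
`∑_{t=1}^m ρ(k+t) (f t - f (t-1)) = ∑_{t<m} (ρ(k+t) - ρ(k+t+1)) f t + ρ(n) f m`; insert
`f t <= ε t + z0` and sum back.  `abelV`: `smooth_short` with `kap = lam + 1` gives `c`; take
`ε = exp (-c L(k))`, `z0 = k exp (-(lam+1) L(k))` (for `t < z0` use `f t <= t`), and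
`z0 ρ(k+1) <= z0 ρ(k) <= C0 exp (-L(k))`; finally `exp (-c L)((log k)^2+1) + C0 exp (-L) <=
exp (-c' L)` for large `k` (`log_pow_le_exp_Lf`).
-/

namespace Pool.Agent.H87D

open Finset

/-- the telescoping inequality behind `abel_mass` -/
theorem AbelV_step (ρ : ℕ → ℝ) (hρ : Dens ρ) (V : ℕ → Prop) (k n : ℕ) (ε z0 : ℝ)
    (hV : ∀ t : ℕ, k + t ≤ n → ((flt V (Ioc k (k + t))).card : ℝ) ≤ ε * t + z0) :
    ∀ m : ℕ, k + m ≤ n →
      ρ (k + m + 1) * (ε * m + z0 - ((flt V (Ioc k (k + m))).card : ℝ)) - z0 * ρ (k + 1) ≤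
        ε * ∑ l ∈ Ioc k (k + m), ρ l - ∑ l ∈ flt V (Ioc k (k + m)), ρ l := by
  classical
  intro m
  induction m with
  | zero =>
    intro _
    have h1 : Ioc k (k + 0) = ∅ := by simp
    have h2 : flt V (Ioc k (k + 0)) = ∅ := by
      unfold flt
      rw [h1, Finset.filter_empty]
    rw [h2, h1]
    simp
    linarith
  | succ m ih =>
    intro hm
    have ih1 := ih (by omega)
    have hv := hV (m + 1) hm
    have ha : ρ (k + (m + 1) + 1) ≤ ρ (k + m + 1) := hρ.anti _ _ (by omega) (by omega)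
    have e1 : ∑ l ∈ Ioc k (k + (m + 1)), ρ l = ∑ l ∈ Ioc k (k + m), ρ l + ρ (k + m + 1) := by
      rw [← add_assoc]
      exact Finset.sum_Ioc_succ_top (by omega) _
    have e2 : ∑ l ∈ flt V (Ioc k (k + (m + 1))), ρ l
        = ∑ l ∈ flt V (Ioc k (k + m)), ρ l + (if V (k + m + 1) then ρ (k + m + 1) else 0) := by
      unfold flt
      rw [Finset.sum_filter, Finset.sum_filter, ← add_assoc]
      exact Finset.sum_Ioc_succ_top (by omega) _
    have e3 : ((flt V (Ioc k (k + (m + 1)))).card : ℝ)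
        = ((flt V (Ioc k (k + m))).card : ℝ) + (if V (k + m + 1) then 1 else 0) := by
      have e4 : (flt V (Ioc k (k + (m + 1)))).card
          = (flt V (Ioc k (k + m))).card + (if V (k + m + 1) then 1 else 0) := by
        unfold flt
        rw [Finset.card_filter, Finset.card_filter, ← add_assoc]
        exact Finset.sum_Ioc_succ_top (by omega) _
      rw [e4]
      push_cast
      rfl
    rw [e3] at hv
    rw [e1, e2, e3]
    push_cast at hv ⊢
    have hg : 0 ≤ ε * ((m : ℝ) + 1) + z0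
        - (((flt V (Ioc k (k + m))).card : ℝ) + (if V (k + m + 1) then 1 else 0)) := by linarith
    have h5 : ρ (k + (m + 1) + 1) * (ε * ((m : ℝ) + 1) + z0
        - (((flt V (Ioc k (k + m))).card : ℝ) + (if V (k + m + 1) then 1 else 0)))
        ≤ ρ (k + m + 1) * (ε * ((m : ℝ) + 1) + z0
        - (((flt V (Ioc k (k + m))).card : ℝ) + (if V (k + m + 1) then 1 else 0))) :=
      mul_le_mul_of_nonneg_right ha hg
    have h6 : (if V (k + m + 1) then ρ (k + m + 1) else 0)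
        = ρ (k + m + 1) * (if V (k + m + 1) then (1 : ℝ) else 0) := by
      by_cases hc : V (k + m + 1)
      · rw [if_pos hc, if_pos hc, mul_one]
      · rw [if_neg hc, if_neg hc, mul_zero]
    rw [h6]
    nlinarith [h5, ih1]

/-- Abel summation: if `ρ` is non-increasing and `V` has at most `ε t + z0` elements in
`(k, k + t]` for every `t ≤ n - k`, then the `ρ`-mass of `V` in `(k, n]` is at most
`ε` times the `ρ`-mass of `(k, n]` plus `z0 ρ (k+1)`. -/
theorem abel_mass (ρ : ℕ → ℝ) (hρ : Dens ρ) (V : ℕ → Prop) (k n : ℕ) (ε z0 : ℝ)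
    (hε : 0 ≤ ε) (hz0 : 0 ≤ z0)
    (hV : ∀ t : ℕ, k + t ≤ n → ((flt V (Ioc k (k + t))).card : ℝ) ≤ ε * t + z0) :
    ∑ l ∈ flt V (Ioc k n), ρ l ≤ ε * ∑ l ∈ Ioc k n, ρ l + z0 * ρ (k + 1) := by
  classical
  have hr1 : 0 ≤ ρ (k + 1) := hρ.nonneg _ (by omega)
  by_cases hkn : k ≤ n
  · have h1 := AbelV_step ρ hρ V k n ε z0 hV (n - k) (by omega)
    have h2 := hV (n - k) (by omega)
    have h3 : k + (n - k) = n := by omega
    rw [h3] at h1 h2
    have h4 : 0 ≤ ρ (n + 1) := hρ.nonneg _ (by omega)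
    have h5 : 0 ≤ ρ (n + 1) * (ε * ((n - k : ℕ) : ℝ) + z0 - ((flt V (Ioc k n)).card : ℝ)) :=
      mul_nonneg h4 (by linarith)
    linarith
  · have h1 : Ioc k n = ∅ := Finset.Ioc_eq_empty_of_le (by omega)
    have h2 : flt V (Ioc k n) = ∅ := by
      unfold flt
      rw [h1, Finset.filter_empty]
    rw [h2, h1, Finset.sum_empty, mul_zero, zero_add]
    exact mul_nonneg hz0 hr1

theorem abelV (ρ : ℕ → ℝ) (hρ : Dens ρ) (lam C0 : ℝ) (hlam : 0 ≤ lam)
    (hup : ∀ k : ℕ, 1 ≤ k → k * ρ k ≤ C0 * Real.exp (lam * Lf k)) (mu : ℝ) (hmu : 0 < mu) :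
    ∃ c : ℝ, 0 < c ∧ ∃ k1 : ℕ, ∀ k : ℕ, k1 ≤ k → ∀ n : ℕ, k ≤ n →
      ∑ l ∈ Ioc k n, ρ l ≤ (Real.log k) ^ 2 + 1 →
      ∑ l ∈ flt (VSm mu) (Ioc k n), ρ l ≤ Real.exp (-c * Lf k) := by
  classical
  obtain ⟨c0, hc0, x0, hx0⟩ := smooth_short mu hmu (lam + 1)
  have hC0 : 0 ≤ C0 := by
    have h1 := hup 1 le_rfl
    have h2 : 0 ≤ ρ 1 := hρ.nonneg 1 le_rfl
    have h3 : 0 ≤ C0 * Real.exp (lam * Lf 1) := by
      have : (0 : ℝ) ≤ ((1 : ℕ) : ℝ) * ρ 1 := by positivity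
      linarith
    exact nonneg_of_mul_nonneg_left h3 (Real.exp_pos _)
  set c : ℝ := min c0 1 / 2 with hc
  have hcpos : 0 < c := by
    have : 0 < min c0 1 := lt_min hc0 one_pos
    positivity
  have hc1 : 2 * c ≤ c0 := by
    have : min c0 1 ≤ c0 := min_le_left _ _
    rw [hc]
    linarith
  have hc2 : 2 * c ≤ 1 := by
    have : min c0 1 ≤ 1 := min_le_right _ _
    rw [hc]
    linarith
  have hlog : ∀ᶠ k : ℕ in Filter.atTop, 2 + C0 ≤ Real.log k :=
    (Real.tendsto_log_atTop.comp tendsto_natCast_atTop_atTop).eventually_ge_atTop (2 + C0)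
  obtain ⟨k2, hk2⟩ := Filter.eventually_atTop.1 (hlog.and (log_pow_le_exp_Lf c hcpos 3))
  refine ⟨c, hcpos, max (max x0 k2) 1, ?_⟩
  intro k hk n hkn hmass
  have hkx : x0 ≤ k := by
    have := le_max_left (max x0 k2) 1
    have := le_max_left x0 k2
    omega
  have hkk2 : k2 ≤ k := by
    have := le_max_left (max x0 k2) 1
    have := le_max_right x0 k2
    omega
  have hk1 : 1 ≤ k := le_trans (le_max_right _ _) hk
  obtain ⟨hl1, hl2⟩ := hk2 k hkk2
  have hL : 0 ≤ Lf k := Lf_nonneg k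
  set ε : ℝ := Real.exp (-c0 * Lf k) with hεdef
  set z0 : ℝ := (k : ℝ) * Real.exp (-(lam + 1) * Lf k) with hz0def
  have hε0 : 0 < ε := Real.exp_pos _
  have hz00 : 0 ≤ z0 := by positivity
  have hV : ∀ t : ℕ, k + t ≤ n →
      ((flt (VSm mu) (Ioc k (k + t))).card : ℝ) ≤ ε * t + z0 := by
    intro t _
    by_cases ht : z0 ≤ (t : ℝ)
    · have h1 := hx0 k hkx t ht
      have h2 : (t : ℝ) * Real.exp (-c0 * Lf k) = ε * t := by rw [mul_comm]
      rw [h2] at h1
      linarith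
    · push Not at ht
      have h1 : (flt (VSm mu) (Ioc k (k + t))).card ≤ t := by
        have h2 : (flt (VSm mu) (Ioc k (k + t))).card ≤ (Ioc k (k + t)).card := by
          unfold flt
          exact Finset.card_filter_le _ _
        rw [Nat.card_Ioc] at h2
        omega
      have h3 : ((flt (VSm mu) (Ioc k (k + t))).card : ℝ) ≤ t := by exact_mod_cast h1
      have h4 : 0 ≤ ε * t := by positivity
      linarith
  have hab := abel_mass ρ hρ (VSm mu) k n ε z0 hε0.le hz00 hV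
  have h1 : ε * ∑ l ∈ Ioc k n, ρ l ≤ ε * ((Real.log k) ^ 2 + 1) :=
    mul_le_mul_of_nonneg_left hmass hε0.le
  have h2 : z0 * ρ (k + 1) ≤ C0 * Real.exp (-Lf k) := by
    have h3 : ρ (k + 1) ≤ ρ k := hρ.anti _ _ hk1 (by omega)
    have h4 := hup k hk1
    calc z0 * ρ (k + 1) ≤ z0 * ρ k := mul_le_mul_of_nonneg_left h3 hz00
      _ = Real.exp (-(lam + 1) * Lf k) * (k * ρ k) := by rw [hz0def]; ring
      _ ≤ Real.exp (-(lam + 1) * Lf k) * (C0 * Real.exp (lam * Lf k)) :=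
          mul_le_mul_of_nonneg_left h4 (Real.exp_pos _).le
      _ = C0 * (Real.exp (-(lam + 1) * Lf k) * Real.exp (lam * Lf k)) := by ring
      _ = C0 * Real.exp (-Lf k) := by
          rw [← Real.exp_add]
          ring_nf
  have h5 : ε ≤ Real.exp (-(2 * c) * Lf k) := by
    rw [hεdef, Real.exp_le_exp]
    nlinarith
  have h6 : Real.exp (-Lf k) ≤ Real.exp (-(2 * c) * Lf k) := by
    rw [Real.exp_le_exp]
    nlinarith
  have h7 : (Real.log k) ^ 2 + 1 + C0 ≤ (Real.log k) ^ 3 := by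
    have h8 : 1 ≤ Real.log k := by linarith
    have h9 : 1 ≤ (Real.log k) ^ 2 := one_le_pow₀ h8
    have h10 : (Real.log k) ^ 2 * (2 + C0) ≤ (Real.log k) ^ 2 * Real.log k :=
      mul_le_mul_of_nonneg_left hl1 (by positivity)
    have h11 : C0 ≤ (Real.log k) ^ 2 * C0 := by nlinarith
    nlinarith
  have h12 : (Real.log k) ^ 2 + 1 + C0 ≤ Real.exp (c * Lf k) := le_trans h7 hl2
  have hE : 0 < Real.exp (-(2 * c) * Lf k) := Real.exp_pos _
  have hl3 : 0 ≤ (Real.log k) ^ 2 + 1 := by positivity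
  calc ∑ l ∈ flt (VSm mu) (Ioc k n), ρ l
      ≤ ε * ∑ l ∈ Ioc k n, ρ l + z0 * ρ (k + 1) := hab
    _ ≤ ε * ((Real.log k) ^ 2 + 1) + C0 * Real.exp (-Lf k) := by linarith
    _ ≤ Real.exp (-(2 * c) * Lf k) * ((Real.log k) ^ 2 + 1)
        + C0 * Real.exp (-(2 * c) * Lf k) :=
        add_le_add (mul_le_mul_of_nonneg_right h5 hl3) (mul_le_mul_of_nonneg_left h6 hC0)
    _ = Real.exp (-(2 * c) * Lf k) * ((Real.log k) ^ 2 + 1 + C0) := by ring
    _ ≤ Real.exp (-(2 * c) * Lf k) * Real.exp (c * Lf k) :=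
        mul_le_mul_of_nonneg_left h12 hE.le
    _ = Real.exp (-c * Lf k) := by
        rw [← Real.exp_add]
        ring_nf

end Pool.Agent.H87D
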