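import Pool.Agent.H87D.Defs

/-!
Elementary probability bounds for random sets.

PROOF PLAN.  Independence of the events (reindex `k = i + 1`).  For `prob_card_ge`: the event is
contained in the union over `T ⊆ A`, `|T| = R`, of `{insert k T ⊆ S}`; and
`∑_{T ⊆ A, |T| = R} ∏_{l ∈ T} ρ l <= (∑_{l ∈ A} ρ l)^R`.
-/

namespace Pool.Agent.H87D

open MeasureTheory ProbabilityTheory Finset

variable {Ω : Type*} [MeasurableSpace Ω] {P : Measure Ω} [IsProbabilityMeasure P]
  {ρ : ℕ → ℝ} {S : Ω → Set ℕ}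

/-- For a finite set `T` of positive integers, `P (T ⊆ S) = ∏_{k ∈ T} ρ k`. -/
theorem prob_subset (h : IsRandomSet P ρ S) (hρ : Dens ρ) (T : Finset ℕ)
    (hT : ∀ k ∈ T, 1 ≤ k) :
    P {ω | ∀ k ∈ T, k ∈ S ω} = ENNReal.ofReal (∏ k ∈ T, ρ k) := by
  classical
  have hind := (iIndepSet_iff _ _).1 h.indep (T.image (fun k => k - 1))
    (f := fun i => {ω | i + 1 ∈ S ω})
    (fun i _ => MeasurableSpace.measurableSet_generateFrom rfl)
  have hinj : Set.InjOn (fun k => k - 1) (T : Set ℕ) := by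
    intro a ha b hb hab
    have h1 := hT a ha
    have h2 := hT b hb
    have h3 : a - 1 = b - 1 := hab
    omega
  have e : {ω | ∀ k ∈ T, k ∈ S ω} = ⋂ i ∈ T.image (fun k => k - 1), {ω | i + 1 ∈ S ω} := by
    ext ω
    rw [Set.mem_ofPred_eq, Set.mem_iInter₂]
    constructor
    · intro h2 i hi
      obtain ⟨k, hk, rfl⟩ := Finset.mem_image.1 hi
      have hk1 : k - 1 + 1 = k := Nat.sub_add_cancel (hT k hk)
      rw [Set.mem_ofPred_eq, hk1]
      exact h2 k hk
    · intro h2 k hk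
      have h3 := h2 (k - 1) (Finset.mem_image_of_mem _ hk)
      rwa [Set.mem_ofPred_eq, Nat.sub_add_cancel (hT k hk)] at h3
  rw [e, hind, Finset.prod_image hinj, ENNReal.ofReal_prod_of_nonneg
    (fun k hk => hρ.nonneg k (hT k hk))]
  refine Finset.prod_congr rfl (fun k hk => ?_)
  have hk1 : k - 1 + 1 = k := Nat.sub_add_cancel (hT k hk)
  rw [hk1]
  exact h.prob k (hT k hk)

/-- the elementary symmetric sum is at most the power of the sum -/
theorem ProbUp_esymm (ρ : ℕ → ℝ) (A : Finset ℕ) (hA : ∀ l ∈ A, 0 ≤ ρ l) :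
    ∀ R : ℕ, ∑ T ∈ A.powersetCard R, ∏ l ∈ T, ρ l ≤ (∑ l ∈ A, ρ l) ^ R := by
  classical
  induction A using Finset.induction_on with
  | empty =>
    intro R
    rcases R with _ | R
    · rw [Finset.powersetCard_zero]
      simp
    · rw [Finset.powersetCard_eq_empty.2 (by simp)]
      simp
  | insert a A ha ih =>
    have hA' : ∀ l ∈ A, 0 ≤ ρ l := fun l hl => hA l (Finset.mem_insert_of_mem hl)
    have ha0 : 0 ≤ ρ a := hA a (Finset.mem_insert_self a A)
    have hs0 : 0 ≤ ∑ l ∈ A, ρ l := Finset.sum_nonneg hA'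
    intro R
    rcases R with _ | R
    · rw [Finset.powersetCard_zero]
      simp
    · rw [Finset.powersetCard_succ_insert ha, Finset.sum_insert ha]
      have h1 : ∑ T ∈ A.powersetCard (R + 1) ∪ (A.powersetCard R).image (insert a),
          ∏ l ∈ T, ρ l ≤ ∑ T ∈ A.powersetCard (R + 1), ∏ l ∈ T, ρ l +
          ∑ T ∈ (A.powersetCard R).image (insert a), ∏ l ∈ T, ρ l := by
        rw [← Finset.sum_union_inter]
        have h0 : 0 ≤ ∑ T ∈ A.powersetCard (R + 1) ∩ (A.powersetCard R).image (insert a),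
            ∏ l ∈ T, ρ l := by
          refine Finset.sum_nonneg (fun T hT => Finset.prod_nonneg (fun l hl => ?_))
          exact hA' l ((Finset.mem_powersetCard.1 (Finset.mem_inter.1 hT).1).1 hl)
        linarith
      have hinj : Set.InjOn (insert a) (A.powersetCard R : Set (Finset ℕ)) := by
        intro T hT T' hT' e
        have hT1 : a ∉ T := fun h =>
          ha ((Finset.mem_powersetCard.1 (Finset.mem_coe.1 hT)).1 h)
        have hT2 : a ∉ T' := fun h =>
          ha ((Finset.mem_powersetCard.1 (Finset.mem_coe.1 hT')).1 h)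
        rw [← Finset.erase_insert hT1, ← Finset.erase_insert hT2, e]
      rw [Finset.sum_image hinj] at h1
      have h2 : ∑ T ∈ A.powersetCard R, ∏ l ∈ insert a T, ρ l =
          ρ a * ∑ T ∈ A.powersetCard R, ∏ l ∈ T, ρ l := by
        rw [Finset.mul_sum]
        refine Finset.sum_congr rfl (fun T hT => ?_)
        exact Finset.prod_insert (fun h => ha ((Finset.mem_powersetCard.1 hT).1 h))
      rw [h2] at h1
      refine h1.trans ?_
      have h3 := ih hA' (R + 1)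
      have h4 := mul_le_mul_of_nonneg_left (ih hA' R) ha0
      have h5 : (∑ l ∈ A, ρ l) ^ R ≤ (ρ a + ∑ l ∈ A, ρ l) ^ R :=
        pow_le_pow_left₀ hs0 (by linarith) R
      calc ∑ T ∈ A.powersetCard (R + 1), ∏ l ∈ T, ρ l + ρ a * ∑ T ∈ A.powersetCard R, ∏ l ∈ T, ρ l
          ≤ (∑ l ∈ A, ρ l) ^ (R + 1) + ρ a * (∑ l ∈ A, ρ l) ^ R := add_le_add h3 h4
        _ = (ρ a + ∑ l ∈ A, ρ l) * (∑ l ∈ A, ρ l) ^ R := by rw [pow_succ]; ring
        _ ≤ (ρ a + ∑ l ∈ A, ρ l) * (ρ a + ∑ l ∈ A, ρ l) ^ R :=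
          mul_le_mul_of_nonneg_left h5 (by linarith)
        _ = (ρ a + ∑ l ∈ A, ρ l) ^ (R + 1) := by rw [pow_succ]; ring

/-- `P (k ∈ S, |S ∩ A| ≥ R) ≤ ρ k (∑_{l ∈ A} ρ l)^R` for `k ∉ A`. -/
theorem prob_card_ge (h : IsRandomSet P ρ S) (hρ : Dens ρ) (k : ℕ) (hk : 1 ≤ k) (A : Finset ℕ)
    (hA : ∀ l ∈ A, 1 ≤ l) (hkA : k ∉ A) (R : ℕ) :
    P {ω | k ∈ S ω ∧ R ≤ (tr (S ω) A).card} ≤
      ENNReal.ofReal (ρ k * (∑ l ∈ A, ρ l) ^ R) := by
  classical
  have hsub : {ω | k ∈ S ω ∧ R ≤ (tr (S ω) A).card} ⊆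
      ⋃ T ∈ A.powersetCard R, {ω | ∀ l ∈ insert k T, l ∈ S ω} := by
    rintro ω ⟨h1, h2⟩
    obtain ⟨T, hT1, hT2⟩ := Finset.exists_subset_card_eq h2
    refine Set.mem_iUnion₂.2 ⟨T, Finset.mem_powersetCard.2
      ⟨fun l hl => (mem_tr.1 (hT1 hl)).1, hT2⟩, ?_⟩
    intro l hl
    rcases Finset.mem_insert.1 hl with rfl | hl
    · exact h1
    · exact (mem_tr.1 (hT1 hl)).2
  refine (measure_mono hsub).trans ((measure_biUnion_finset_le _ _).trans ?_)
  have h1 : ∀ T ∈ A.powersetCard R, P {ω | ∀ l ∈ insert k T, l ∈ S ω} =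
      ENNReal.ofReal (ρ k * ∏ l ∈ T, ρ l) := by
    intro T hT
    have hTA := (Finset.mem_powersetCard.1 hT).1
    rw [prob_subset h hρ (insert k T) (by
      intro l hl
      rcases Finset.mem_insert.1 hl with rfl | hl
      · exact hk
      · exact hA l (hTA hl)), Finset.prod_insert (fun e => hkA (hTA e))]
  rw [Finset.sum_congr rfl h1, ← ENNReal.ofReal_sum_of_nonneg, ← Finset.mul_sum]
  · refine ENNReal.ofReal_le_ofReal (mul_le_mul_of_nonneg_left ?_ (hρ.nonneg k hk))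
    exact ProbUp_esymm ρ A (fun l hl => hρ.nonneg l (hA l hl)) R
  · intro T hT
    exact mul_nonneg (hρ.nonneg k hk) (Finset.prod_nonneg (fun l hl =>
      hρ.nonneg l (hA l ((Finset.mem_powersetCard.1 hT).1 hl))))

end Pool.Agent.H87D
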