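import Pool.Agent.H87D.SumLf
import Pool.Agent.H87D.ProbUp

/-!
Almost surely, all but finitely many `s ∈ S` have the property that their prime factors
`p > exp ((2 lam + 1) L(s))` divide no smaller element of `S`.

PROOF PLAN.  Borel-Cantelli.  The probability of the exceptional event at `s` is at most
`∑_{p | s, p > exp ((2 lam+1) L(s))} ∑_{1 <= t < s, p | t} ρ s ρ t` (`prob_subset`), at most `log₂ s`
primes `p`, `ρ t <= C0 exp (lam L(s))/t` and `∑_{t < s, p | t} 1/t <= (1 + log s)/p`,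
`ρ s <= C0 exp (lam L(s))/s`.  Total at most `C0^2 exp (-L(s)) log₂ s (1 + log s)/s`, summable by
`summable_Lf`.
-/

namespace Pool.Agent.H87D

open MeasureTheory ProbabilityTheory Filter Finset

private theorem Collisions_harm (p s : ℕ) (hp : 1 ≤ p) :
    ∑ t ∈ (Finset.Ico 1 s).filter (fun t => p ∣ t), ((t : ℝ))⁻¹ ≤
      (1 + Real.log s) / p := by
  classical
  have hp0 : (0 : ℝ) < p := by exact_mod_cast hp
  have h1 : ∀ t ∈ (Finset.Ico 1 s).filter (fun t => p ∣ t),
      ((t : ℝ))⁻¹ = (p : ℝ)⁻¹ * (((t / p : ℕ) : ℝ))⁻¹ := by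
    intro t ht
    rw [Finset.mem_filter] at ht
    obtain ⟨j, rfl⟩ := ht.2
    rw [Nat.mul_div_cancel_left j (by omega)]
    push_cast
    rw [mul_inv]
  rw [Finset.sum_congr rfl h1, ← Finset.mul_sum, div_eq_inv_mul]
  apply mul_le_mul_of_nonneg_left _ (by positivity)
  have hinj : Set.InjOn (fun t : ℕ => t / p)
      (((Finset.Ico 1 s).filter (fun t => p ∣ t) : Finset ℕ) : Set ℕ) := by
    intro a ha b hb hab
    rw [Finset.mem_coe, Finset.mem_filter] at ha hb
    obtain ⟨j, rfl⟩ := ha.2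
    obtain ⟨i, rfl⟩ := hb.2
    simp only [Nat.mul_div_cancel_left _ (show 0 < p by omega)] at hab
    rw [hab]
  have h2 : ∑ t ∈ (Finset.Ico 1 s).filter (fun t => p ∣ t), (((t / p : ℕ) : ℝ))⁻¹ =
      ∑ j ∈ ((Finset.Ico 1 s).filter (fun t => p ∣ t)).image (fun t => t / p), ((j : ℝ))⁻¹ := by
    rw [Finset.sum_image hinj]
  rw [h2]
  have h3 : ∑ j ∈ ((Finset.Ico 1 s).filter (fun t => p ∣ t)).image (fun t => t / p), ((j : ℝ))⁻¹
      ≤ ∑ j ∈ Finset.Icc 1 s, ((j : ℝ))⁻¹ := by
    apply Finset.sum_le_sum_of_subset_of_nonneg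
    · intro j hj
      rw [Finset.mem_image] at hj
      obtain ⟨t, ht, rfl⟩ := hj
      rw [Finset.mem_filter, Finset.mem_Ico] at ht
      rw [Finset.mem_Icc]
      obtain ⟨⟨h4, h5⟩, j, rfl⟩ := ht
      rw [Nat.mul_div_cancel_left j (by omega)]
      refine ⟨?_, ?_⟩
      · rcases Nat.eq_zero_or_pos j with h0 | h0
        · subst h0; simp at h4
        · exact h0
      · have : j ≤ p * j := Nat.le_mul_of_pos_left j (by omega)
        omega
    · intro j _ _
      positivity
  have h6 : ((harmonic s : ℚ) : ℝ) = ∑ j ∈ Finset.Icc 1 s, ((j : ℝ))⁻¹ := by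
    rw [harmonic_eq_sum_Icc]
    push_cast
    rfl
  have h7 := harmonic_le_one_add_log s
  rw [h6] at h7
  exact h3.trans h7

private theorem Collisions_card (s : ℕ) (hs : 1 ≤ s) :
    (s.primeFactors.card : ℝ) ≤ 2 * Real.log s := by
  have h1 : 2 ^ s.primeFactors.card ≤ s := by
    calc 2 ^ s.primeFactors.card = ∏ _p ∈ s.primeFactors, 2 := by
          rw [Finset.prod_const]
      _ ≤ ∏ p ∈ s.primeFactors, p :=
          Finset.prod_le_prod' (fun p hp => (Nat.prime_of_mem_primeFactors hp).two_le)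
      _ ≤ s := Nat.le_of_dvd hs (Nat.prod_primeFactors_dvd s)
  have h2 : (s.primeFactors.card : ℝ) * Real.log 2 ≤ Real.log s := by
    rw [← Real.log_pow]
    apply Real.log_le_log (by positivity)
    exact_mod_cast h1
  have h3 := Real.log_two_gt_d9
  have h4 : (0 : ℝ) ≤ s.primeFactors.card := Nat.cast_nonneg _
  nlinarith

private noncomputable def Collisions_F (M : ℝ) (s : ℕ) : Finset ℕ :=
  flt (fun p => Real.exp (M * Lf s) < p) s.primeFactors

private noncomputable def Collisions_g (ρ : ℕ → ℝ) (M : ℝ) (s : ℕ) : ℝ :=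
  ∑ p ∈ Collisions_F M s, ∑ t ∈ (Finset.Ico 1 s).filter (fun t => p ∣ t), ρ s * ρ t

private theorem Collisions_g_nonneg (ρ : ℕ → ℝ) (hρ : Dens ρ) (M : ℝ) (s : ℕ) :
    0 ≤ Collisions_g ρ M s := by
  unfold Collisions_g
  apply Finset.sum_nonneg
  intro p _
  apply Finset.sum_nonneg
  intro t ht
  rw [Finset.mem_filter, Finset.mem_Ico] at ht
  exact mul_nonneg (hρ.nonneg s (by omega)) (hρ.nonneg t ht.1.1)

private theorem Collisions_g_le (ρ : ℕ → ℝ) (hρ : Dens ρ)
    (lam C0 : ℝ) (hlam : 0 ≤ lam) (hup : ∀ k : ℕ, 1 ≤ k → k * ρ k ≤ C0 * Real.exp (lam * Lf k))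
    (s : ℕ) (hs : 1 ≤ s) :
    Collisions_g ρ (2 * lam + 1) s ≤
      C0 ^ 2 * (Real.exp (-1 * Lf s) * (2 * Real.log s * (1 + Real.log s)) / s) := by
  have hC0 : 0 ≤ C0 := by
    have h1 := hup 1 le_rfl
    have h2 := hρ.nonneg 1 le_rfl
    have h3 := Real.exp_pos (lam * Lf 1)
    by_contra hneg
    push Not at hneg
    have h4 : C0 * Real.exp (lam * Lf 1) < 0 := mul_neg_of_neg_of_pos hneg h3
    simp only [Nat.cast_one, one_mul] at h1
    linarith
  have hs0 : (0 : ℝ) < s := by exact_mod_cast hs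
  have hs1 : (1 : ℝ) ≤ s := by exact_mod_cast hs
  have hlog : 0 ≤ Real.log s := Real.log_nonneg hs1
  set E := Real.exp (lam * Lf s) with hE
  have hEpos : 0 < E := Real.exp_pos _
  have hρs : ρ s ≤ C0 * E / s := by
    rw [le_div_iff₀ hs0, mul_comm]
    exact hup s hs
  have hρs0 : 0 ≤ ρ s := hρ.nonneg s hs
  -- the inner sum
  have hinner : ∀ p ∈ Collisions_F (2 * lam + 1) s,
      ∑ t ∈ (Finset.Ico 1 s).filter (fun t => p ∣ t), ρ s * ρ t ≤
        (C0 * E / s) * (C0 * E * ((1 + Real.log s) * Real.exp (-((2 * lam + 1) * Lf s)))) := by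
    intro p hp
    unfold Collisions_F at hp
    rw [mem_flt] at hp
    have hpp : p.Prime := Nat.prime_of_mem_primeFactors hp.1
    have hp0 : (0 : ℝ) < p := by exact_mod_cast hpp.pos
    rw [← Finset.mul_sum]
    have h5 : ∑ t ∈ (Finset.Ico 1 s).filter (fun t => p ∣ t), ρ t ≤
        C0 * E * ((1 + Real.log s) * Real.exp (-((2 * lam + 1) * Lf s))) := by
      calc ∑ t ∈ (Finset.Ico 1 s).filter (fun t => p ∣ t), ρ t
          ≤ ∑ t ∈ (Finset.Ico 1 s).filter (fun t => p ∣ t), C0 * E * ((t : ℝ))⁻¹ := by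
            apply Finset.sum_le_sum
            intro t ht
            rw [Finset.mem_filter, Finset.mem_Ico] at ht
            have ht0 : (0 : ℝ) < t := by exact_mod_cast ht.1.1
            rw [← div_eq_mul_inv, le_div_iff₀ ht0, mul_comm]
            refine (hup t ht.1.1).trans ?_
            apply mul_le_mul_of_nonneg_left _ hC0
            apply Real.exp_le_exp.2
            exact mul_le_mul_of_nonneg_left (Lf_mono ht.1.1 ht.1.2.le) hlam
        _ = C0 * E * ∑ t ∈ (Finset.Ico 1 s).filter (fun t => p ∣ t), ((t : ℝ))⁻¹ := by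
            rw [Finset.mul_sum]
        _ ≤ C0 * E * ((1 + Real.log s) / p) :=
            mul_le_mul_of_nonneg_left (Collisions_harm p s hpp.pos) (by positivity)
        _ ≤ C0 * E * ((1 + Real.log s) * Real.exp (-((2 * lam + 1) * Lf s))) := by
            apply mul_le_mul_of_nonneg_left _ (by positivity)
            rw [div_eq_mul_inv]
            apply mul_le_mul_of_nonneg_left _ (by linarith)
            rw [Real.exp_neg]
            exact inv_anti₀ (Real.exp_pos _) hp.2.le
    have h6 : 0 ≤ ∑ t ∈ (Finset.Ico 1 s).filter (fun t => p ∣ t), ρ t := by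
      apply Finset.sum_nonneg
      intro t ht
      rw [Finset.mem_filter, Finset.mem_Ico] at ht
      exact hρ.nonneg t ht.1.1
    exact mul_le_mul hρs h5 h6 (by positivity)
  have hcard : ((Collisions_F (2 * lam + 1) s).card : ℝ) ≤ 2 * Real.log s := by
    refine le_trans ?_ (Collisions_card s hs)
    have h7 : (Collisions_F (2 * lam + 1) s).card ≤ s.primeFactors.card := by
      apply Finset.card_le_card
      intro p hp
      unfold Collisions_F at hp
      exact (mem_flt.1 hp).1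
    exact_mod_cast h7
  have hexp : E * E * Real.exp (-((2 * lam + 1) * Lf s)) = Real.exp (-1 * Lf s) := by
    rw [hE, ← Real.exp_add, ← Real.exp_add]
    congr 1
    ring
  unfold Collisions_g
  calc ∑ p ∈ Collisions_F (2 * lam + 1) s,
        ∑ t ∈ (Finset.Ico 1 s).filter (fun t => p ∣ t), ρ s * ρ t
      ≤ ∑ _p ∈ Collisions_F (2 * lam + 1) s,
        (C0 * E / s) * (C0 * E * ((1 + Real.log s) * Real.exp (-((2 * lam + 1) * Lf s)))) :=
        Finset.sum_le_sum hinner
    _ = ((Collisions_F (2 * lam + 1) s).card : ℝ) *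
        ((C0 * E / s) * (C0 * E * ((1 + Real.log s) * Real.exp (-((2 * lam + 1) * Lf s))))) := by
        rw [Finset.sum_const, nsmul_eq_mul]
    _ ≤ (2 * Real.log s) *
        ((C0 * E / s) * (C0 * E * ((1 + Real.log s) * Real.exp (-((2 * lam + 1) * Lf s))))) := by
        apply mul_le_mul_of_nonneg_right hcard
        have : 0 ≤ 1 + Real.log s := by linarith
        positivity
    _ = C0 ^ 2 * ((E * E * Real.exp (-((2 * lam + 1) * Lf s))) *
          (2 * Real.log s * (1 + Real.log s)) / s) := by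
        ring
    _ = _ := by rw [hexp]

private theorem Collisions_summable (ρ : ℕ → ℝ) (hρ : Dens ρ)
    (lam C0 : ℝ) (hlam : 0 ≤ lam) (hup : ∀ k : ℕ, 1 ≤ k → k * ρ k ≤ C0 * Real.exp (lam * Lf k)) :
    Summable (Collisions_g ρ (2 * lam + 1)) := by
  have h1 := (summable_Lf 1 one_pos 1).mul_left (C0 ^ 2 * 2)
  have h2 := (summable_Lf 1 one_pos 2).mul_left (C0 ^ 2 * 2)
  apply (h1.add h2).of_norm_bounded_eventually_nat
  filter_upwards [eventually_ge_atTop 1] with s hs
  rw [Real.norm_of_nonneg (Collisions_g_nonneg ρ hρ _ s)]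
  refine (Collisions_g_le ρ hρ lam C0 hlam hup s hs).trans (le_of_eq ?_)
  ring

theorem collisions {Ω : Type*} [MeasurableSpace Ω] (P : Measure Ω) [IsProbabilityMeasure P]
    (ρ : ℕ → ℝ) (S : Ω → Set ℕ) (h : IsRandomSet P ρ S) (hρ : Dens ρ)
    (lam C0 : ℝ) (hlam : 0 ≤ lam) (hup : ∀ k : ℕ, 1 ≤ k → k * ρ k ≤ C0 * Real.exp (lam * Lf k)) :
    ∀ᵐ ω ∂P, ∀ᶠ s : ℕ in atTop, s ∈ S ω → ∀ p : ℕ, p.Prime → p ∣ s →
      Real.exp ((2 * lam + 1) * Lf s) < p → ∀ t ∈ S ω, 1 ≤ t → t < s → ¬ p ∣ t := by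
  classical
  set M : ℝ := 2 * lam + 1 with hM
  let E : ℕ → Set Ω := fun s => ⋃ p ∈ Collisions_F M s,
    ⋃ t ∈ (Finset.Ico 1 s).filter (fun t => p ∣ t), {ω | ∀ k ∈ ({s, t} : Finset ℕ), k ∈ S ω}
  have hE : ∀ s, P (E s) ≤ ENNReal.ofReal (Collisions_g ρ M s) := by
    intro s
    have h1 : ∀ p ∈ Collisions_F M s,
        P (⋃ t ∈ (Finset.Ico 1 s).filter (fun t => p ∣ t),
          {ω | ∀ k ∈ ({s, t} : Finset ℕ), k ∈ S ω}) ≤
        ENNReal.ofReal (∑ t ∈ (Finset.Ico 1 s).filter (fun t => p ∣ t), ρ s * ρ t) := by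
      intro p _
      refine (measure_biUnion_finset_le _ _).trans ?_
      rw [ENNReal.ofReal_sum_of_nonneg]
      · apply Finset.sum_le_sum
        intro t ht
        rw [Finset.mem_filter, Finset.mem_Ico] at ht
        have hst : s ≠ t := by omega
        rw [prob_subset h hρ {s, t} (by
          intro k hk
          rw [Finset.mem_insert, Finset.mem_singleton] at hk
          omega), Finset.prod_pair hst]
      · intro t ht
        rw [Finset.mem_filter, Finset.mem_Ico] at ht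
        exact mul_nonneg (hρ.nonneg s (by omega)) (hρ.nonneg t ht.1.1)
    refine (measure_biUnion_finset_le _ _).trans ?_
    unfold Collisions_g
    rw [ENNReal.ofReal_sum_of_nonneg]
    · exact Finset.sum_le_sum h1
    · intro p _
      apply Finset.sum_nonneg
      intro t ht
      rw [Finset.mem_filter, Finset.mem_Ico] at ht
      exact mul_nonneg (hρ.nonneg s (by omega)) (hρ.nonneg t ht.1.1)
  have hsum : ∑' s, P (E s) ≠ ⊤ := by
    have h2 := (Collisions_summable ρ hρ lam C0 hlam hup).tsum_ofReal_ne_top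
    exact ne_top_of_le_ne_top h2 (ENNReal.tsum_le_tsum hE)
  filter_upwards [ae_eventually_notMem hsum] with ω hω
  filter_upwards [hω] with s hs
  intro hsS p hp hps hpM t htS ht1 hts hpt
  apply hs
  refine Set.mem_iUnion₂.2 ⟨p, ?_, Set.mem_iUnion₂.2 ⟨t, ?_, ?_⟩⟩
  · unfold Collisions_F
    rw [mem_flt]
    exact ⟨Nat.mem_primeFactors.2 ⟨hp, hps, by omega⟩, hpM⟩
  · rw [Finset.mem_filter, Finset.mem_Ico]
    exact ⟨⟨ht1, hts⟩, hpt⟩
  · intro k hk
    rw [Finset.mem_insert, Finset.mem_singleton] at hk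
    rcases hk with rfl | rfl
    · exact hsS
    · exact htS

end Pool.Agent.H87D
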