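import Pool.Agent.H87D.Defs

/-!
Lower tail bound for the number of elements of a random set in a finite set.

PROOF PLAN.  `E exp (-|S ∩ A|) = ∏_{l ∈ A} (1 - ρ l (1 - exp (-1))) <= exp (-(∑ ρ l)/2)` by
independence (product of independent indicators; or by induction on `A`), and Markov's inequality:
`|S ∩ A| < R` implies `exp (-|S ∩ A|) >= exp (-R)`.
-/

namespace Pool.Agent.H87D

open MeasureTheory ProbabilityTheory Finset

variable {Ω : Type*} [MeasurableSpace Ω] {P : Measure Ω} [IsProbabilityMeasure P]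
  {ρ : ℕ → ℝ} {S : Ω → Set ℕ}

/-- the exponential moment of an indicator -/
theorem ProbLow_mgf (E : Set Ω) (hE : MeasurableSet E) :
    mgf (E.indicator fun _ => (1 : ℝ)) P (-1) ≤ Real.exp (-(P.real E) / 2) := by
  have e1 : ∀ ω, Real.exp (-1 * E.indicator (fun _ => (1 : ℝ)) ω) =
      1 - (1 - Real.exp (-1)) * E.indicator (fun _ => (1 : ℝ)) ω := by
    intro ω
    by_cases hω : ω ∈ E
    · rw [Set.indicator_of_mem hω]
      simp
    · rw [Set.indicator_of_notMem hω]
      simp
  have e2 : mgf (E.indicator fun _ => (1 : ℝ)) P (-1) = 1 - (1 - Real.exp (-1)) * P.real E := by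
    unfold mgf
    simp_rw [e1]
    rw [integral_sub (integrable_const _) (((integrable_const _).indicator hE).const_mul _),
      integral_const_mul, integral_indicator_const _ hE]
    simp
  rw [e2]
  have h1 : Real.exp (-1) ≤ 1 / 2 := by
    have h2 := Real.exp_neg_one_lt_d9
    norm_num at h2
    linarith
  have h3 : 0 ≤ P.real E := measureReal_nonneg
  have h4 := Real.add_one_le_exp (-(P.real E) / 2)
  nlinarith

/-- `P (|S ∩ A| < R) ≤ exp (R - (∑_{l ∈ A} ρ l) / 2)`. -/
theorem prob_card_lt (h : IsRandomSet P ρ S) (hρ : Dens ρ) (A : Finset ℕ)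
    (hA : ∀ l ∈ A, 1 ≤ l) (R : ℕ) :
    P {ω | (tr (S ω) A).card < R} ≤
      ENNReal.ofReal (Real.exp (R - (∑ l ∈ A, ρ l) / 2)) := by
  classical
  set X : ℕ → Ω → ℝ := fun i => {ω | i + 1 ∈ S ω}.indicator fun _ => (1 : ℝ) with hX
  have hmeasE : ∀ i : ℕ, MeasurableSet {ω | i + 1 ∈ S ω} := fun i => h.meas (i + 1) (by omega)
  have hmeas : ∀ i, Measurable (X i) := fun i => measurable_const.indicator (hmeasE i)
  have hind : iIndepFun X P := h.indep.iIndepFun_indicator
  set B : Finset ℕ := A.image (fun k => k - 1) with hB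
  have hinj : Set.InjOn (fun k => k - 1) (A : Set ℕ) := by
    intro a ha b hb hab
    have h1 := hA a ha
    have h2 := hA b hb
    have h3 : a - 1 = b - 1 := hab
    omega
  have hcard : ∀ ω, ((tr (S ω) A).card : ℝ) = (∑ i ∈ B, X i) ω := by
    intro ω
    rw [Finset.sum_apply, hB, Finset.sum_image hinj]
    unfold tr flt
    rw [Finset.card_filter]
    push_cast
    refine Finset.sum_congr rfl (fun k hk => ?_)
    have hk1 : k - 1 + 1 = k := Nat.sub_add_cancel (hA k hk)
    rw [hX]
    dsimp only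
    rw [hk1]
    by_cases hkS : k ∈ S ω
    · rw [if_pos hkS, Set.indicator_of_mem]
      exact hkS
    · rw [if_neg hkS, Set.indicator_of_notMem]
      exact hkS
  have hmgf := hind.mgf_sum hmeas B (t := -1)
  have hint : Integrable (fun ω => Real.exp (-1 * (∑ i ∈ B, X i) ω)) P := by
    refine Integrable.of_bound ?_ 1 (Filter.Eventually.of_forall (fun ω => ?_))
    · have hm : Measurable (∑ i ∈ B, X i) := by
        have e : (∑ i ∈ B, X i) = fun a => ∑ i ∈ B, X i a := by
          ext a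
          rw [Finset.sum_apply]
        rw [e]
        exact Finset.measurable_sum B (fun i _ => hmeas i)
      exact ((hm.const_mul (-1)).exp).aestronglyMeasurable
    · rw [Real.norm_eq_abs, abs_of_pos (Real.exp_pos _), Real.exp_le_one_iff, ← hcard ω]
      have : (0 : ℝ) ≤ ((tr (S ω) A).card : ℝ) := Nat.cast_nonneg _
      linarith
  have hch := measure_le_le_exp_mul_mgf (μ := P) (X := ∑ i ∈ B, X i) (t := -1) (R : ℝ)
    (by norm_num) hint
  have hprod : ∏ i ∈ B, mgf (X i) P (-1) ≤ Real.exp (-(∑ l ∈ A, ρ l) / 2) := by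
    have h1 : Real.exp (-(∑ l ∈ A, ρ l) / 2) = ∏ i ∈ B, Real.exp (-(ρ (i + 1)) / 2) := by
      rw [← Real.exp_sum, hB, Finset.sum_image hinj]
      congr 1
      rw [← Finset.sum_div, Finset.sum_neg_distrib]
      congr 2
      refine Finset.sum_congr rfl (fun k hk => ?_)
      rw [Nat.sub_add_cancel (hA k hk)]
    rw [h1]
    refine Finset.prod_le_prod (fun i _ => mgf_nonneg) (fun i _ => ?_)
    have h2 := ProbLow_mgf (P := P) {ω | i + 1 ∈ S ω} (hmeasE i)
    have h3 : P.real {ω | i + 1 ∈ S ω} = ρ (i + 1) := by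
      rw [Measure.real, h.prob (i + 1) (by omega),
        ENNReal.toReal_ofReal (hρ.nonneg (i + 1) (by omega))]
    rw [h3] at h2
    exact h2
  rw [hmgf] at hch
  have hle : P.real {ω | (∑ i ∈ B, X i) ω ≤ (R : ℝ)} ≤ Real.exp (R - (∑ l ∈ A, ρ l) / 2) := by
    refine hch.trans ((mul_le_mul_of_nonneg_left hprod (Real.exp_pos _).le).trans (le_of_eq ?_))
    rw [← Real.exp_add]
    congr 1
    ring
  have hsub : {ω | (tr (S ω) A).card < R} ⊆ {ω | (∑ i ∈ B, X i) ω ≤ (R : ℝ)} := by
    intro ω hω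
    have h1 : (tr (S ω) A).card < R := hω
    have h2 : ((tr (S ω) A).card : ℝ) ≤ R := by exact_mod_cast h1.le
    rw [hcard ω] at h2
    exact h2
  refine (measure_mono hsub).trans ?_
  rw [← ENNReal.ofReal_toReal (measure_ne_top P {ω | (∑ i ∈ B, X i) ω ≤ (R : ℝ)})]
  exact ENNReal.ofReal_le_ofReal hle

end Pool.Agent.H87D
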