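import Pool.Agent.H87D.Defs

/-!
From local control after each element of `S ∩ V` to control in every interval.

PROOF PLAN.  Strong induction on `n - m`.  Let `k` be the least element of `S ∩ V` in `[m, n]` (if none,
trivial).  If `n <= nk k`, at most `1 + (R-1)` elements of `S ∩ V` are in `[m, n]`.  Otherwise split
`[m, n]` at `nk k`: the first part has at most `R` elements of `S ∩ V` and at least `R` elements of
`S \ V`; use the induction hypothesis for `[nk k + 1, n]`.
-/

namespace Pool.Agent.H87D

open Finset

theorem queue (S V : Set ℕ) (nk : ℕ → ℕ) (k0 R : ℕ) (hnk : ∀ k, k ≤ nk k)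
    (h1 : ∀ k, k0 ≤ k → k ∈ S → k ∈ V →
      (flt (fun s => s ∈ S ∧ s ∈ V) (Ioc k (nk k))).card + 1 ≤ R)
    (h2 : ∀ k, k0 ≤ k → k ∈ S → k ∈ V →
      R ≤ (flt (fun s => s ∈ S ∧ s ∉ V) (Ioc k (nk k))).card) :
    ∀ m n : ℕ, k0 ≤ m →
      (flt (fun s => s ∈ S ∧ s ∈ V) (Icc m n)).card ≤
        (flt (fun s => s ∈ S ∧ s ∉ V) (Icc m n)).card + R := by
  classical
  have main : ∀ t m n : ℕ, n + 1 - m ≤ t → k0 ≤ m →
      (flt (fun s => s ∈ S ∧ s ∈ V) (Icc m n)).card ≤
        (flt (fun s => s ∈ S ∧ s ∉ V) (Icc m n)).card + R := by
    intro t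
    induction t with
    | zero =>
      intro m n hmn _
      have : flt (fun s => s ∈ S ∧ s ∈ V) (Icc m n) = ∅ := by
        refine Finset.eq_empty_of_forall_notMem fun s hs => ?_
        rw [mem_flt, mem_Icc] at hs
        omega
      rw [this]
      simp
    | succ t ih =>
      intro m n hmn hm
      by_cases hex : ∃ k, k ∈ flt (fun s => s ∈ S ∧ s ∈ V) (Icc m n)
      · obtain ⟨k, hkm, hkmin⟩ := (flt (fun s => s ∈ S ∧ s ∈ V) (Icc m n)).exists_min_image id hex
        have hk := hkm
        rw [mem_flt, mem_Icc] at hk
        have hk0 : k0 ≤ k := by omega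
        have e1 := h1 k hk0 hk.2.1 hk.2.2
        have e2 := h2 k hk0 hk.2.1 hk.2.2
        have hle := hnk k
        by_cases hn : n ≤ nk k
        · have hsub : flt (fun s => s ∈ S ∧ s ∈ V) (Icc m n) ⊆
              insert k (flt (fun s => s ∈ S ∧ s ∈ V) (Ioc k (nk k))) := by
            intro s hs
            have hks : k ≤ s := hkmin s hs
            rw [mem_flt, mem_Icc] at hs
            rcases Nat.eq_or_lt_of_le hks with h | h
            · rw [h]; exact Finset.mem_insert_self _ _
            · refine Finset.mem_insert_of_mem ?_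
              rw [mem_flt, mem_Ioc]
              exact ⟨⟨h, by omega⟩, hs.2⟩
          have := (Finset.card_le_card hsub).trans (Finset.card_insert_le _ _)
          omega
        · have hn' : nk k < n := not_le.mp hn
          have hsub : flt (fun s => s ∈ S ∧ s ∈ V) (Icc m n) ⊆
              insert k (flt (fun s => s ∈ S ∧ s ∈ V) (Ioc k (nk k))) ∪
                flt (fun s => s ∈ S ∧ s ∈ V) (Icc (nk k + 1) n) := by
            intro s hs
            have hks : k ≤ s := hkmin s hs
            rw [mem_flt, mem_Icc] at hs
            rw [Finset.mem_union]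
            by_cases hs' : s ≤ nk k
            · left
              rcases Nat.eq_or_lt_of_le hks with h | h
              · rw [h]; exact Finset.mem_insert_self _ _
              · refine Finset.mem_insert_of_mem ?_
                rw [mem_flt, mem_Ioc]
                exact ⟨⟨h, hs'⟩, hs.2⟩
            · right
              rw [mem_flt, mem_Icc]
              exact ⟨⟨by omega, hs.1.2⟩, hs.2⟩
          have c1 := (Finset.card_le_card hsub).trans (Finset.card_union_le _ _)
          have c2 := Finset.card_insert_le k (flt (fun s => s ∈ S ∧ s ∈ V) (Ioc k (nk k)))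
          have c3 := ih (nk k + 1) n (by omega) (by omega)
          have hdis : Disjoint (flt (fun s => s ∈ S ∧ s ∉ V) (Ioc k (nk k)))
              (flt (fun s => s ∈ S ∧ s ∉ V) (Icc (nk k + 1) n)) := by
            rw [Finset.disjoint_left]
            intro s hs hs'
            rw [mem_flt, mem_Ioc] at hs
            rw [mem_flt, mem_Icc] at hs'
            omega
          have hsub2 : flt (fun s => s ∈ S ∧ s ∉ V) (Ioc k (nk k)) ∪
              flt (fun s => s ∈ S ∧ s ∉ V) (Icc (nk k + 1) n) ⊆
              flt (fun s => s ∈ S ∧ s ∉ V) (Icc m n) := by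
            intro s hs
            rw [Finset.mem_union, mem_flt, mem_flt, mem_Ioc, mem_Icc] at hs
            rw [mem_flt, mem_Icc]
            rcases hs with hs | hs
            · exact ⟨⟨by omega, by omega⟩, hs.2⟩
            · exact ⟨⟨by omega, by omega⟩, hs.2⟩
          have c4 := Finset.card_le_card hsub2
          rw [Finset.card_union_of_disjoint hdis] at c4
          omega
      · have : flt (fun s => s ∈ S ∧ s ∈ V) (Icc m n) = ∅ := by
          refine Finset.eq_empty_of_forall_notMem fun s hs => hex ⟨s, hs⟩
        rw [this]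
        simp
  intro m n hm
  exact main (n + 1 - m) m n le_rfl hm

end Pool.Agent.H87D
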