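import Pool.Agent.H87D.Steering
import Pool.Agent.H87D.Queue
import Pool.Agent.H87D.ProbLow
import Pool.Agent.H87D.Collisions
import Pool.Agent.H87D.AbelV

/-!
Random sets below the threshold are almost surely bad.
-/

namespace Pool.Agent.H87D

open MeasureTheory ProbabilityTheory Filter Finset
open Pool.Agent.H91.Discrepancy

/-- From an eventual bound to a bound for all `k ≥ 1`. -/
theorem BadMain_global (ρ : ℕ → ℝ) (hρ : Dens ρ) (lam : ℝ)
    (hlam : ∀ᶠ k : ℕ in atTop, k * ρ k ≤ Real.exp (lam * Lf k)) :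
    ∃ C0 : ℝ, 1 ≤ C0 ∧ ∀ k : ℕ, 1 ≤ k → k * ρ k ≤ C0 * Real.exp (max lam 0 * Lf k) := by
  obtain ⟨K, hK⟩ := eventually_atTop.mp hlam
  refine ⟨max 1 K, le_max_left _ _, ?_⟩
  intro k hk
  have hL : 0 ≤ Lf k := Real.sqrt_nonneg _
  have hE : 1 ≤ Real.exp (max lam 0 * Lf k) :=
    Real.one_le_exp (mul_nonneg (le_max_right _ _) hL)
  by_cases hkK : K ≤ k
  · have h1 := hK k hkK
    have h2 : Real.exp (lam * Lf k) ≤ Real.exp (max lam 0 * Lf k) :=
      Real.exp_le_exp.mpr (mul_le_mul_of_nonneg_right (le_max_left _ _) hL)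
    have h3 : (1 : ℝ) ≤ max 1 (K : ℝ) := le_max_left _ _
    nlinarith [Real.exp_pos (max lam 0 * Lf k)]
  · have h1 : (k : ℝ) ≤ K := by exact_mod_cast (not_le.mp hkK).le
    have h2 := hρ.le_one k hk
    have h3 := hρ.nonneg k hk
    have h4 : (K : ℝ) ≤ max 1 (K : ℝ) := le_max_right _ _
    have h5 : (0 : ℝ) ≤ k := Nat.cast_nonneg k
    calc (k : ℝ) * ρ k ≤ k * 1 := mul_le_mul_of_nonneg_left h2 h5
      _ ≤ max 1 (K : ℝ) * 1 := by rw [mul_one, mul_one]; exact h1.trans h4
      _ ≤ max 1 (K : ℝ) * Real.exp (max lam 0 * Lf k) :=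
        mul_le_mul_of_nonneg_left hE (le_trans zero_le_one (le_max_left _ _))

/-- Borel-Cantelli in the form used here. -/
theorem BadMain_bc {Ω : Type*} [MeasurableSpace Ω] (P : Measure Ω) (E : ℕ → Set Ω)
    (f : ℕ → ℝ) (hf : Summable f) (hE : ∀ᶠ k : ℕ in atTop, P (E k) ≤ ENNReal.ofReal (f k)) :
    ∀ᵐ ω ∂P, ∀ᶠ k : ℕ in atTop, ω ∉ E k := by
  obtain ⟨K, hK⟩ := eventually_atTop.mp hE
  have h1 : ∑' k : ℕ, P (E (k + K)) ≠ ⊤ := by
    have h2 : Summable (fun k : ℕ => ‖f (k + K)‖) :=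
      ((summable_nat_add_iff K).mpr hf).norm
    have h3 : ∑' k : ℕ, P (E (k + K)) ≤ ∑' k : ℕ, ENNReal.ofReal ‖f (k + K)‖ := by
      refine ENNReal.tsum_le_tsum fun k => ?_
      refine (hK (k + K) (by omega)).trans (ENNReal.ofReal_le_ofReal ?_)
      exact le_abs_self _
    have h4 : ∑' k : ℕ, ENNReal.ofReal ‖f (k + K)‖ ≠ ⊤ := h2.tsum_ofReal_ne_top
    exact ne_top_of_le_ne_top h4 h3
  have h5 := ae_eventually_notMem h1
  filter_upwards [h5] with ω hω
  obtain ⟨N, hN⟩ := eventually_atTop.mp hω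
  refine eventually_atTop.mpr ⟨N + K, fun k hk => ?_⟩
  have := hN (k - K) (by omega)
  rwa [Nat.sub_add_cancel (by omega)] at this

/-- If `ρ` is not summable then blocks of mass about `(log k)^2` exist. -/
theorem BadMain_nk (ρ : ℕ → ℝ) (hρ : Dens ρ) (hns : ¬ Summable ρ) (k : ℕ) :
    ∃ n : ℕ, k ≤ n ∧ (Real.log k) ^ 2 ≤ ∑ l ∈ Ioc k n, ρ l ∧
      ∑ l ∈ Ioc k n, ρ l ≤ (Real.log k) ^ 2 + 1 := by
  classical
  have hex : ∃ m : ℕ, (Real.log k) ^ 2 ≤ ∑ l ∈ Ioc k (k + m), ρ l := by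
    by_contra hcon
    push Not at hcon
    apply hns
    rw [← summable_nat_add_iff (k + 1)]
    refine summable_of_sum_range_le (c := (Real.log k) ^ 2) ?_ ?_
    · intro n; exact hρ.nonneg _ (by omega)
    · intro n
      have h1 : ∑ i ∈ range n, ρ (i + (k + 1)) = ∑ l ∈ Ioc k (k + n), ρ l := by
        rw [show Ioc k (k + n) = Ico (k + 1) (k + 1 + n) by
          ext x; simp only [mem_Ioc, mem_Ico]; omega]
        rw [Finset.sum_Ico_eq_sum_range]
        rw [show k + 1 + n - (k + 1) = n by omega]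
        exact Finset.sum_congr rfl fun i _ => by rw [add_comm]
      rw [h1]
      exact (hcon n).le
  refine ⟨k + Nat.find hex, by omega, Nat.find_spec hex, ?_⟩
  rcases Nat.eq_zero_or_pos (Nat.find hex) with h0 | h0
  · rw [h0, add_zero, Finset.Ioc_self, Finset.sum_empty]
    positivity
  · have h1 := Nat.find_min hex (show Nat.find hex - 1 < Nat.find hex by omega)
    push Not at h1
    have h2 : ∑ l ∈ Ioc k (k + Nat.find hex), ρ l
        = ∑ l ∈ Ioc k (k + (Nat.find hex - 1)), ρ l + ρ (k + Nat.find hex) := by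
      obtain ⟨m, hm⟩ : ∃ m, Nat.find hex = m + 1 := ⟨Nat.find hex - 1, by omega⟩
      rw [hm, show k + (m + 1) = (k + m) + 1 by ring, show m + 1 - 1 = m by omega]
      exact Finset.sum_Ioc_succ_top (by omega) _
    have h3 := hρ.le_one (k + Nat.find hex) (by omega)
    rw [h2]
    linarith

theorem bad_main {Ω : Type*} [MeasurableSpace Ω] (P : Measure Ω)
    [IsProbabilityMeasure P] (ρ : ℕ → ℝ) (S : Ω → Set ℕ) (h : IsRandomSet P ρ S) (hρ : Dens ρ)
    (lam : ℝ) (hlam : ∀ᶠ k : ℕ in atTop, k * ρ k ≤ Real.exp (lam * Lf k)) :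
    ∀ᵐ ω ∂P, IsBadSet (S ω) := by
  classical
  by_cases hs : Summable ρ
  · -- the set is finite almost surely
    have h1 : ∀ᵐ ω ∂P, ∀ᶠ k : ℕ in atTop, ω ∉ {ω | k ∈ S ω} := by
      refine BadMain_bc P (fun k => {ω | k ∈ S ω}) ρ hs ?_
      filter_upwards [eventually_ge_atTop 1] with k hk
      exact (h.prob k hk).le
    filter_upwards [h1] with ω hω
    obtain ⟨k0, hk0⟩ := eventually_atTop.mp hω
    refine steering (S ω) Set.univ k0 0 ?_ ?_
    · intro s _ _ hsV
      exact absurd (Set.mem_univ s) hsV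
    · intro m n hm
      have : flt (fun s => s ∈ S ω ∧ s ∈ (Set.univ : Set ℕ)) (Icc m n) = ∅ := by
        refine Finset.eq_empty_of_forall_notMem fun s hs' => ?_
        rw [mem_flt, mem_Icc] at hs'
        exact hk0 s (by omega) hs'.2.1
      rw [this]
      simp
  · obtain ⟨C0, hC0, hup⟩ := BadMain_global ρ hρ lam hlam
    set lam' := max lam 0 with hlam'
    have hlam0 : 0 ≤ lam' := le_max_right _ _
    have hcol := collisions P ρ S h hρ lam' C0 hlam0 hup
    obtain ⟨c, hc, k1, hk1⟩ := abelV ρ hρ lam' C0 hlam0 hup (2 * lam' + 1) (by linarith)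
    set V : Set ℕ := {n | VSm (2 * lam' + 1) n} with hV
    choose nk hnk1 hnk2 hnk3 using BadMain_nk ρ hρ hs
    obtain ⟨R, hR⟩ := exists_nat_ge ((lam' + 1) / c)
    have hR' : lam' + 1 ≤ c * R := by
      rw [div_le_iff₀ hc] at hR; linarith
    -- first family of events
    have hE1 : ∀ᵐ ω ∂P, ∀ᶠ k : ℕ in atTop,
        ω ∉ {ω | k ∈ S ω ∧ R ≤ (tr (S ω) (flt (VSm (2 * lam' + 1)) (Ioc k (nk k)))).card} := by
      have hsum : Summable (fun k : ℕ => C0 * (Real.exp (-1 * Lf k) * (Real.log k) ^ 0 / k)) :=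
        (summable_Lf 1 one_pos 0).mul_left C0
      refine BadMain_bc P _ _ hsum ?_
      filter_upwards [eventually_ge_atTop 1, eventually_ge_atTop k1] with k hk hkk1
      refine (prob_card_ge h hρ k hk _ ?_ ?_ R).trans (ENNReal.ofReal_le_ofReal ?_)
      · intro l hl; rw [mem_flt, mem_Ioc] at hl; omega
      · intro hl; rw [mem_flt, mem_Ioc] at hl; omega
      · have hk0 : (0 : ℝ) < k := by exact_mod_cast hk
        have hm := hk1 k hkk1 (nk k) (hnk1 k) (hnk3 k)
        have hm0 : 0 ≤ ∑ l ∈ flt (VSm (2 * lam' + 1)) (Ioc k (nk k)), ρ l := by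
          refine Finset.sum_nonneg fun l hl => hρ.nonneg l ?_
          rw [mem_flt, mem_Ioc] at hl; omega
        have hL : 0 ≤ Lf k := Real.sqrt_nonneg _
        have h2 : ρ k ≤ C0 * Real.exp (lam' * Lf k) / k := by
          rw [le_div_iff₀ hk0]
          have := hup k hk
          linarith
        calc ρ k * (∑ l ∈ flt (VSm (2 * lam' + 1)) (Ioc k (nk k)), ρ l) ^ R
            ≤ (C0 * Real.exp (lam' * Lf k) / k) * (Real.exp (-c * Lf k)) ^ R := by
              gcongr
          _ = C0 * (Real.exp (lam' * Lf k + R * (-c * Lf k)) / k) := by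
              rw [← Real.exp_nat_mul, Real.exp_add]; ring
          _ ≤ C0 * (Real.exp (-1 * Lf k) * (Real.log k) ^ 0 / k) := by
              rw [pow_zero, mul_one]
              gcongr
              nlinarith
    -- second family of events
    have hE2 : ∀ᵐ ω ∂P, ∀ᶠ k : ℕ in atTop,
        ω ∉ {ω | (tr (S ω) (flt (fun l => ¬ VSm (2 * lam' + 1) l) (Ioc k (nk k)))).card < R} := by
      have hsum : Summable (fun k : ℕ => Real.exp (R + 1) * (1 / (k : ℝ) ^ 2)) :=
        (Real.summable_one_div_nat_pow.mpr (by norm_num)).mul_left _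
      refine BadMain_bc P _ _ hsum ?_
      have hlog : ∀ᶠ k : ℕ in atTop, 4 ≤ Real.log k :=
        (Real.tendsto_log_atTop.comp tendsto_natCast_atTop_atTop).eventually_ge_atTop 4
      filter_upwards [eventually_ge_atTop 1, eventually_ge_atTop k1, hlog] with k hk hkk1 hlk
      refine (prob_card_lt h hρ _ ?_ R).trans (ENNReal.ofReal_le_ofReal ?_)
      · intro l hl; rw [mem_flt, mem_Ioc] at hl; omega
      · have hk0 : (0 : ℝ) < k := by exact_mod_cast hk
        have hm := hk1 k hkk1 (nk k) (hnk1 k) (hnk3 k)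
        have hL : 0 ≤ Lf k := Real.sqrt_nonneg _
        have hsplit : ∑ l ∈ flt (VSm (2 * lam' + 1)) (Ioc k (nk k)), ρ l
            + ∑ l ∈ flt (fun l => ¬ VSm (2 * lam' + 1) l) (Ioc k (nk k)), ρ l
            = ∑ l ∈ Ioc k (nk k), ρ l := by
          have h0 := Finset.sum_filter_add_sum_filter_not (Ioc k (nk k))
            (VSm (2 * lam' + 1)) ρ
          unfold flt
          convert h0
        have hge := hnk2 k
        have hexp1 : Real.exp (-c * Lf k) ≤ 1 := by
          rw [Real.exp_le_one_iff]; nlinarith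
        have h3 : (Real.log k) ^ 2 - 1 ≤
            ∑ l ∈ flt (fun l => ¬ VSm (2 * lam' + 1) l) (Ioc k (nk k)), ρ l := by linarith
        have h4 : 1 / (k : ℝ) ^ 2 = Real.exp (-(2 * Real.log k)) := by
          rw [Real.exp_neg, two_mul, Real.exp_add, Real.exp_log hk0, one_div, pow_two]
        rw [h4, ← Real.exp_add]
        refine Real.exp_le_exp.mpr ?_
        nlinarith
    filter_upwards [hcol, hE1, hE2] with ω hω hω1 hω2
    obtain ⟨a0, ha0⟩ := eventually_atTop.mp hω
    obtain ⟨a1, ha1⟩ := eventually_atTop.mp hω1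
    obtain ⟨a2, ha2⟩ := eventually_atTop.mp hω2
    have hq := queue (S ω) V nk (max a0 (max a1 a2)) R hnk1 ?_ ?_
    · refine steering (S ω) V (max a0 (max a1 a2)) R ?_ hq
      intro s hsS hs0 hsV
      have hsV' : ¬ VSm (2 * lam' + 1) s := hsV
      unfold VSm at hsV'
      push Not at hsV'
      obtain ⟨p, hp, hps, hpe⟩ := hsV'
      refine ⟨p, hp, hps, ?_⟩
      exact ha0 s (le_trans (le_max_left _ _) hs0) hsS p hp hps hpe
    · intro k hk hkS _
      have h5 := ha1 k (le_trans (le_trans (le_max_left _ _) (le_max_right _ _)) hk)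
      have h6 : flt (fun s => s ∈ S ω ∧ s ∈ V) (Ioc k (nk k))
          = tr (S ω) (flt (VSm (2 * lam' + 1)) (Ioc k (nk k))) := by
        ext s
        rw [mem_flt, mem_tr, mem_flt, hV, Set.mem_ofPred_eq]
        tauto
      rw [h6]
      by_contra hcon
      exact h5 ⟨hkS, by omega⟩
    · intro k hk hkS _
      have h5 := ha2 k (le_trans (le_trans (le_max_right _ _) (le_max_right _ _)) hk)
      have h6 : flt (fun s => s ∈ S ω ∧ s ∉ V) (Ioc k (nk k))
          = tr (S ω) (flt (fun l => ¬ VSm (2 * lam' + 1) l) (Ioc k (nk k))) := by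
        ext s
        rw [mem_flt, mem_tr, mem_flt, hV, Set.mem_ofPred_eq]
        tauto
      rw [h6]
      by_contra hcon
      exact h5 (not_le.mp hcon)

end Pool.Agent.H87D
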