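import Pool.Agent.H87D.Defs

/-!
The average of `|∑_{s ∈ T} ξ s|^2` over the `R`-element subsets `T` of a finite set `A` with at
least `2 R` elements is at least `R / 2`.

PROOF PLAN.  With `m = |A|`: expand the square; each `s` lies in `choose (m-1) (R-1)` sets `T`, each
ordered pair `s ≠ t` in `choose (m-2) (R-2)` of them (0 if R = 1).  So the sum equals
`m * choose (m-1) (R-1) + choose (m-2) (R-2) * (|∑_A ξ|^2 - m)
  >= m * choose (m-1) (R-1) - m * choose (m-2) (R-2)
  = choose m R * (R - R (R-1) / (m-1)) >= choose m R * R / 2`, because `m - 1 >= 2 R - 1 >= 2 (R-1)`.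
-/

namespace Pool.Agent.H87D

open Finset

private theorem CombId_count (A S : Finset ℕ) (R : ℕ) (hS : S ⊆ A) (hR : S.card ≤ R) :
    ((A.powersetCard R).filter (fun T => S ⊆ T)).card =
      (A.card - S.card).choose (R - S.card) := by
  rw [← Finset.card_sdiff_of_subset hS, ← Finset.card_powersetCard]
  apply Finset.card_nbij' (fun T => T \ S) (fun T => T ∪ S)
  · intro T hT
    rw [Finset.mem_coe, Finset.mem_filter, Finset.mem_powersetCard] at hT
    obtain ⟨⟨hTA, hTc⟩, hST⟩ := hT
    rw [Finset.mem_coe, Finset.mem_powersetCard]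
    refine ⟨Finset.sdiff_subset_sdiff hTA (le_refl _), ?_⟩
    rw [Finset.card_sdiff_of_subset hST, hTc]
  · intro T hT
    rw [Finset.mem_coe, Finset.mem_powersetCard] at hT
    obtain ⟨hTA, hTc⟩ := hT
    rw [Finset.mem_coe, Finset.mem_filter, Finset.mem_powersetCard]
    have hdis : Disjoint T S := Finset.disjoint_of_subset_left hTA Finset.sdiff_disjoint
    refine ⟨⟨Finset.union_subset (hTA.trans Finset.sdiff_subset) hS, ?_⟩,
      Finset.subset_union_right⟩
    rw [Finset.card_union_of_disjoint hdis, hTc]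
    omega
  · intro T hT
    rw [Finset.mem_coe, Finset.mem_filter, Finset.mem_powersetCard] at hT
    exact Finset.sdiff_union_of_subset hT.2
  · intro T hT
    rw [Finset.mem_coe, Finset.mem_powersetCard] at hT
    have hdis : Disjoint T S := Finset.disjoint_of_subset_left hT.1 Finset.sdiff_disjoint
    exact Finset.union_sdiff_cancel_right hdis

private theorem CombId_expand (A : Finset ℕ) (R : ℕ) (ξ : ℕ → ℂ) :
    ((∑ T ∈ A.powersetCard R, ‖∑ s ∈ T, ξ s‖ ^ 2 : ℝ) : ℂ) =
      ∑ s ∈ A, ∑ t ∈ A, (((A.powersetCard R).filter (fun T => ({s, t} : Finset ℕ) ⊆ T)).card : ℂ) *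
        (ξ s * (starRingEnd ℂ) (ξ t)) := by
  have h1 : ∀ T ∈ A.powersetCard R, ((‖∑ s ∈ T, ξ s‖ ^ 2 : ℝ) : ℂ) =
      ∑ s ∈ A, ∑ t ∈ A, if ({s, t} : Finset ℕ) ⊆ T then ξ s * (starRingEnd ℂ) (ξ t) else 0 := by
    intro T hT
    rw [Finset.mem_powersetCard] at hT
    have h2 : ∀ (f : ℕ → ℂ), ∑ s ∈ T, f s = ∑ s ∈ A, if s ∈ T then f s else 0 := by
      intro f
      rw [← Finset.sum_filter]
      congr 1
      ext x
      rw [Finset.mem_filter]
      exact ⟨fun h => ⟨hT.1 h, h⟩, fun h => h.2⟩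
    rw [Complex.ofReal_pow, ← Complex.mul_conj', map_sum, Finset.sum_mul_sum, h2]
    refine Finset.sum_congr rfl (fun s _ => ?_)
    by_cases hs : s ∈ T
    · rw [if_pos hs, h2]
      refine Finset.sum_congr rfl (fun t _ => ?_)
      by_cases ht : t ∈ T
      · rw [if_pos ht, if_pos (by
          intro x hx
          rw [Finset.mem_insert, Finset.mem_singleton] at hx
          rcases hx with rfl | rfl
          · exact hs
          · exact ht)]
      · rw [if_neg ht, if_neg (fun h => ht (h (by simp)))]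
    · rw [if_neg hs]
      symm
      refine Finset.sum_eq_zero (fun t _ => ?_)
      rw [if_neg (fun h => hs (h (by simp)))]
  rw [Complex.ofReal_sum, Finset.sum_congr rfl h1, Finset.sum_comm]
  refine Finset.sum_congr rfl (fun s _ => ?_)
  rw [Finset.sum_comm]
  refine Finset.sum_congr rfl (fun t _ => ?_)
  rw [← Finset.sum_filter, Finset.sum_const, nsmul_eq_mul]

theorem sum_powersetCard_norm_sq (A : Finset ℕ) (R : ℕ) (hR : 1 ≤ R) (hA : 2 * R ≤ A.card)
    (ξ : ℕ → ℂ) (hξ : ∀ n ∈ A, ‖ξ n‖ = 1) :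
    (R / 2 : ℝ) * (A.card.choose R) ≤ ∑ T ∈ A.powersetCard R, ‖∑ s ∈ T, ξ s‖ ^ 2 := by
  classical
  set m := A.card with hm
  set N1 : ℕ := (m - 1).choose (R - 1) with hN1
  set N2 : ℕ := if R = 1 then 0 else (m - 2).choose (R - 2) with hN2
  have hcount : ∀ s ∈ A, ∀ t ∈ A,
      ((A.powersetCard R).filter (fun T => ({s, t} : Finset ℕ) ⊆ T)).card =
        if s = t then N1 else N2 := by
    intro s hs t ht
    by_cases hst : s = t
    · subst hst
      rw [if_pos rfl]
      have h := CombId_count A {s, s} R (by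
        intro x hx
        simp only [Finset.mem_insert, Finset.mem_singleton, or_self] at hx
        rw [hx]; exact hs) (by simp; exact hR)
      rw [h]
      simp [hN1, hm]
    · rw [if_neg hst]
      by_cases hR1 : R = 1
      · rw [hN2, if_pos hR1, Finset.card_eq_zero, Finset.filter_eq_empty_iff]
        intro T hT hsub
        rw [Finset.mem_powersetCard] at hT
        have h := Finset.card_le_card hsub
        rw [Finset.card_pair hst, hT.2] at h
        omega
      · rw [hN2, if_neg hR1]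
        have h := CombId_count A {s, t} R (by
          intro x hx
          simp only [Finset.mem_insert, Finset.mem_singleton] at hx
          rcases hx with rfl | rfl
          · exact hs
          · exact ht) (by rw [Finset.card_pair hst]; omega)
        rw [h, Finset.card_pair hst]
  have hsum : ((∑ T ∈ A.powersetCard R, ‖∑ s ∈ T, ξ s‖ ^ 2 : ℝ) : ℂ) =
      (((N2 : ℝ) * ‖∑ s ∈ A, ξ s‖ ^ 2 + ((N1 : ℝ) - N2) * m : ℝ) : ℂ) := by
    rw [CombId_expand]
    have h1 : ∀ s ∈ A, ∑ t ∈ A,
        (((A.powersetCard R).filter (fun T => ({s, t} : Finset ℕ) ⊆ T)).card : ℂ) *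
          (ξ s * (starRingEnd ℂ) (ξ t)) =
        (N2 : ℂ) * ∑ t ∈ A, (ξ s * (starRingEnd ℂ) (ξ t)) + ((N1 : ℂ) - N2) := by
      intro s hs
      have h2 : ∀ t ∈ A,
          (((A.powersetCard R).filter (fun T => ({s, t} : Finset ℕ) ⊆ T)).card : ℂ) *
            (ξ s * (starRingEnd ℂ) (ξ t)) =
          (N2 : ℂ) * (ξ s * (starRingEnd ℂ) (ξ t)) +
            if s = t then ((N1 : ℂ) - N2) * (ξ s * (starRingEnd ℂ) (ξ t)) else 0 := by
        intro t ht
        rw [hcount s hs t ht]
        by_cases hst : s = t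
        · rw [if_pos hst, if_pos hst]; ring
        · rw [if_neg hst, if_neg hst]; ring
      rw [Finset.sum_congr rfl h2, Finset.sum_add_distrib, ← Finset.mul_sum, Finset.sum_ite_eq,
        if_pos hs, Complex.mul_conj', hξ s hs]
      simp
    rw [Finset.sum_congr rfl h1, Finset.sum_add_distrib, ← Finset.mul_sum, Finset.sum_const,
      ← Finset.sum_mul_sum, ← map_sum, Complex.mul_conj']
    push_cast
    rw [nsmul_eq_mul]
    ring
  have hreal : ∑ T ∈ A.powersetCard R, ‖∑ s ∈ T, ξ s‖ ^ 2 =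
      (N2 : ℝ) * ‖∑ s ∈ A, ξ s‖ ^ 2 + ((N1 : ℝ) - N2) * m := by
    exact_mod_cast hsum
  rw [hreal]
  have hpos : 0 ≤ (N2 : ℝ) * ‖∑ s ∈ A, ξ s‖ ^ 2 := by positivity
  have hm1 : 1 ≤ m := by omega
  -- m N1 = R choose m R
  have e1 : m * N1 = m.choose R * R := by
    have h := Nat.add_one_mul_choose_eq (m - 1) (R - 1)
    rw [Nat.sub_add_cancel hm1, Nat.sub_add_cancel hR] at h
    exact h
  -- (m-1) N2 = N1 (R-1)
  have e2 : (m - 1) * N2 = N1 * (R - 1) := by
    by_cases hR1 : R = 1
    · rw [hN2, if_pos hR1, hR1]; simp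
    · rw [hN2, if_neg hR1]
      have h := Nat.add_one_mul_choose_eq (m - 2) (R - 2)
      have a1 : m - 2 + 1 = m - 1 := by omega
      have a2 : R - 2 + 1 = R - 1 := by omega
      rw [a1, a2] at h
      exact h
  have e3 : 2 * (m * N2) ≤ m * N1 := by
    have hmR : 2 * (R - 1) ≤ m - 1 := by omega
    have hm1' : 0 < m - 1 := by omega
    have h : (m - 1) * (2 * N2) ≤ (m - 1) * N1 := by
      calc (m - 1) * (2 * N2) = 2 * ((m - 1) * N2) := by ring
        _ = N1 * (2 * (R - 1)) := by rw [e2]; ring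
        _ ≤ N1 * (m - 1) := Nat.mul_le_mul_left _ hmR
        _ = (m - 1) * N1 := by ring
    have h' := Nat.le_of_mul_le_mul_left h hm1'
    calc 2 * (m * N2) = m * (2 * N2) := by ring
      _ ≤ m * N1 := Nat.mul_le_mul_left _ h'
  have e1' : (m : ℝ) * N1 = (m.choose R : ℝ) * R := by exact_mod_cast e1
  have e3' : 2 * ((m : ℝ) * N2) ≤ (m : ℝ) * N1 := by exact_mod_cast e3
  nlinarith [e1', e3', hpos]

end Pool.Agent.H87D
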