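import Mathlib
import Pool.Agent.H91.Discrepancy

/-!
Random sets in the Erdős discrepancy problem: common definitions.
-/

namespace Pool.Agent.H87D

open MeasureTheory ProbabilityTheory Filter Finset

/-- The scale function `L(k) = sqrt (log k * log log k)`. -/
noncomputable def Lf (k : ℕ) : ℝ := Real.sqrt (Real.log k * Real.log (Real.log k))

/-- `n` is positive and all its prime factors are at most `y`. -/
def Sm (y n : ℕ) : Prop := n ≠ 0 ∧ ∀ p : ℕ, p.Prime → p ∣ n → p ≤ y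

/-- `n` is `exp (mu * L(n))`-smooth. -/
def VSm (mu : ℝ) (n : ℕ) : Prop := ∀ p : ℕ, p.Prime → p ∣ n → (p : ℝ) ≤ Real.exp (mu * Lf n)

/-- `ρ` is a non-increasing sequence in `[0,1]` (indices `k ≥ 1`). -/
structure Dens (ρ : ℕ → ℝ) : Prop where
  nonneg : ∀ k, 1 ≤ k → 0 ≤ ρ k
  le_one : ∀ k, 1 ≤ k → ρ k ≤ 1
  anti : ∀ k l, 1 ≤ k → k ≤ l → ρ l ≤ ρ k

/-- `S` is a random set: the events `k ∈ S`, `k ≥ 1`, are independent with probabilities `ρ k`. -/
structure IsRandomSet {Ω : Type*} [MeasurableSpace Ω] (P : Measure Ω) (ρ : ℕ → ℝ)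
    (S : Ω → Set ℕ) : Prop where
  meas : ∀ k, 1 ≤ k → MeasurableSet {ω | k ∈ S ω}
  prob : ∀ k, 1 ≤ k → P {ω | k ∈ S ω} = ENNReal.ofReal (ρ k)
  indep : iIndepSet (fun k : ℕ => {ω | k + 1 ∈ S ω}) P

/-- The discrepancy of the set `S` for the function `a` is at most `C`. -/
def DiscLe (S : Set ℕ) (a : ℕ → ℂ) (C : ℝ) : Prop :=
  ∀ d n : ℕ, 1 ≤ d → 1 ≤ n →
    ‖∑ k ∈ Finset.Icc 1 n, Set.indicator S (fun _ => (1 : ℂ)) k * a (d * k)‖ ≤ C

/-- The completely multiplicative character of order `M` with exponents `φ p` at the primes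
`p ≤ y`. -/
noncomputable def chi (y M : ℕ) (φ : Fin (y + 1) → Fin M) (n : ℕ) : ℂ :=
  Complex.exp (2 * Real.pi * Complex.I *
    ((∑ p : Fin (y + 1), (φ p : ℕ) * n.factorization (p : ℕ) : ℕ) : ℂ) / M)

theorem norm_chi (y M : ℕ) (φ : Fin (y + 1) → Fin M) (n : ℕ) : ‖chi y M φ n‖ = 1 := by
  unfold chi
  rw [show (2 * Real.pi * Complex.I *
    ((∑ p : Fin (y + 1), (φ p : ℕ) * n.factorization (p : ℕ) : ℕ) : ℂ) / M)
    = ((2 * Real.pi * ((∑ p : Fin (y + 1), (φ p : ℕ) * n.factorization (p : ℕ) : ℕ) : ℝ) / M : ℝ) : ℂ)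
      * Complex.I by push_cast; ring]
  exact Complex.norm_exp_ofReal_mul_I _

open Classical in
/-- The elements of `I` with the property `Q`. -/
noncomputable def flt (Q : ℕ → Prop) (I : Finset ℕ) : Finset ℕ := I.filter Q

theorem mem_flt {Q : ℕ → Prop} {I : Finset ℕ} {k : ℕ} : k ∈ flt Q I ↔ k ∈ I ∧ Q k := by
  classical
  unfold flt
  rw [Finset.mem_filter]

/-- The elements of `S` in the window `I`. -/
noncomputable def tr (S : Set ℕ) (I : Finset ℕ) : Finset ℕ := flt (fun k => k ∈ S) I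

theorem mem_tr {S : Set ℕ} {I : Finset ℕ} {k : ℕ} : k ∈ tr S I ↔ k ∈ I ∧ k ∈ S := mem_flt

open Classical in
/-- The window variable: if `S ∩ I` has exactly `R` elements, all in `A`, it is
`|∑_{s ∈ S ∩ I} ξ s|^2 - K`; otherwise it is `0`. -/
noncomputable def Yw (R : ℕ) (K : ℝ) (ξ : ℕ → ℂ) (I A : Finset ℕ) (S : Set ℕ) : ℝ :=
  if tr S I ⊆ A ∧ (tr S I).card = R then ‖∑ s ∈ tr S I, ξ s‖ ^ 2 - K else 0

/-- The probability weight of the pattern `T` in the window `I`. -/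
noncomputable def wt (ρ : ℕ → ℝ) (I T : Finset ℕ) : ℝ :=
  (∏ k ∈ T, ρ k) * ∏ k ∈ I \ T, (1 - ρ k)

end Pool.Agent.H87D
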