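import Pool.Agent.H87D.Defs

/-!
Fourier reduction: a unimodular function whose sums over all dilates of the sets `T` are bounded
can be replaced, on average over the sets `T`, by a completely multiplicative character.

PROOF PLAN.  Let `G = (Fin (y+1) -> ZMod M)` (`|G| = M^(y+1)`), for `e in G` let
`d e = ∏_{p <= y, p prime} p ^ (e p).val` and `g e = a (d e)` (so `|g| = 1`); for a positive
`y`-smooth `s` let `v s in G` be the exponent vector `p ↦ s.factorization p`.  If `(e p).val + E < M`
for all `p` (good `e`), then `d (e + v s) = d e * s` for every `s ∈ T ∈ F`, so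
`|∑_{s ∈ T} g (e + v s)| <= B`; for the other `e` (at most `(y+1) E M^y <= |G| / R^2` many) this sum
is at most `R`.  Hence `∑_e |∑_{s ∈ T} g (e + v s)|^2 <= |G| (B^2 + 1)` for each `T`.
Parseval on `G` (characters `e ↦ exp (2 π i ∑ φ p * e p / M)`, orthogonality; expand the square or
use `AddChar`): `∑_e |∑_{s ∈ T} g (e + v s)|^2 = |G| ∑_φ |ĝ φ|^2 |∑_{s ∈ T} χ_φ (v s)|^2` with
`ĝ φ = |G|⁻¹ ∑_e g e * conj (χ_φ e)` and `∑_φ |ĝ φ|^2 = 1`.  Sum over `T ∈ F`; an average over `φ`
with weights `|ĝ φ|^2` is at most `(B^2 + 1) |F|`, so some `φ` does it. (`χ_φ (v s)` is `chi y M φ s`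
since the exponents only matter modulo `M`.)
-/

namespace Pool.Agent.H87D

open Finset

section chars

variable {ι : Type*} [Fintype ι] [DecidableEq ι] {M : ℕ} [NeZero M]

/-- the characters of `ι → ZMod M` -/
private noncomputable def chr (φ e : ι → ZMod M) : ℂ := ZMod.stdAddChar (∑ p, φ p * e p)

omit [DecidableEq ι] in
private theorem chr_add (φ e e' : ι → ZMod M) : chr φ (e + e') = chr φ e * chr φ e' := by
  unfold chr
  rw [← AddChar.map_add_eq_mul, ← Finset.sum_add_distrib]
  congr 1
  exact Finset.sum_congr rfl fun p _ => by rw [Pi.add_apply, mul_add]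

omit [DecidableEq ι] in
private theorem norm_chr (φ e : ι → ZMod M) : ‖chr φ e‖ = 1 := by
  unfold chr
  rw [ZMod.stdAddChar_apply]
  exact Circle.norm_coe _

omit [DecidableEq ι] in
private theorem conj_chr (φ e : ι → ZMod M) : (starRingEnd ℂ) (chr φ e) = chr φ (-e) := by
  unfold chr
  rw [← AddChar.map_neg_eq_conj]
  congr 1
  rw [← Finset.sum_neg_distrib]
  exact Finset.sum_congr rfl fun p _ => by rw [Pi.neg_apply, mul_neg]

private theorem sum_chr (x : ι → ZMod M) :
    ∑ φ : ι → ZMod M, chr φ x = if x = 0 then ((M : ℂ) ^ Fintype.card ι) else 0 := by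
  have h1 : ∀ φ : ι → ZMod M, chr φ x = ∏ p, (ZMod.stdAddChar (φ p * x p) : ℂ) := by
    intro φ
    unfold chr
    have h2 : ∀ s : Finset ι, (ZMod.stdAddChar (∑ p ∈ s, φ p * x p) : ℂ) =
        ∏ p ∈ s, (ZMod.stdAddChar (φ p * x p) : ℂ) := by
      intro s
      induction s using Finset.induction_on with
      | empty => rw [Finset.sum_empty, Finset.prod_empty, AddChar.map_zero_eq_one]
      | insert a s ha ih =>
        rw [Finset.sum_insert ha, Finset.prod_insert ha, AddChar.map_add_eq_mul, ih]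
    exact h2 univ
  rw [Finset.sum_congr rfl fun φ _ => h1 φ]
  have h3 := Finset.prod_univ_sum (fun _ : ι => (univ : Finset (ZMod M)))
    (fun p j => (ZMod.stdAddChar (j * x p) : ℂ))
  rw [Fintype.piFinset_univ] at h3
  rw [← h3]
  have h4 : ∀ p, ∑ j : ZMod M, (ZMod.stdAddChar (j * x p) : ℂ) =
      if x p = 0 then (M : ℂ) else 0 := by
    intro p
    rw [AddChar.sum_mulShift (x p) (ZMod.isPrimitive_stdAddChar M), ZMod.card]
    split_ifs <;> simp
  rw [Finset.prod_congr rfl fun p _ => h4 p]
  by_cases hx : x = 0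
  · subst hx
    simp
  · rw [if_neg hx]
    obtain ⟨p, hp⟩ : ∃ p, x p ≠ 0 := by
      by_contra hcon
      push Not at hcon
      exact hx (funext hcon)
    exact Finset.prod_eq_zero (Finset.mem_univ p) (if_neg hp)

/-- Parseval -/
private theorem parseval (h : (ι → ZMod M) → ℂ) :
    ∑ φ : ι → ZMod M, ‖∑ e, h e * chr φ e‖ ^ 2 = (M : ℝ) ^ Fintype.card ι * ∑ e, ‖h e‖ ^ 2 := by
  have hc : ∀ z : ℂ, ((‖z‖ ^ 2 : ℝ) : ℂ) = z * (starRingEnd ℂ) z := by
    intro z
    rw [Complex.mul_conj, Complex.normSq_eq_norm_sq]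
  have key : ((∑ φ : ι → ZMod M, ‖∑ e, h e * chr φ e‖ ^ 2 : ℝ) : ℂ) =
      (((M : ℝ) ^ Fintype.card ι * ∑ e, ‖h e‖ ^ 2 : ℝ) : ℂ) := by
    rw [Complex.ofReal_sum, Complex.ofReal_mul, Complex.ofReal_sum]
    have h1 : ∀ φ : ι → ZMod M, ((‖∑ e, h e * chr φ e‖ ^ 2 : ℝ) : ℂ) =
        ∑ e, ∑ e', h e * (starRingEnd ℂ) (h e') * chr φ (e - e') := by
      intro φ
      rw [hc, map_sum, Finset.sum_mul_sum]
      refine Finset.sum_congr rfl fun e _ => Finset.sum_congr rfl fun e' _ => ?_
      rw [map_mul, conj_chr, sub_eq_add_neg, chr_add]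
      ring
    rw [Finset.sum_congr rfl fun φ _ => h1 φ, Finset.sum_comm]
    rw [Finset.mul_sum]
    refine Finset.sum_congr rfl fun e _ => ?_
    rw [Finset.sum_comm]
    have h2 : ∀ e', ∑ φ : ι → ZMod M, h e * (starRingEnd ℂ) (h e') * chr φ (e - e') =
        if e' = e then h e * (starRingEnd ℂ) (h e) * (M : ℂ) ^ Fintype.card ι else 0 := by
      intro e'
      rw [← Finset.mul_sum, sum_chr]
      by_cases he : e' = e
      · subst he
        rw [sub_self, if_pos rfl, if_pos rfl]
      · rw [if_neg he, if_neg (fun h0 => he (sub_eq_zero.1 h0).symm), mul_zero]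
    rw [Finset.sum_congr rfl fun e' _ => h2 e', Finset.sum_ite_eq' univ e, if_pos (Finset.mem_univ e), hc]
    push_cast
    ring
  exact_mod_cast key

/-- the number of vectors with one coordinate in a set -/
private theorem card_coord (p : ι) (A : Finset (ZMod M)) :
    ((univ : Finset (ι → ZMod M)).filter (fun e => e p ∈ A)).card * M = A.card * M ^ Fintype.card ι := by
  have h1 : (univ : Finset (ι → ZMod M)).filter (fun e => e p ∈ A) =
      Fintype.piFinset (fun q => if q = p then A else univ) := by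
    ext e
    rw [Finset.mem_filter, Fintype.mem_piFinset]
    constructor
    · rintro ⟨-, h⟩ q
      by_cases hq : q = p
      · subst hq
        rw [if_pos rfl]
        exact h
      · rw [if_neg hq]
        exact Finset.mem_univ _
    · intro h
      refine ⟨Finset.mem_univ _, ?_⟩
      have := h p
      rwa [if_pos rfl] at this
  rw [h1, Fintype.card_piFinset, ← Finset.mul_prod_erase univ _ (Finset.mem_univ p), if_pos rfl]
  have h2 : ∏ q ∈ univ.erase p, (if q = p then A else (univ : Finset (ZMod M))).card =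
      M ^ (Fintype.card ι - 1) := by
    rw [Finset.prod_congr rfl fun q hq => by rw [if_neg (Finset.ne_of_mem_erase hq)],
      Finset.prod_const, Finset.card_univ, ZMod.card, Finset.card_erase_of_mem (Finset.mem_univ p),
      Finset.card_univ]
  rw [h2, mul_assoc, ← pow_succ]
  congr 2
  have : 0 < Fintype.card ι := Fintype.card_pos_iff.2 ⟨p⟩
  omega

end chars

/-- the number with exponent vector `e` -/
private noncomputable def dd (y : ℕ) {M : ℕ} (e : Fin (y + 1) → ZMod M) : ℕ :=
  ∏ p : Fin (y + 1), if (p : ℕ).Prime then (p : ℕ) ^ (e p).val else 1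

private theorem dd_pos (y : ℕ) {M : ℕ} (e : Fin (y + 1) → ZMod M) : 1 ≤ dd y e := by
  unfold dd
  refine Nat.one_le_iff_ne_zero.2 (Finset.prod_ne_zero_iff.2 fun p _ => ?_)
  split_ifs with h
  · exact pow_ne_zero _ h.ne_zero
  · exact one_ne_zero

private theorem smooth_prod (y s : ℕ) (hs : Sm y s) :
    (∏ p : Fin (y + 1), if (p : ℕ).Prime then (p : ℕ) ^ s.factorization p else 1) = s := by
  rw [Fin.prod_univ_eq_prod_range (fun p => if p.Prime then p ^ s.factorization p else 1) (y + 1)]
  conv_rhs => rw [← Nat.prod_factorization_pow_eq_self hs.1]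
  unfold Finsupp.prod
  symm
  rw [Nat.support_factorization]
  rw [← Finset.prod_subset (s₁ := s.primeFactors) (s₂ := range (y + 1))]
  · refine Finset.prod_congr rfl fun p hp => ?_
    rw [Nat.mem_primeFactors] at hp
    rw [if_pos hp.1]
  · intro p hp
    rw [Nat.mem_primeFactors] at hp
    rw [Finset.mem_range]
    have := hs.2 p hp.1 hp.2.1
    omega
  · intro p _ hp
    split_ifs with h
    · have : s.factorization p = 0 := by
        rw [← Nat.support_factorization, Finsupp.notMem_support_iff] at hp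
        exact hp
      rw [this, pow_zero]
    · rfl

/-- the exponent vector -/
private noncomputable def vv (y M s : ℕ) : Fin (y + 1) → ZMod M := fun p => (s.factorization p : ZMod M)

private theorem dd_add (y E : ℕ) {M : ℕ} (e : Fin (y + 1) → ZMod M) (s : ℕ)
    (hs : Sm y s) (hE : ∀ p : ℕ, s.factorization p ≤ E) (he : ∀ p, (e p).val + E < M) :
    dd y (e + vv y M s) = dd y e * s := by
  have h1 : ∀ p : Fin (y + 1), ((e + vv y M s) p).val = (e p).val + s.factorization p := by
    intro p
    have h2 := he p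
    have h3 := hE p
    have h4 : (vv y M s p).val = s.factorization p := by
      unfold vv
      exact ZMod.val_natCast_of_lt (by omega)
    rw [Pi.add_apply, ZMod.val_add_of_lt (by rw [h4]; omega), h4]
  conv_rhs => rw [← smooth_prod y s hs]
  unfold dd
  rw [← Finset.prod_mul_distrib]
  refine Finset.prod_congr rfl fun p _ => ?_
  rw [h1 p]
  split_ifs
  · rw [pow_add]
  · rfl

private theorem chi_eq (y M : ℕ) [NeZero M] (φ : Fin (y + 1) → ZMod M) (n : ℕ) :
    chi y M (fun p => ⟨(φ p).val, ZMod.val_lt (φ p)⟩) n = chr φ (vv y M n) := by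
  unfold chi chr
  have h1 : ∑ p, φ p * vv y M n p =
      (((∑ p : Fin (y + 1), (φ p).val * n.factorization (p : ℕ) : ℕ) : ℤ) : ZMod M) := by
    push_cast
    refine Finset.sum_congr rfl fun p _ => ?_
    rw [ZMod.natCast_zmod_val]
    rfl
  rw [h1, ZMod.stdAddChar_coe]
  push_cast
  rfl

/-- Let `F` be a finite family of `R`-element sets of `y`-smooth numbers with all exponents at
most `E`. If `a` is unimodular and `|∑_{s ∈ T} a (d s)| ≤ B` for all `d ≥ 1` and `T ∈ F`, then
some character `chi y M φ` satisfies `∑_{T ∈ F} |∑_{s ∈ T} chi s|^2 ≤ (B^2 + 1) |F|`, as soon as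
`M ≥ R^2 (y+1) E`. -/
theorem fourier_reduction (y E R M : ℕ) (hR : 1 ≤ R) (hM : R ^ 2 * (y + 1) * E ≤ M) (hM1 : 1 ≤ M)
    (F : Finset (Finset ℕ)) (hcard : ∀ T ∈ F, T.card = R)
    (hsm : ∀ T ∈ F, ∀ s ∈ T, Sm y s ∧ ∀ p : ℕ, s.factorization p ≤ E)
    (a : ℕ → ℂ) (ha : ∀ k, 1 ≤ k → ‖a k‖ = 1) (B : ℝ)
    (hB : ∀ d, 1 ≤ d → ∀ T ∈ F, ‖∑ s ∈ T, a (d * s)‖ ≤ B) :
    ∃ φ : Fin (y + 1) → Fin M, ∑ T ∈ F, ‖∑ s ∈ T, chi y M φ s‖ ^ 2 ≤ (B ^ 2 + 1) * F.card := by
  classical
  have : NeZero M := ⟨by omega⟩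
  set G := Fin (y + 1) → ZMod M with hG
  set N : ℝ := (M : ℝ) ^ (y + 1) with hN
  have hMpos : (0 : ℝ) < M := by exact_mod_cast hM1
  have hNpos : 0 < N := by positivity
  have hcardG : (Fintype.card G : ℝ) = N := by
    have h0 : Fintype.card G = M ^ (y + 1) := by
      have h1 : Fintype.card (Fin (y + 1) → ZMod M) = M ^ (y + 1) := by
        rw [Fintype.card_fun, ZMod.card, Fintype.card_fin]
      exact h1
    rw [h0, hN]
    push_cast
    rfl
  set g : G → ℂ := fun e => a (dd y e) with hg
  have hg1 : ∀ e, ‖g e‖ = 1 := fun e => ha _ (dd_pos y e)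
  -- the average over `e` for one set
  have hone : ∀ T ∈ F, ∑ e : G, ‖∑ s ∈ T, g (e + vv y M s)‖ ^ 2 ≤ N * (B ^ 2 + 1) := by
    intro T hT
    set bad : Finset G := univ.filter (fun e => ∃ p, M ≤ (e p).val + E) with hbad
    -- the number of bad vectors
    have hbadcard : (bad.card : ℝ) * (R : ℝ) ^ 2 ≤ N := by
      have h1 : bad ⊆ univ.biUnion (fun p : Fin (y + 1) =>
          (univ : Finset G).filter (fun e => e p ∈ (univ : Finset (ZMod M)).filter
            (fun x => M ≤ x.val + E))) := by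
        intro e he
        rw [hbad, Finset.mem_filter] at he
        obtain ⟨p, hp⟩ := he.2
        rw [Finset.mem_biUnion]
        refine ⟨p, Finset.mem_univ _, ?_⟩
        rw [Finset.mem_filter]
        refine ⟨Finset.mem_univ _, ?_⟩
        rw [Finset.mem_filter]
        exact ⟨Finset.mem_univ _, hp⟩
      have h2 : ((univ : Finset (ZMod M)).filter (fun x => M ≤ x.val + E)).card ≤ E := by
        have h3 : ((univ : Finset (ZMod M)).filter (fun x => M ≤ x.val + E)).card ≤
            (Finset.Ico (M - E) M).card := by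
          refine Finset.card_le_card_of_injOn (fun x => x.val) ?_ ?_
          · intro x hx
            rw [Finset.mem_coe, Finset.mem_filter] at hx
            have := ZMod.val_lt x
            rw [Finset.mem_coe, Finset.mem_Ico]
            simp only
            omega
          · intro x _ x' _ h
            exact ZMod.val_injective M h
        rw [Nat.card_Ico] at h3
        omega
      have h4 : bad.card * M ≤ (y + 1) * (E * M ^ (y + 1)) := by
        have h5 := (Finset.card_le_card h1).trans Finset.card_biUnion_le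
        calc bad.card * M ≤ (∑ p : Fin (y + 1), ((univ : Finset G).filter (fun e => e p ∈
              (univ : Finset (ZMod M)).filter (fun x => M ≤ x.val + E))).card) * M :=
              Nat.mul_le_mul_right M h5
          _ = ∑ p : Fin (y + 1), ((univ : Finset G).filter (fun e => e p ∈
              (univ : Finset (ZMod M)).filter (fun x => M ≤ x.val + E))).card * M :=
              Finset.sum_mul _ _ _
          _ ≤ ∑ _p : Fin (y + 1), E * M ^ (y + 1) := by
              refine Finset.sum_le_sum fun p _ => ?_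
              rw [card_coord p, Fintype.card_fin]
              exact Nat.mul_le_mul_right _ h2
          _ = (y + 1) * (E * M ^ (y + 1)) := by
              rw [Finset.sum_const, Finset.card_univ, Fintype.card_fin, smul_eq_mul]
      have h6 : (bad.card * R ^ 2) * M ≤ M ^ (y + 1) * M := by
        calc (bad.card * R ^ 2) * M = R ^ 2 * (bad.card * M) := by ring
          _ ≤ R ^ 2 * ((y + 1) * (E * M ^ (y + 1))) := Nat.mul_le_mul_left _ h4
          _ = M ^ (y + 1) * (R ^ 2 * (y + 1) * E) := by ring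
          _ ≤ M ^ (y + 1) * M := Nat.mul_le_mul_left _ hM
      have h7 := Nat.le_of_mul_le_mul_right h6 (by omega)
      rw [hN]
      exact_mod_cast h7
    have hterm : ∀ e : G, ‖∑ s ∈ T, g (e + vv y M s)‖ ^ 2 ≤
        B ^ 2 + if e ∈ bad then (R : ℝ) ^ 2 else 0 := by
      intro e
      by_cases he : e ∈ bad
      · rw [if_pos he]
        have h1 : ‖∑ s ∈ T, g (e + vv y M s)‖ ≤ R := by
          refine (norm_sum_le _ _).trans (le_of_eq ?_)
          rw [Finset.sum_congr rfl fun s _ => hg1 _, Finset.sum_const, hcard T hT, nsmul_eq_mul, mul_one]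
        have h2 := pow_le_pow_left₀ (norm_nonneg _) h1 2
        have h3 := sq_nonneg B
        linarith
      · rw [if_neg he, add_zero]
        have h0 : ∀ p, (e p).val + E < M := by
          intro p
          by_contra hcon
          apply he
          rw [hbad, Finset.mem_filter]
          exact ⟨Finset.mem_univ _, p, by omega⟩
        have h1 : ∑ s ∈ T, g (e + vv y M s) = ∑ s ∈ T, a (dd y e * s) := by
          refine Finset.sum_congr rfl fun s hs => ?_
          obtain ⟨h2, h3⟩ := hsm T hT s hs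
          rw [hg]
          simp only
          rw [dd_add y E e s h2 h3 h0]
        rw [h1]
        exact pow_le_pow_left₀ (norm_nonneg _) (hB _ (dd_pos y e) T hT) 2
    calc ∑ e : G, ‖∑ s ∈ T, g (e + vv y M s)‖ ^ 2
        ≤ ∑ e : G, (B ^ 2 + if e ∈ bad then (R : ℝ) ^ 2 else 0) :=
          Finset.sum_le_sum fun e _ => hterm e
      _ = N * B ^ 2 + (bad.card : ℝ) * (R : ℝ) ^ 2 := by
          rw [Finset.sum_add_distrib, Finset.sum_const, Finset.card_univ, nsmul_eq_mul, hcardG,
            Finset.sum_ite_mem, Finset.univ_inter, Finset.sum_const, nsmul_eq_mul]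
      _ ≤ N * (B ^ 2 + 1) := by linarith
  -- Fourier coefficients
  set gh : G → ℂ := fun φ => ∑ e : G, g e * chr φ e with hgh
  have hpg : ∑ φ : G, ‖gh φ‖ ^ 2 = N * N := by
    have h1 := parseval (M := M) g
    rw [Fintype.card_fin] at h1
    rw [hgh]
    simp only
    rw [h1, Finset.sum_congr rfl fun e _ => by rw [hg1 e, one_pow], Finset.sum_const,
      Finset.card_univ, nsmul_eq_mul, mul_one]
    have h2 : (Fintype.card (Fin (y + 1) → ZMod M) : ℝ) = N := hcardG
    rw [h2]
  have hpT : ∀ T ∈ F, ∑ φ : G, ‖gh φ‖ ^ 2 * ‖∑ s ∈ T, chr φ (vv y M s)‖ ^ 2 =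
      N * ∑ e : G, ‖∑ s ∈ T, g (e + vv y M s)‖ ^ 2 := by
    intro T _
    have h1 := parseval (M := M) (fun e : G => ∑ s ∈ T, g (e + vv y M s))
    rw [Fintype.card_fin] at h1
    rw [← h1]
    refine Finset.sum_congr rfl fun φ _ => ?_
    have h2 : ∑ e : G, (∑ s ∈ T, g (e + vv y M s)) * chr φ e =
        gh φ * (starRingEnd ℂ) (∑ s ∈ T, chr φ (vv y M s)) := by
      rw [map_sum, Finset.mul_sum]
      rw [Finset.sum_congr rfl fun e _ => Finset.sum_mul _ _ _, Finset.sum_comm]
      refine Finset.sum_congr rfl fun s _ => ?_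
      rw [conj_chr, hgh]
      simp only
      rw [Finset.sum_mul]
      rw [← Equiv.sum_comp (Equiv.addRight (vv y M s)) (fun e => g e * chr φ e * chr φ (-vv y M s))]
      refine Finset.sum_congr rfl fun e _ => ?_
      rw [Equiv.coe_addRight, mul_assoc, ← chr_add, add_neg_cancel_right]
    rw [h2, norm_mul, Complex.norm_conj, mul_pow]
  -- conclusion
  by_contra hcon
  push Not at hcon
  set X : G → ℝ := fun φ => ∑ T ∈ F, ‖∑ s ∈ T, chr φ (vv y M s)‖ ^ 2 with hX
  have hXgt : ∀ φ : G, (B ^ 2 + 1) * F.card < X φ := by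
    intro φ
    have h1 := hcon (fun p => ⟨(φ p).val, ZMod.val_lt (φ p)⟩)
    rw [hX]
    simp only
    simp only [chi_eq] at h1
    exact h1
  have hsumX : ∑ φ : G, ‖gh φ‖ ^ 2 * X φ ≤ N * N * ((B ^ 2 + 1) * F.card) := by
    rw [hX]
    simp only [Finset.mul_sum]
    rw [Finset.sum_comm]
    calc ∑ T ∈ F, ∑ φ : G, ‖gh φ‖ ^ 2 * ‖∑ s ∈ T, chr φ (vv y M s)‖ ^ 2
        = ∑ T ∈ F, N * ∑ e : G, ‖∑ s ∈ T, g (e + vv y M s)‖ ^ 2 :=
          Finset.sum_congr rfl hpT
      _ ≤ ∑ T ∈ F, N * (N * (B ^ 2 + 1)) :=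
          Finset.sum_le_sum fun T hT => mul_le_mul_of_nonneg_left (hone T hT) hNpos.le
      _ = N * N * ((B ^ 2 + 1) * F.card) := by
          rw [Finset.sum_const, nsmul_eq_mul]
          ring
  have hlt : ∑ φ : G, ‖gh φ‖ ^ 2 * ((B ^ 2 + 1) * F.card) < ∑ φ : G, ‖gh φ‖ ^ 2 * X φ := by
    refine Finset.sum_lt_sum (fun φ _ => mul_le_mul_of_nonneg_left (hXgt φ).le (sq_nonneg _)) ?_
    have h1 : ∃ φ : G, gh φ ≠ 0 := by
      by_contra h2
      push Not at h2
      rw [Finset.sum_congr rfl fun φ _ => by rw [h2 φ, norm_zero, zero_pow two_ne_zero],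
        Finset.sum_const_zero] at hpg
      have : 0 < N * N := by positivity
      linarith
    obtain ⟨φ, hφ⟩ := h1
    refine ⟨φ, Finset.mem_univ _, mul_lt_mul_of_pos_left (hXgt φ) ?_⟩
    have : 0 < ‖gh φ‖ := norm_pos_iff.2 hφ
    positivity
  rw [← Finset.sum_mul, hpg] at hlt
  linarith

end Pool.Agent.H87D
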