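import Pool.Agent.H87D.Defs

/-!
Selection of regular scales.

PROOF PLAN.  WLOG `lam >= 0` (replace by `max lam 0`; `Lf >= 0`).  Take a large `k0` with
`exp (lam L(k0)) < k0 ρ(k0)` and let `X <= k0` maximize `k^2 ρ k` over `1 <= k <= k0`.  Then
`X ρ X >= k0^2 ρ(k0)/X >= k0 ρ(k0) > exp (lam L(k0)) >= exp (lam L(X))`, `X^2 >= X^2 ρ X >= k0^2 ρ(k0)
>= k0`, so `X` is large, and `(X/2)^2 ρ (X/2) <= X^2 ρ X` gives `ρ (X/2) <= 5 ρ X` (`X >= 10`).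
-/

namespace Pool.Agent.H87D

open Filter

theorem ScaleSel_mono {k l : ℕ} (hk : 1 ≤ k) (hkl : k ≤ l) : Lf k ≤ Lf l := by
  unfold Lf
  have hk0 : (0 : ℝ) < k := by exact_mod_cast hk
  have hkl' : (k : ℝ) ≤ l := by exact_mod_cast hkl
  have hlog : Real.log k ≤ Real.log l := Real.log_le_log hk0 hkl'
  have hlk0 : 0 ≤ Real.log k := Real.log_natCast_nonneg k
  by_cases h : Real.log k ≤ 1
  · have h1 : Real.log k * Real.log (Real.log k) ≤ 0 :=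
      mul_nonpos_of_nonneg_of_nonpos hlk0 (Real.log_nonpos hlk0 h)
    rw [Real.sqrt_eq_zero_of_nonpos h1]
    exact Real.sqrt_nonneg _
  · have h' : 1 < Real.log k := not_le.mp h
    refine Real.sqrt_le_sqrt ?_
    exact mul_le_mul hlog (Real.log_le_log (by linarith) hlog) (Real.log_nonneg h'.le)
      (by linarith)

theorem scale_selection (ρ : ℕ → ℝ) (hρ : Dens ρ)
    (hinf : ∀ lam : ℝ, ∃ᶠ k : ℕ in atTop, Real.exp (lam * Lf k) < k * ρ k) :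
    ∀ (lam : ℝ) (X0 : ℕ), ∃ X : ℕ, X0 ≤ X ∧ ρ (X / 2) ≤ 5 * ρ X ∧
      Real.exp (lam * Lf X) ≤ X * ρ X := by
  intro lam X0
  set B := max X0 20 with hB
  obtain ⟨k0, hk0B, hk0⟩ := (frequently_atTop.mp (hinf (max lam 0))) (B * B + 1)
  have hB20 : 20 ≤ B := le_max_right _ _
  have hk01 : 1 ≤ k0 := by nlinarith
  obtain ⟨X, hXm, hXmax⟩ := (Finset.Icc 1 k0).exists_max_image (fun k : ℕ => (k : ℝ) ^ 2 * ρ k)
    ⟨1, Finset.mem_Icc.mpr ⟨le_rfl, hk01⟩⟩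
  rw [Finset.mem_Icc] at hXm
  have hX1 : (1 : ℝ) ≤ X := by exact_mod_cast hXm.1
  have hk0R : (1 : ℝ) ≤ k0 := by exact_mod_cast hk01
  have hXk : (X : ℝ) ≤ k0 := by exact_mod_cast hXm.2
  have hρX0 := hρ.nonneg X hXm.1
  have hρX1 := hρ.le_one X hXm.1
  have hLk : 0 ≤ Lf k0 := Real.sqrt_nonneg _
  have hLX : 0 ≤ Lf X := Real.sqrt_nonneg _
  have hmaxk := hXmax k0 (Finset.mem_Icc.mpr ⟨hk01, le_rfl⟩)
  have hmaxk : (k0 : ℝ) ^ 2 * ρ k0 ≤ (X : ℝ) ^ 2 * ρ X := hmaxk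
  have hE1 : 1 ≤ Real.exp (max lam 0 * Lf k0) :=
    Real.one_le_exp (mul_nonneg (le_max_right _ _) hLk)
  have hk0ρ : 1 < k0 * ρ k0 := lt_of_le_of_lt hE1 hk0
  -- X is large
  have hX2 : (k0 : ℝ) < (X : ℝ) ^ 2 := by
    have h1 : (k0 : ℝ) < (k0 : ℝ) ^ 2 * ρ k0 := by nlinarith
    have h2 : (X : ℝ) ^ 2 * ρ X ≤ (X : ℝ) ^ 2 := by nlinarith [sq_nonneg (X : ℝ)]
    linarith
  have hXB : B < X := by
    by_contra hcon
    have h1 : (X : ℝ) ≤ B := by exact_mod_cast not_lt.mp hcon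
    have h2 : ((B * B + 1 : ℕ) : ℝ) ≤ k0 := by exact_mod_cast hk0B
    push_cast at h2
    nlinarith
  refine ⟨X, ?_, ?_, ?_⟩
  · have : X0 ≤ B := le_max_left _ _
    omega
  · have hXh : 1 ≤ X / 2 := by omega
    have h1 := hXmax (X / 2) (Finset.mem_Icc.mpr ⟨hXh, by omega⟩)
    have h1 : ((X / 2 : ℕ) : ℝ) ^ 2 * ρ (X / 2) ≤ (X : ℝ) ^ 2 * ρ X := h1
    have h2 : ((X : ℝ) - 1) / 2 ≤ ((X / 2 : ℕ) : ℝ) := by
      have : X ≤ 2 * (X / 2) + 1 := by omega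
      have : (X : ℝ) ≤ 2 * ((X / 2 : ℕ) : ℝ) + 1 := by exact_mod_cast this
      linarith
    have hX20 : (20 : ℝ) < X := by
      have : 20 < X := by omega
      exact_mod_cast this
    have h3 : (X : ℝ) ^ 2 ≤ 5 * ((X / 2 : ℕ) : ℝ) ^ 2 := by nlinarith
    have h4 := hρ.nonneg (X / 2) hXh
    have h5 : (0 : ℝ) < ((X / 2 : ℕ) : ℝ) ^ 2 := by
      have : (0 : ℝ) < ((X / 2 : ℕ) : ℝ) := by exact_mod_cast hXh
      positivity
    have h6 : ((X / 2 : ℕ) : ℝ) ^ 2 * ρ (X / 2) ≤ ((X / 2 : ℕ) : ℝ) ^ 2 * (5 * ρ X) := by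
      nlinarith
    exact le_of_mul_le_mul_left h6 h5
  · have h1 : Real.exp (lam * Lf X) ≤ Real.exp (max lam 0 * Lf k0) := by
      refine Real.exp_le_exp.mpr ?_
      have := ScaleSel_mono hXm.1 hXm.2
      calc lam * Lf X ≤ max lam 0 * Lf X := mul_le_mul_of_nonneg_right (le_max_left _ _) hLX
        _ ≤ max lam 0 * Lf k0 := mul_le_mul_of_nonneg_left this (le_max_right _ _)
    have h2 : (k0 : ℝ) * ρ k0 ≤ X * ρ X := by
      have h3 : (X : ℝ) * (k0 * ρ k0) ≤ X * (X * ρ X) := by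
        have h4 : (X : ℝ) * (k0 * ρ k0) ≤ k0 * (k0 * ρ k0) :=
          mul_le_mul_of_nonneg_right hXk (by linarith)
        nlinarith
      exact le_of_mul_le_mul_left h3 (by linarith)
    linarith

end Pool.Agent.H87D
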