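import Pool.Agent.H87D.GoodScale
import Pool.Agent.H87D.ScaleSel

/-!
Random sets above the threshold are almost surely good.
-/

namespace Pool.Agent.H87D

open MeasureTheory ProbabilityTheory Filter Finset
open Pool.Agent.H91.Discrepancy

theorem good_main {Ω : Type*} [MeasurableSpace Ω] (P : Measure Ω)
    [IsProbabilityMeasure P] (ρ : ℕ → ℝ) (S : Ω → Set ℕ) (h : IsRandomSet P ρ S) (hρ : Dens ρ)
    (hne : ∃ k, 1 ≤ k ∧ ρ k < 1)
    (hinf : ∀ lam : ℝ, ∃ᶠ k : ℕ in atTop, Real.exp (lam * Lf k) < k * ρ k) :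
    ∀ᵐ ω ∂P, IsGoodSet (S ω) := by
  obtain ⟨k1, hk1, hk1'⟩ := hne
  have hη0 : 0 < 1 - ρ k1 := by linarith
  have hη1 : 1 - ρ k1 ≤ 1 := by have := hρ.nonneg k1 hk1; linarith
  have key : ∀ C : ℕ, ∀ᵐ ω ∂P,
      ¬ ∃ a : ℕ → ℂ, (∀ k, 1 ≤ k → ‖a k‖ = 1) ∧ DiscLe (S ω) a C := by
    intro C
    obtain ⟨lam, X0, hX⟩ := good_scale (C : ℝ) (Nat.cast_nonneg C) (1 - ρ k1) hη0 hη1
    have hle : ∀ n : ℕ, 1 ≤ n →
        P {ω | ∃ a : ℕ → ℂ, (∀ k, 1 ≤ k → ‖a k‖ = 1) ∧ DiscLe (S ω) a C} ≤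
          ENNReal.ofReal (1 / n) := by
      intro n hn
      obtain ⟨X, hX0, hreg, hexp⟩ :=
        scale_selection ρ hρ hinf lam (max X0 (max (2 * k1) n))
      have h1 : X0 ≤ X := le_trans (le_max_left _ _) hX0
      have h2 : 2 * k1 ≤ X := le_trans (le_trans (le_max_left _ _) (le_max_right _ _)) hX0
      have h3 : n ≤ X := le_trans (le_trans (le_max_right _ _) (le_max_right _ _)) hX0
      have h4 : ρ (X / 2) ≤ 1 - (1 - ρ k1) := by
        have := hρ.anti k1 (X / 2) hk1 (by omega)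
        linarith
      refine (hX P ρ S h hρ X h1 h4 hreg hexp).trans (ENNReal.ofReal_le_ofReal ?_)
      have hn0 : (0 : ℝ) < n := by exact_mod_cast hn
      exact one_div_le_one_div_of_le hn0 (by exact_mod_cast h3)
    rw [ae_iff]
    simp only [not_not]
    refine le_antisymm ?_ bot_le
    refine ge_of_tendsto' (x := atTop) (f := fun n : ℕ => ENNReal.ofReal (1 / ((n : ℝ) + 1))) ?_ ?_
    · have : Tendsto (fun n : ℕ => 1 / ((n : ℝ) + 1)) atTop (nhds 0) :=
        tendsto_one_div_add_atTop_nhds_zero_nat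
      have h0 := ENNReal.tendsto_ofReal this
      rwa [ENNReal.ofReal_zero] at h0
    · intro n
      have := hle (n + 1) (by omega)
      rwa [Nat.cast_add, Nat.cast_one] at this
  filter_upwards [ae_all_iff.mpr key] with ω hω
  intro a ha C
  by_contra hcon
  push Not at hcon
  obtain ⟨N, hN⟩ := exists_nat_ge C
  exact hω N ⟨a, ha, fun d n hd hn => (hcon d n hd hn).trans hN⟩

end Pool.Agent.H87D
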