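import Pool.Agent.H87D.Defs

/-!
Bounds for the pattern weights in a window on which `ρ` is almost constant.

PROOF PLAN.  `x = (1 + ε) r <= 1 - η`, `n = |I|`, `q = r^R (1 - x)^(n - R)`.  For `T ⊆ A`, `|T| = R`:
`r^R <= ∏_T ρ <= x^R` and `(1-x)^(n-R) <= ∏_{I \ T} (1-ρ) <= (1-r)^(n-R)`.  Upper bound:
`(1+ε)^R <= exp (ε R)` and `(1-r)/(1-x) = 1 + ε r/(1-x) <= 1 + ε r / η`, so the quotient is at most
`exp (ε R + ε r n / η) <= exp (ε (R + b/η)) <= exp (1/2) <= 2`.  Lower bound: `1 - x >= exp (-x/η)`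
(from `log (1/(1-x)) <= x/(1-x)`), so `(1-x)^(n-R) >= (1-x)^n >= exp (-(1+ε) r n / η)
>= exp (-2 b / η)` as `ε <= 1`.
-/

namespace Pool.Agent.H87D

open Finset

private theorem QB_exp_half : Real.exp (1 / 2) ≤ 2 := by
  have h1 : Real.exp (1 / 2) * Real.exp (1 / 2) = Real.exp 1 := by
    rw [← Real.exp_add]; norm_num
  have h2 := Real.exp_one_lt_d9
  have h3 := Real.exp_pos (1 / 2 : ℝ)
  nlinarith

theorem q_bounds (ρ : ℕ → ℝ) (I A : Finset ℕ) (hA : A ⊆ I) (R : ℕ) (hR : 1 ≤ R)
    (η r ε b : ℝ) (hη0 : 0 < η) (hη1 : η ≤ 1) (hr : 0 < r) (hε0 : 0 ≤ ε)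
    (hlow : ∀ k ∈ I, r ≤ ρ k) (hup : ∀ k ∈ I, ρ k ≤ (1 + ε) * r) (h1 : (1 + ε) * r ≤ 1 - η)
    (hb : r * I.card ≤ b) (hε : ε * (R + b / η) ≤ 1 / 2) :
    ∃ q : ℝ, r ^ R * Real.exp (-(2 * b / η)) ≤ q ∧
      ∀ T : Finset ℕ, T ⊆ A → T.card = R → q ≤ wt ρ I T ∧ wt ρ I T ≤ 2 * q := by
  set x : ℝ := (1 + ε) * r with hx
  set n : ℕ := I.card with hn
  have hn0 : (0 : ℝ) ≤ n := Nat.cast_nonneg n
  have hb0 : 0 ≤ b := le_trans (by positivity) hb
  have hR1 : (1 : ℝ) ≤ R := by exact_mod_cast hR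
  have hbη : 0 ≤ b / η := by positivity
  have hε1 : ε ≤ 1 := by nlinarith
  have hx0 : 0 ≤ x := by positivity
  have hxη : η ≤ 1 - x := by linarith
  have hx1 : 0 < 1 - x := by linarith
  have hx1' : 1 - x ≤ 1 := by linarith
  have hrx : r ≤ x := by rw [hx]; nlinarith
  -- 1 - x ≥ exp (-x/η)
  have hlx : Real.exp (-(x / η)) ≤ 1 - x := by
    have h2 : 1 / (1 - x) ≤ Real.exp (x / η) := by
      have h3 : 1 / (1 - x) = x / (1 - x) + 1 := by field_simp; ring
      have h4 : x / (1 - x) ≤ x / η := div_le_div_of_nonneg_left hx0 hη0 hxη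
      rw [h3]
      calc x / (1 - x) + 1 ≤ x / η + 1 := by linarith
        _ ≤ Real.exp (x / η) := Real.add_one_le_exp _
    rw [Real.exp_neg, inv_le_comm₀ (Real.exp_pos _) hx1]
    rw [one_div] at h2
    exact h2
  refine ⟨r ^ R * (1 - x) ^ (n - R), ?_, ?_⟩
  · apply mul_le_mul_of_nonneg_left _ (by positivity)
    calc Real.exp (-(2 * b / η)) ≤ Real.exp ((n : ℝ) * (-(x / η))) := by
          apply Real.exp_le_exp.2
          have h5 : (n : ℝ) * x ≤ 2 * b := by
            rw [hx]
            have : r * (n : ℝ) * (1 + ε) ≤ b * (1 + ε) :=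
              mul_le_mul_of_nonneg_right hb (by linarith)
            nlinarith
          have h6 : (n : ℝ) * (-(x / η)) = -(n * x / η) := by ring
          rw [h6]
          exact neg_le_neg (div_le_div_of_nonneg_right h5 hη0.le)
      _ = Real.exp (-(x / η)) ^ n := by rw [← Real.exp_nat_mul]
      _ ≤ (1 - x) ^ n := pow_le_pow_left₀ (Real.exp_pos _).le hlx n
      _ ≤ (1 - x) ^ (n - R) := pow_le_pow_of_le_one hx1.le hx1' (Nat.sub_le n R)
  · intro T hTA hTc
    have hTI : T ⊆ I := hTA.trans hA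
    have hcard : (I \ T).card = n - R := by
      rw [Finset.card_sdiff_of_subset hTI, hTc]
    have hIT : ∀ k ∈ I \ T, k ∈ I := fun k hk => (Finset.mem_sdiff.1 hk).1
    have l1 : r ^ R ≤ ∏ k ∈ T, ρ k := by
      rw [← hTc, ← Finset.prod_const]
      exact Finset.prod_le_prod (fun k _ => hr.le) (fun k hk => hlow k (hTI hk))
    have l2 : (1 - x) ^ (n - R) ≤ ∏ k ∈ I \ T, (1 - ρ k) := by
      rw [← hcard, ← Finset.prod_const]
      exact Finset.prod_le_prod (fun k _ => hx1.le)
        (fun k hk => by have := hup k (hIT k hk); linarith)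
    have u1 : ∏ k ∈ T, ρ k ≤ x ^ R := by
      rw [← hTc, ← Finset.prod_const]
      exact Finset.prod_le_prod (fun k hk => hr.le.trans (hlow k (hTI hk)))
        (fun k hk => hup k (hTI hk))
    have u2 : ∏ k ∈ I \ T, (1 - ρ k) ≤ (1 - r) ^ (n - R) := by
      rw [← hcard, ← Finset.prod_const]
      exact Finset.prod_le_prod
        (fun k hk => by have := hup k (hIT k hk); linarith)
        (fun k hk => by have := hlow k (hIT k hk); linarith)
    have hp1 : 0 ≤ ∏ k ∈ T, ρ k := le_trans (by positivity) l1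
    have hp2 : 0 ≤ ∏ k ∈ I \ T, (1 - ρ k) := le_trans (by positivity) l2
    constructor
    · exact mul_le_mul l1 l2 (by positivity) hp1
    · have e1 : x ^ R ≤ Real.exp (ε * R) * r ^ R := by
        rw [hx, mul_pow]
        apply mul_le_mul_of_nonneg_right _ (by positivity)
        calc (1 + ε) ^ R ≤ Real.exp ε ^ R :=
              pow_le_pow_left₀ (by linarith) (by linarith [Real.add_one_le_exp ε]) R
          _ = Real.exp (ε * R) := by rw [← Real.exp_nat_mul]; congr 1; ring
      have e2 : 1 - r ≤ Real.exp (ε * r / η) * (1 - x) := by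
        have h7 : ε * r / (1 - x) ≤ ε * r / η :=
          div_le_div_of_nonneg_left (by positivity) hη0 hxη
        have h8 : 1 - r = (1 - x) * (ε * r / (1 - x) + 1) := by
          field_simp
          rw [hx]; ring
        rw [h8, mul_comm (Real.exp _)]
        apply mul_le_mul_of_nonneg_left _ hx1.le
        calc ε * r / (1 - x) + 1 ≤ ε * r / η + 1 := by linarith
          _ ≤ Real.exp (ε * r / η) := Real.add_one_le_exp _
      have e3 : (1 - r) ^ (n - R) ≤ Real.exp (ε * (b / η)) * (1 - x) ^ (n - R) := by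
        calc (1 - r) ^ (n - R) ≤ (Real.exp (ε * r / η) * (1 - x)) ^ (n - R) :=
              pow_le_pow_left₀ (by linarith) e2 _
          _ = Real.exp (ε * r / η) ^ (n - R) * (1 - x) ^ (n - R) := mul_pow _ _ _
          _ ≤ Real.exp (ε * (b / η)) * (1 - x) ^ (n - R) := by
              apply mul_le_mul_of_nonneg_right _ (by positivity)
              rw [← Real.exp_nat_mul]
              apply Real.exp_le_exp.2
              have h9 : ((n - R : ℕ) : ℝ) ≤ n := by exact_mod_cast Nat.sub_le n R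
              calc ((n - R : ℕ) : ℝ) * (ε * r / η) ≤ (n : ℝ) * (ε * r / η) :=
                    mul_le_mul_of_nonneg_right h9 (by positivity)
                _ = ε * (r * n / η) := by ring
                _ ≤ ε * (b / η) :=
                    mul_le_mul_of_nonneg_left (div_le_div_of_nonneg_right hb hη0.le) hε0
      calc wt ρ I T ≤ x ^ R * (1 - r) ^ (n - R) :=
            mul_le_mul u1 u2 hp2 (by positivity)
        _ ≤ (Real.exp (ε * R) * r ^ R) * (Real.exp (ε * (b / η)) * (1 - x) ^ (n - R)) := by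
            apply mul_le_mul e1 e3 _ (by positivity)
            apply pow_nonneg
            linarith
        _ = Real.exp (ε * (R + b / η)) * (r ^ R * (1 - x) ^ (n - R)) := by
            rw [mul_add, Real.exp_add]; ring
        _ ≤ 2 * (r ^ R * (1 - x) ^ (n - R)) := by
            apply mul_le_mul_of_nonneg_right _ (by positivity)
            exact (Real.exp_le_exp.2 hε).trans QB_exp_half

end Pool.Agent.H87D
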