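import Pool.Agent.H87D.Defs

/-!
A lower bound for the number of `y`-smooth integers in `(X/2, X]` for small `y`.

PROOF PLAN.  Let `Q` be the set of odd primes `<= y`, `|Q| = π(y) - 1 =: n >= 1`.  The number of multisets
of size `m` from `Q` is `choose (n + m - 1) m >= (n/m)^m` (`Sym.card_sym_eq_choose` or
`Multiset`/`Finset.card_sym`).  For each multiset the product `P <= y^m <= X` is odd, and there is
exactly one `i` with `2^i P ∈ (X/2, X]`; the map multiset ↦ `2^i P` is injective (odd part and unique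
factorization) and its values are `y`-smooth.
-/

namespace Pool.Agent.H87D

open Finset

/-- the odd primes up to `y` -/
def SmoothSparse_Q (y : ℕ) : Finset ℕ := ((range (y + 1)).filter Nat.Prime).erase 2

theorem SmoothSparse_card (y : ℕ) (hy : 3 ≤ y) :
    (SmoothSparse_Q y).card = Nat.primeCounting y - 1 := by
  have h1 : 2 ∈ (range (y + 1)).filter Nat.Prime := by
    rw [mem_filter, mem_range]
    exact ⟨by omega, Nat.prime_two⟩
  unfold SmoothSparse_Q
  rw [card_erase_of_mem h1]
  have h2 : Nat.primeCounting y = ((range (y + 1)).filter Nat.Prime).card := by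
    unfold Nat.primeCounting Nat.primeCounting'
    rw [Nat.count_eq_card_filter_range]
  rw [h2]

theorem SmoothSparse_pos (y : ℕ) (hy : 3 ≤ y) : 1 ≤ (SmoothSparse_Q y).card := by
  have h : 3 ∈ SmoothSparse_Q y := by
    unfold SmoothSparse_Q
    rw [mem_erase, mem_filter, mem_range]
    exact ⟨by norm_num, by omega, Nat.prime_three⟩
  exact Finset.card_pos.2 ⟨3, h⟩

theorem SmoothSparse_mem {y p : ℕ} (h : p ∈ SmoothSparse_Q y) : p.Prime ∧ p ≤ y ∧ p ≠ 2 := by
  unfold SmoothSparse_Q at h
  rw [mem_erase, mem_filter, mem_range] at h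
  exact ⟨h.2.2, by omega, h.1⟩

/-- unique factorization: the odd part of a product of primes -/
theorem SmoothSparse_unique (M N : Multiset ℕ) (i j : ℕ) (hM : ∀ p ∈ M, p.Prime ∧ p ≠ 2)
    (hN : ∀ p ∈ N, p.Prime ∧ p ≠ 2) (h : 2 ^ i * M.prod = 2 ^ j * N.prod) : M = N := by
  have h1 : (Multiset.replicate i 2 + M).prod = (Multiset.replicate j 2 + N).prod := by
    rw [Multiset.prod_add, Multiset.prod_add, Multiset.prod_replicate, Multiset.prod_replicate]
    exact h
  have hf : ∀ x ∈ Multiset.replicate i 2 + M, Irreducible x := by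
    intro x hx
    rw [Multiset.mem_add] at hx
    rcases hx with hx | hx
    · rw [Multiset.eq_of_mem_replicate hx]
      exact Nat.prime_two
    · exact (hM x hx).1
  have hg : ∀ x ∈ Multiset.replicate j 2 + N, Irreducible x := by
    intro x hx
    rw [Multiset.mem_add] at hx
    rcases hx with hx | hx
    · rw [Multiset.eq_of_mem_replicate hx]
      exact Nat.prime_two
    · exact (hN x hx).1
  have h2 := UniqueFactorizationMonoid.factors_unique hf hg (Associated.of_eq h1)
  have h3 : Multiset.replicate i 2 + M = Multiset.replicate j 2 + N := by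
    have h4 : Multiset.Rel (fun a b : ℕ => a = b) (Multiset.replicate i 2 + M)
        (Multiset.replicate j 2 + N) := by
      refine h2.mono ?_
      intro a _ b _ hab
      exact associated_iff_eq.1 hab
    exact Multiset.rel_eq.1 h4
  have h5 := congrArg (Multiset.filter (fun p => p ≠ 2)) h3
  rw [Multiset.filter_add, Multiset.filter_add] at h5
  have h6 : ∀ k : ℕ, Multiset.filter (fun p => p ≠ 2) (Multiset.replicate k 2) = 0 := by
    intro k
    rw [Multiset.filter_eq_nil]
    intro a ha hne
    exact hne (Multiset.eq_of_mem_replicate ha)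
  rw [h6, h6, zero_add, zero_add, Multiset.filter_eq_self.2 (fun a ha => (hM a ha).2),
    Multiset.filter_eq_self.2 (fun a ha => (hN a ha).2)] at h5
  exact h5

/-- Products of `m` odd primes `≤ y` times a power of `2` lie in `(X/2, X]`; they are distinct for
distinct multisets of primes. -/
theorem smooth_sparse (y m X : ℕ) (hm : 1 ≤ m) (hy : 3 ≤ y) (hX : y ^ m ≤ X) :
    (((Nat.primeCounting y : ℝ) - 1) / m) ^ m ≤ ((flt (Sm y) (Ioc (X / 2) X)).card : ℝ) := by
  classical
  have hn := SmoothSparse_pos y hy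
  have hc := SmoothSparse_card y hy
  set n := (SmoothSparse_Q y).card with hndef
  have hpc : (Nat.primeCounting y : ℝ) - 1 = (n : ℝ) := by
    have : Nat.primeCounting y = n + 1 := by omega
    rw [this]
    push_cast
    ring
  rw [hpc]
  -- the map
  let ms : Sym (SmoothSparse_Q y) m → Multiset ℕ := fun s => s.1.map Subtype.val
  have hms : ∀ s, ∀ p ∈ ms s, p.Prime ∧ p ≤ y ∧ p ≠ 2 := by
    intro s p hp
    obtain ⟨q, _, hq2⟩ := Multiset.mem_map.1 hp
    rw [← hq2]
    exact SmoothSparse_mem q.2
  have hcard : ∀ s, Multiset.card (ms s) = m := by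
    intro s
    change Multiset.card (s.1.map Subtype.val) = m
    rw [Multiset.card_map]
    exact s.2
  have hP1 : ∀ s, 1 ≤ (ms s).prod := by
    intro s
    rw [Nat.one_le_iff_ne_zero]
    intro h0
    rw [Multiset.prod_eq_zero_iff] at h0
    exact (hms s 0 h0).1.ne_zero rfl
  have hP2 : ∀ s, (ms s).prod ≤ X := by
    intro s
    refine le_trans ?_ hX
    have h1 := Multiset.prod_le_pow_card (ms s) y (fun p hp => (hms s p hp).2.1)
    rw [hcard s] at h1
    exact h1
  let e : Sym (SmoothSparse_Q y) m → ℕ := fun s => Nat.log 2 (X / (ms s).prod)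
  let F : Sym (SmoothSparse_Q y) m → ℕ := fun s => 2 ^ (e s) * (ms s).prod
  have hinj : Function.Injective F := by
    intro s t hst
    have h1 : ms s = ms t :=
      SmoothSparse_unique (ms s) (ms t) (e s) (e t)
        (fun p hp => ⟨(hms s p hp).1, (hms s p hp).2.2⟩)
        (fun p hp => ⟨(hms t p hp).1, (hms t p hp).2.2⟩) hst
    have h2 : s.1 = t.1 := Multiset.map_injective Subtype.val_injective h1
    exact Subtype.ext h2
  have hmem : ∀ s, F s ∈ flt (Sm y) (Ioc (X / 2) X) := by
    intro s
    rw [mem_flt, mem_Ioc]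
    have hq : 1 ≤ X / (ms s).prod := (Nat.one_le_div_iff (hP1 s)).2 (hP2 s)
    have h1 : 2 ^ (e s) ≤ X / (ms s).prod := Nat.pow_log_le_self 2 (by omega)
    have h2 : X / (ms s).prod < 2 ^ (e s + 1) := Nat.lt_pow_succ_log_self (by norm_num) _
    have h3 : 2 ^ (e s) * (ms s).prod ≤ X := (Nat.le_div_iff_mul_le (hP1 s)).1 h1
    have h4 : X < 2 ^ (e s + 1) * (ms s).prod := (Nat.div_lt_iff_lt_mul (hP1 s)).1 h2
    have h5 : X < 2 * F s := by
      change X < 2 * (2 ^ (e s) * (ms s).prod)
      rw [pow_succ] at h4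
      calc X < 2 ^ e s * 2 * (ms s).prod := h4
        _ = 2 * (2 ^ (e s) * (ms s).prod) := by ring
    refine ⟨⟨by omega, h3⟩, ?_, ?_⟩
    · change 2 ^ (e s) * (ms s).prod ≠ 0
      have := hP1 s
      positivity
    · intro p hp hdvd
      rcases (Nat.Prime.dvd_mul hp).1 hdvd with h | h
      · have := (Nat.prime_dvd_prime_iff_eq hp Nat.prime_two).1 (hp.dvd_of_dvd_pow h)
        omega
      · obtain ⟨a, ha, hpa⟩ := (Nat.Prime.prime hp).exists_mem_multiset_dvd h
        have h6 := (Nat.prime_dvd_prime_iff_eq hp (hms s a ha).1).1 hpa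
        rw [h6]
        exact (hms s a ha).2.1
  have hle : Fintype.card (Sym (SmoothSparse_Q y) m) ≤ (flt (Sm y) (Ioc (X / 2) X)).card := by
    rw [← Finset.card_univ]
    exact Finset.card_le_card_of_injOn F (fun s _ => hmem s) (hinj.injOn)
  have hcs : Fintype.card (Sym (SmoothSparse_Q y) m) = (n + m - 1).choose m := by
    rw [Sym.card_sym_eq_choose, Fintype.card_coe]
  rw [hcs] at hle
  have hb : ((n + m - 1 + 1 - m : ℕ) ^ m : ℝ) / (m.factorial : ℝ) ≤ ((n + m - 1).choose m : ℝ) :=
    Nat.pow_le_choose m (n + m - 1)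
  have h7 : n + m - 1 + 1 - m = n := by omega
  rw [h7] at hb
  have h8 : ((n : ℝ) / m) ^ m ≤ (n : ℝ) ^ m / (m.factorial : ℝ) := by
    rw [div_pow]
    refine div_le_div_of_nonneg_left (by positivity) (by positivity) ?_
    exact_mod_cast Nat.factorial_le_pow m
  calc ((n : ℝ) / m) ^ m ≤ (n : ℝ) ^ m / (m.factorial : ℝ) := h8
    _ ≤ ((n + m - 1).choose m : ℝ) := hb
    _ ≤ ((flt (Sm y) (Ioc (X / 2) X)).card : ℝ) := by exact_mod_cast hle

end Pool.Agent.H87D
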