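import Pool.Agent.H87D.Defs

/-!
Summability of `exp (-c L(k)) (log k)^a / k`, and elementary facts about `L`.

PROOF PLAN.  For `k <= 2` `Lf k = 0` (negative argument of the square root).  For large `k`,
`L(k) >= b log log k` for any `b` (as `log k >= b^2 log log k`), so `exp (-c L(k)) (log k)^a <=
(log k)^(-2)`, and `∑ 1/(k (log k)^2)` converges by Cauchy condensation
(`summable_condensed_iff_of_nonneg`/`Real.summable...`, or compare with dyadic blocks).
-/

namespace Pool.Agent.H87D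

open Filter

theorem Lf_nonneg (k : ℕ) : 0 ≤ Lf k := Real.sqrt_nonneg _

private theorem SumLf_log3 : 1 < Real.log 3 := by
  rw [Real.lt_log_iff_exp_lt (by norm_num)]
  have := Real.exp_one_lt_d9
  linarith

/-- `L` is monotone on `k ≥ 1`. -/
theorem Lf_mono {k l : ℕ} (hk : 1 ≤ k) (hkl : k ≤ l) : Lf k ≤ Lf l := by
  by_cases h3 : 3 ≤ k
  · unfold Lf
    apply Real.sqrt_le_sqrt
    have hk3 : (3 : ℝ) ≤ k := by exact_mod_cast h3
    have hkl' : (k : ℝ) ≤ l := by exact_mod_cast hkl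
    have h1 : 1 < Real.log k :=
      lt_of_lt_of_le SumLf_log3 (Real.log_le_log (by norm_num) hk3)
    have h2 : Real.log k ≤ Real.log l := Real.log_le_log (by linarith) hkl'
    have h4 : 0 < Real.log (Real.log k) := Real.log_pos h1
    have h5 : Real.log (Real.log k) ≤ Real.log (Real.log l) :=
      Real.log_le_log (by linarith) h2
    exact mul_le_mul h2 h5 h4.le (by linarith)
  · have h0 : Lf k = 0 := by
      unfold Lf
      apply Real.sqrt_eq_zero_of_nonpos
      have hk' : k = 1 ∨ k = 2 := by omega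
      rcases hk' with rfl | rfl
      · simp
      · have h6 : (0 : ℝ) < Real.log 2 := Real.log_pos (by norm_num)
        have h7 : Real.log 2 < 1 := by
          have := Real.log_two_lt_d9
          linarith
        have h8 : Real.log (Real.log 2) < 0 := Real.log_neg h6 h7
        have h9 : ((2 : ℕ) : ℝ) = 2 := by norm_num
        rw [h9]
        nlinarith
    rw [h0]
    exact Lf_nonneg l

private theorem SumLf_loglog (ε : ℝ) (hε : 0 < ε) :
    ∀ᶠ k : ℕ in atTop, 1 ≤ Real.log k ∧ Real.log (Real.log k) ≤ ε * Real.log k := by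
  have h1 : Tendsto (fun k : ℕ => Real.log (k : ℝ)) atTop atTop :=
    Real.tendsto_log_atTop.comp tendsto_natCast_atTop_atTop
  have h2 : ∀ᶠ u : ℝ in atTop, Real.log u ≤ ε * u := by
    have h3 := (Real.isLittleO_log_id_atTop).def hε
    filter_upwards [h3, eventually_ge_atTop (0 : ℝ)] with u hu hu0
    simp only [id, Real.norm_eq_abs] at hu
    rw [abs_of_nonneg hu0] at hu
    exact (le_abs_self _).trans hu
  filter_upwards [h1.eventually h2, h1.eventually (eventually_ge_atTop (1 : ℝ))] with k ha hb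
  exact ⟨hb, ha⟩

/-- Any power of `log k` is eventually at most `exp (c L(k))`. -/
theorem log_pow_le_exp_Lf (c : ℝ) (hc : 0 < c) (a : ℕ) :
    ∀ᶠ k : ℕ in Filter.atTop, (Real.log k) ^ a ≤ Real.exp (c * Lf k) := by
  have hε : 0 < c ^ 2 / ((a : ℝ) ^ 2 + 1) := by positivity
  filter_upwards [SumLf_loglog _ hε] with k hk
  obtain ⟨h1, h2⟩ := hk
  set u := Real.log (k : ℝ) with hu
  set v := Real.log u with hv
  have hv0 : 0 ≤ v := Real.log_nonneg h1
  have hu0 : 0 < u := by linarith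
  have e1 : u ^ a = Real.exp (a * v) := by
    rw [Real.exp_nat_mul, hv, Real.exp_log hu0]
  rw [e1]
  apply Real.exp_le_exp.2
  unfold Lf
  rw [← hu, ← hv]
  have h3 : (a : ℝ) * v ≤ Real.sqrt (c ^ 2 * (u * v)) := by
    apply Real.le_sqrt_of_sq_le
    have h4 : ((a : ℝ) ^ 2 + 1) * v ≤ c ^ 2 * u := by
      have h5 : ((a : ℝ) ^ 2 + 1) * v ≤ ((a : ℝ) ^ 2 + 1) * (c ^ 2 / ((a : ℝ) ^ 2 + 1) * u) :=
        mul_le_mul_of_nonneg_left h2 (by positivity)
      have h6 : ((a : ℝ) ^ 2 + 1) * (c ^ 2 / ((a : ℝ) ^ 2 + 1) * u) = c ^ 2 * u := by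
        field_simp
      linarith
    have h7 : (a : ℝ) ^ 2 * v ≤ c ^ 2 * u := by nlinarith
    calc ((a : ℝ) * v) ^ 2 = ((a : ℝ) ^ 2 * v) * v := by ring
      _ ≤ (c ^ 2 * u) * v := mul_le_mul_of_nonneg_right h7 hv0
      _ = c ^ 2 * (u * v) := by ring
  rw [Real.sqrt_mul (by positivity), Real.sqrt_sq hc.le] at h3
  exact h3

/-- `exp (c L(k))` is eventually at most `k ^ δ`. -/
theorem exp_Lf_le_rpow (c δ : ℝ) (hδ : 0 < δ) :
    ∀ᶠ k : ℕ in Filter.atTop, Real.exp (c * Lf k) ≤ (k : ℝ) ^ δ := by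
  have hε : 0 < δ ^ 2 / (c ^ 2 + 1) := by positivity
  filter_upwards [SumLf_loglog _ hε, eventually_ge_atTop 1] with k hk hk1
  obtain ⟨h1, h2⟩ := hk
  have hkpos : (0 : ℝ) < k := by exact_mod_cast hk1
  rw [Real.rpow_def_of_pos hkpos]
  apply Real.exp_le_exp.2
  set u := Real.log (k : ℝ) with hu
  set v := Real.log u with hv
  have hv0 : 0 ≤ v := Real.log_nonneg h1
  have hu0 : 0 < u := by linarith
  have h4 : (c ^ 2 + 1) * v ≤ δ ^ 2 * u := by
    have h5 : (c ^ 2 + 1) * v ≤ (c ^ 2 + 1) * (δ ^ 2 / (c ^ 2 + 1) * u) :=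
      mul_le_mul_of_nonneg_left h2 (by positivity)
    have h6 : (c ^ 2 + 1) * (δ ^ 2 / (c ^ 2 + 1) * u) = δ ^ 2 * u := by
      field_simp
    linarith
  have h7 : c ^ 2 * v ≤ δ ^ 2 * u := by nlinarith
  have h8 : (|c| * Lf k) ^ 2 ≤ (u * δ) ^ 2 := by
    have h9 : Lf k ^ 2 = u * v := by
      unfold Lf
      rw [← hu, ← hv]
      exact Real.sq_sqrt (by positivity)
    rw [mul_pow, h9, sq_abs]
    calc c ^ 2 * (u * v) = (c ^ 2 * v) * u := by ring
      _ ≤ (δ ^ 2 * u) * u := mul_le_mul_of_nonneg_right h7 hu0.le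
      _ = (u * δ) ^ 2 := by ring
  have h10 : |c| * Lf k ≤ u * δ :=
    le_of_sq_le_sq h8 (by positivity)
  calc c * Lf k ≤ |c| * Lf k := mul_le_mul_of_nonneg_right (le_abs_self c) (Lf_nonneg k)
    _ ≤ u * δ := h10

private theorem SumLf_base : Summable (fun k : ℕ => 1 / ((k : ℝ) * Real.log k ^ 2)) := by
  rw [← summable_nat_add_iff 3]
  have hterm : ∀ n : ℕ, 1 / (((n + 3 : ℕ) : ℝ) * Real.log ((n + 3 : ℕ) : ℝ) ^ 2) ≤
      1 / Real.log ((n + 2 : ℕ) : ℝ) - 1 / Real.log ((n + 3 : ℕ) : ℝ) := by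
    intro n
    have hn0 : (0 : ℝ) ≤ n := Nat.cast_nonneg n
    push_cast
    have hl2 : 0 < Real.log ((n : ℝ) + 2) := Real.log_pos (by linarith)
    have hl3 : 0 < Real.log ((n : ℝ) + 3) := Real.log_pos (by linarith)
    have hle : Real.log ((n : ℝ) + 2) ≤ Real.log ((n : ℝ) + 3) :=
      Real.log_le_log (by linarith) (by linarith)
    have hd : 1 / ((n : ℝ) + 3) ≤ Real.log ((n : ℝ) + 3) - Real.log ((n : ℝ) + 2) := by
      rw [← Real.log_div (by linarith) (by linarith)]
      have h1 := Real.one_sub_inv_le_log_of_pos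
        (x := ((n : ℝ) + 3) / ((n : ℝ) + 2)) (by positivity)
      have h2 : 1 - (((n : ℝ) + 3) / ((n : ℝ) + 2))⁻¹ = 1 / ((n : ℝ) + 3) := by
        rw [inv_div]
        field_simp
        ring
      rw [h2] at h1
      exact h1
    have e1 : 1 / Real.log ((n : ℝ) + 2) - 1 / Real.log ((n : ℝ) + 3) =
        (Real.log ((n : ℝ) + 3) - Real.log ((n : ℝ) + 2)) /
          (Real.log ((n : ℝ) + 2) * Real.log ((n : ℝ) + 3)) := by
      field_simp
    rw [e1, le_div_iff₀ (by positivity)]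
    have e2 : 1 / (((n : ℝ) + 3) * Real.log ((n : ℝ) + 3) ^ 2) *
        (Real.log ((n : ℝ) + 2) * Real.log ((n : ℝ) + 3)) =
        1 / ((n : ℝ) + 3) * (Real.log ((n : ℝ) + 2) / Real.log ((n : ℝ) + 3)) := by
      field_simp
    rw [e2]
    have h3 : Real.log ((n : ℝ) + 2) / Real.log ((n : ℝ) + 3) ≤ 1 :=
      (div_le_one hl3).2 hle
    calc 1 / ((n : ℝ) + 3) * (Real.log ((n : ℝ) + 2) / Real.log ((n : ℝ) + 3))
        ≤ 1 / ((n : ℝ) + 3) * 1 := mul_le_mul_of_nonneg_left h3 (by positivity)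
      _ = 1 / ((n : ℝ) + 3) := mul_one _
      _ ≤ _ := hd
  apply summable_of_sum_range_le (c := 1 / Real.log 2)
  · intro n
    positivity
  · intro n
    have hsum : ∀ n : ℕ, ∑ i ∈ Finset.range n,
        1 / (((i + 3 : ℕ) : ℝ) * Real.log ((i + 3 : ℕ) : ℝ) ^ 2) ≤
        1 / Real.log 2 - 1 / Real.log ((n + 2 : ℕ) : ℝ) := by
      intro n
      induction n with
      | zero => simp
      | succ m ih =>
        rw [Finset.sum_range_succ]
        have h4 := hterm m
        have h5 : m + 1 + 2 = m + 3 := by ring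
        rw [h5]
        linarith
    have h6 := hsum n
    have h7 : 0 ≤ 1 / Real.log ((n + 2 : ℕ) : ℝ) := by
      apply div_nonneg zero_le_one
      apply Real.log_nonneg
      have : (0 : ℝ) ≤ n := Nat.cast_nonneg n
      push_cast
      linarith
    linarith

theorem summable_Lf (c : ℝ) (hc : 0 < c) (a : ℕ) :
    Summable (fun k : ℕ => Real.exp (-c * Lf k) * (Real.log k) ^ a / k) := by
  apply SumLf_base.of_norm_bounded_eventually_nat
  have h1 : Tendsto (fun k : ℕ => Real.log (k : ℝ)) atTop atTop :=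
    Real.tendsto_log_atTop.comp tendsto_natCast_atTop_atTop
  filter_upwards [log_pow_le_exp_Lf c hc (a + 2), h1.eventually (eventually_ge_atTop (1 : ℝ)),
    eventually_ge_atTop 1] with k hk hk1 hk2
  have hkpos : (0 : ℝ) < k := by exact_mod_cast hk2
  have hu0 : 0 < Real.log (k : ℝ) := by linarith
  rw [Real.norm_of_nonneg (by positivity)]
  have h2 : Real.exp (-c * Lf k) * Real.log (k : ℝ) ^ a ≤ 1 / Real.log (k : ℝ) ^ 2 := by
    rw [le_div_iff₀ (by positivity)]
    calc Real.exp (-c * Lf k) * Real.log (k : ℝ) ^ a * Real.log (k : ℝ) ^ 2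
        = Real.exp (-c * Lf k) * Real.log (k : ℝ) ^ (a + 2) := by ring
      _ ≤ Real.exp (-c * Lf k) * Real.exp (c * Lf k) :=
          mul_le_mul_of_nonneg_left hk (Real.exp_pos _).le
      _ = 1 := by rw [← Real.exp_add]; simp
  calc Real.exp (-c * Lf k) * Real.log (k : ℝ) ^ a / k
      ≤ (1 / Real.log (k : ℝ) ^ 2) / k := div_le_div_of_nonneg_right h2 hkpos.le
    _ = 1 / ((k : ℝ) * Real.log k ^ 2) := by
      rw [div_div, mul_comm]

end Pool.Agent.H87D
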