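import Pool.Agent.H87D.SmoothDense
import Pool.Agent.H87D.SmoothSparse
import Pool.Agent.H87D.SumLf

/-!
The supply of smooth numbers: for the scale `X` and a density `ρ` with `X ρ ≥ exp (lam L(X))`
there is a smoothness level `y` such that the proportion `σ` of `y`-smooth numbers in `(X/2, X]`
satisfies `X ρ σ^(2R+1) ≥ A (y+1) (log X)^2`.

PROOF PLAN.  WLOG `A >= 1`.  `θ` from `smooth_dense`, `κ = (1-θ)/4`, `N = X ρ`.
CASE A, `ρ >= X^(-κ)`: `y = ⌈X^θ⌉`, `σ = 1/2`; `N >= X^(1-κ)` and `1 - κ > θ`.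
CASE B, `ρ < X^(-κ)`: `τ = min (κ/2) (1/(8R+16))`, `y = ⌊N^τ⌋` (so `y >= 3`,
`log y >= (τ/2) log N` for large `X`), `m = ⌊log X / log y⌋`, so `y^m <= X < y^(m+1)`, `m >= 1`.
Chebyshev (`Chebyshev.pi_ge`) gives `(π(y) - 1)/m >= y/(3 m log y) >= y/(3 log X)`, hence by
`smooth_sparse` the count is at least `(X/y) (3 log X)^(-m)`; `σ = 1/(y (3 log X)^m) <= 1`.
`(3 log X)^m <= exp (2 m log log X)` and `m <= log X/log y <= 2 log X/(τ log N)`,
`log N >= lam L(X)`, `L(X)^2 = log X log log X`: so `(3 log X)^m <= exp ((4/(τ lam)) L(X))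
<= N^(4/(τ lam^2)) <= N^τ` when `lam^2 >= 4/τ^2`.  So `σ >= N^(-2τ) >= X^(-κ) > ρ` (as `2τ <= κ`,
`N <= X`) and `N σ^(2R+1) >= N^(1 - 2τ(2R+1)) >= N^(1/2)`, while
`A (y+1) (log X)^2 <= 2 A N^τ N^τ` for large `X` (`(log X)^2 <= exp (τ L(X)) <= N^τ` if `lam >= 1`).
(`log_pow_le_exp_Lf` in file SumLf may be used: import it.)
-/

namespace Pool.Agent.H87D

open Finset

private theorem Supply_cheb (y : ℕ) (hy : 400 ≤ y) :
    (y : ℝ) / 3 ≤ ((Nat.primeCounting y : ℝ) - 1) * Real.log y := by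
  have hy' : (400 : ℝ) ≤ y := by exact_mod_cast hy
  have hlog : 0 < Real.log y := Real.log_pos (by linarith)
  have h1 := Chebyshev.pi_ge y
  rw [div_le_iff₀ hlog] at h1
  have h2 : Real.log y ≤ Real.log ((y : ℝ) + 1) := Real.log_le_log (by linarith) (by linarith)
  have hs0 : 0 < Real.sqrt ((y : ℝ) + 1) := Real.sqrt_pos.2 (by linarith)
  have hs : Real.sqrt ((y : ℝ) + 1) ^ 2 = (y : ℝ) + 1 := Real.sq_sqrt (by linarith)
  have h3 : Real.log ((y : ℝ) + 1) ≤ 2 * Real.sqrt ((y : ℝ) + 1) := by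
    have h4 := Real.log_le_sub_one_of_pos hs0
    have h5 : Real.log ((y : ℝ) + 1) = 2 * Real.log (Real.sqrt ((y : ℝ) + 1)) := by
      rw [← hs, Real.log_pow, Real.sqrt_sq hs0.le]
      push_cast
      ring
    rw [h5]
    linarith
  have h6 : 20 ≤ Real.sqrt ((y : ℝ) + 1) := by
    apply Real.le_sqrt_of_sq_le
    linarith
  have h7 : 20 * Real.sqrt ((y : ℝ) + 1) ≤ (y : ℝ) + 1 := by
    have h7' : 0 ≤ (Real.sqrt ((y : ℝ) + 1) - 20) * Real.sqrt ((y : ℝ) + 1) :=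
      mul_nonneg (by linarith) hs0.le
    linarith
  have h8 : (0.6931471803 : ℝ) < Real.log 2 := Real.log_two_gt_d9
  have h9 : (0.6931471803 : ℝ) * y ≤ y * Real.log 2 := by nlinarith
  have h10 : ((Nat.primeCounting y : ℝ) - 1) * Real.log y =
      (Nat.primeCounting y : ℝ) * Real.log y - Real.log y := by ring
  rw [h10]
  linarith

private theorem Supply_caseA (R : ℕ) (A A' θ κ ρ ℓ E : ℝ) (X : ℕ) (hθ0 : 0 < θ) (hθ1 : θ < 1)
    (hκ : κ = (1 - θ) / 4) (hA : A ≤ A') (hA1 : 1 ≤ A') (hX : 1 ≤ X) (hℓ : ℓ = Real.log X)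
    (hB : 3 * A' * 2 ^ (2 * R + 1) ≤ ℓ) (hE1 : ℓ ^ 3 ≤ E) (hE2 : E ≤ (X : ℝ) ^ (3 * κ))
    (hρ : (X : ℝ) ^ (-κ) ≤ ρ) :
    A * ((⌈(X : ℝ) ^ θ⌉₊ : ℝ) + 1) * ℓ ^ 2 ≤ X * ρ * (1 / 2) ^ (2 * R + 1) := by
  have hX' : (1 : ℝ) ≤ X := by exact_mod_cast hX
  have hX0 : (0 : ℝ) < X := by linarith
  have h1 : (1 : ℝ) ≤ (X : ℝ) ^ θ := Real.one_le_rpow hX' hθ0.le
  have h2 : (⌈(X : ℝ) ^ θ⌉₊ : ℝ) < (X : ℝ) ^ θ + 1 := Nat.ceil_lt_add_one (by linarith)
  have hc : (0 : ℝ) ≤ (⌈(X : ℝ) ^ θ⌉₊ : ℝ) := Nat.cast_nonneg _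
  have hℓ0 : 0 ≤ ℓ := by rw [hℓ]; exact Real.log_nonneg hX'
  have h3 : A * ((⌈(X : ℝ) ^ θ⌉₊ : ℝ) + 1) * ℓ ^ 2 ≤ A' * (3 * (X : ℝ) ^ θ) * ℓ ^ 2 := by
    apply mul_le_mul_of_nonneg_right _ (sq_nonneg _)
    calc A * ((⌈(X : ℝ) ^ θ⌉₊ : ℝ) + 1) ≤ A' * ((⌈(X : ℝ) ^ θ⌉₊ : ℝ) + 1) :=
          mul_le_mul_of_nonneg_right hA (by linarith)
      _ ≤ A' * (3 * (X : ℝ) ^ θ) := mul_le_mul_of_nonneg_left (by linarith) (by linarith)
  refine h3.trans ?_
  have h4 : (3 * A' * 2 ^ (2 * R + 1)) * ℓ ^ 2 ≤ (X : ℝ) ^ (3 * κ) := by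
    refine le_trans ?_ (hE1.trans hE2)
    calc (3 * A' * 2 ^ (2 * R + 1)) * ℓ ^ 2 ≤ ℓ * ℓ ^ 2 :=
          mul_le_mul_of_nonneg_right hB (sq_nonneg _)
      _ = ℓ ^ 3 := by ring
  have h5 : (X : ℝ) ^ (3 * κ) * (X : ℝ) ^ θ = X * (X : ℝ) ^ (-κ) := by
    rw [← Real.rpow_add hX0]
    nth_rewrite 2 [← Real.rpow_one (X : ℝ)]
    rw [← Real.rpow_add hX0]
    congr 1
    rw [hκ]
    ring
  have h6 : X * (X : ℝ) ^ (-κ) ≤ X * ρ := mul_le_mul_of_nonneg_left hρ hX0.le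
  have h7 : (2 : ℝ) ^ (2 * R + 1) * (1 / 2) ^ (2 * R + 1) = 1 := by
    rw [← mul_pow]
    norm_num
  have h8 : (3 * A' * 2 ^ (2 * R + 1)) * ℓ ^ 2 * (X : ℝ) ^ θ ≤ X * ρ := by
    refine le_trans (mul_le_mul_of_nonneg_right h4 (by linarith)) ?_
    rw [h5]
    exact h6
  have h9 := mul_le_mul_of_nonneg_right h8 (by positivity : (0 : ℝ) ≤ (1 / 2) ^ (2 * R + 1))
  refine le_trans (le_of_eq ?_) h9
  calc A' * (3 * (X : ℝ) ^ θ) * ℓ ^ 2
      = 3 * A' * ℓ ^ 2 * (X : ℝ) ^ θ * (2 ^ (2 * R + 1) * (1 / 2) ^ (2 * R + 1)) := by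
        rw [h7]; ring
    _ = 3 * A' * 2 ^ (2 * R + 1) * ℓ ^ 2 * (X : ℝ) ^ θ * (1 / 2) ^ (2 * R + 1) := by ring

theorem supply (R : ℕ) (hR : 1 ≤ R) (A : ℝ) : ∃ lam : ℝ, ∃ X0 : ℕ, ∀ X : ℕ, X0 ≤ X →
    ∀ ρ : ℝ, 0 < ρ → ρ ≤ 1 → Real.exp (lam * Lf X) ≤ X * ρ →
    ∃ (y : ℕ) (σ : ℝ), y ≤ X ∧ 0 < σ ∧ σ ≤ 1 ∧
      σ * X / 2 ≤ ((flt (Sm y) (Ioc (X / 2) X)).card : ℝ) ∧ ρ ≤ 2 * σ ∧
      A * (y + 1) * (Real.log X) ^ 2 ≤ X * ρ * σ ^ (2 * R + 1) := by
  obtain ⟨θ, hθ0, hθ1, X1, hX1⟩ := smooth_dense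
  obtain ⟨κ, hκ⟩ : ∃ κ : ℝ, κ = (1 - θ) / 4 := ⟨_, rfl⟩
  have hκ0 : 0 < κ := by rw [hκ]; linarith
  have hR16 : (0 : ℝ) < 8 * R + 16 := by positivity
  obtain ⟨τ, hτ⟩ : ∃ τ : ℝ, τ = min (κ / 2) (1 / (8 * R + 16)) := ⟨_, rfl⟩
  have hτ0 : 0 < τ := by
    rw [hτ]
    exact lt_min (by linarith) (by positivity)
  have hτκ : 2 * τ ≤ κ := by
    have : τ ≤ κ / 2 := by rw [hτ]; exact min_le_left _ _
    linarith
  have hτR : τ * (8 * R + 16) ≤ 1 := by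
    have : τ ≤ 1 / (8 * R + 16) := by rw [hτ]; exact min_le_right _ _
    rwa [le_div_iff₀ hR16] at this
  have hR0 : (0 : ℝ) ≤ R := Nat.cast_nonneg R
  have hτRn : 0 ≤ τ * R := mul_nonneg hτ0.le hR0
  have hτ1 : 16 * τ ≤ 1 := by linarith
  obtain ⟨A', hA'⟩ : ∃ A' : ℝ, A' = max A 1 := ⟨_, rfl⟩
  have hAA : A ≤ A' := by rw [hA']; exact le_max_left _ _
  have hA1 : 1 ≤ A' := by rw [hA']; exact le_max_right _ _
  obtain ⟨B, hB⟩ : ∃ B : ℝ, B = max 8 (3 * A' * 2 ^ (2 * R + 1)) := ⟨_, rfl⟩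
  have hE1 := log_pow_le_exp_Lf τ hτ0 3
  have hE2 := exp_Lf_le_rpow τ (3 * κ) (by linarith)
  have hE3 : ∀ᶠ k : ℕ in Filter.atTop, B ≤ Real.log k :=
    (Real.tendsto_log_atTop.comp tendsto_natCast_atTop_atTop).eventually_ge_atTop B
  obtain ⟨X2, hX2⟩ := Filter.eventually_atTop.1 (hE1.and (hE2.and hE3))
  refine ⟨1 + 2 / τ, max (max X1 X2) 1, fun X hX ρ hρ0 hρ1 hN => ?_⟩
  have hXX1 : X1 ≤ X := le_trans (le_trans (le_max_left _ _) (le_max_left _ _)) hX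
  have hXX2 : X2 ≤ X := le_trans (le_trans (le_max_right _ _) (le_max_left _ _)) hX
  have hX1' : 1 ≤ X := le_trans (le_max_right _ _) hX
  obtain ⟨e1, e2, e3⟩ := hX2 X hXX2
  have hXr : (1 : ℝ) ≤ X := by exact_mod_cast hX1'
  have hXr0 : (0 : ℝ) < X := by linarith
  obtain ⟨ℓ, hℓ⟩ : ∃ ℓ : ℝ, ℓ = Real.log X := ⟨_, rfl⟩
  obtain ⟨Lx, hLx⟩ : ∃ Lx : ℝ, Lx = Lf X := ⟨_, rfl⟩
  rw [← hℓ] at e1 e3 ⊢
  rw [← hLx] at e1 e2 hN
  have hℓ8 : 8 ≤ ℓ := le_trans (by rw [hB]; exact le_max_left _ _) e3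
  have hℓB : 3 * A' * 2 ^ (2 * R + 1) ≤ ℓ := le_trans (by rw [hB]; exact le_max_right _ _) e3
  rcases le_or_gt ((X : ℝ) ^ (-κ)) ρ with hρ | hρ
  · -- case A
    refine ⟨⌈(X : ℝ) ^ θ⌉₊, 1 / 2, ?_, by norm_num, by norm_num, ?_, by linarith, ?_⟩
    · apply Nat.ceil_le.2
      calc (X : ℝ) ^ θ ≤ (X : ℝ) ^ (1 : ℝ) := Real.rpow_le_rpow_of_exponent_le hXr hθ1.le
        _ = X := Real.rpow_one _
    · have := hX1 X hXX1 ⌈(X : ℝ) ^ θ⌉₊ (Nat.le_ceil _)
      linarith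
    · exact Supply_caseA R A A' θ κ ρ ℓ _ X hθ0 hθ1 hκ hAA hA1 hX1' hℓ hℓB e1 e2 hρ
  · -- case B
    obtain ⟨N, hNd⟩ : ∃ N : ℝ, N = X * ρ := ⟨_, rfl⟩
    rw [← hNd] at hN ⊢
    have hN0 : 0 < N := by rw [hNd]; positivity
    have hNX : N ≤ X := by rw [hNd]; exact mul_le_of_le_one_right hXr0.le hρ1
    obtain ⟨a, ha⟩ : ∃ a : ℝ, a = Real.log N := ⟨_, rfl⟩
    have hNa : N = Real.exp a := by rw [ha, Real.exp_log hN0]
    have haℓ : a ≤ ℓ := by rw [ha, hℓ]; exact Real.log_le_log hN0 hNX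
    have hLa : (1 + 2 / τ) * Lx ≤ a := by
      rw [hNa] at hN
      exact Real.exp_le_exp.1 hN
    have hL0 : 0 ≤ Lx := by rw [hLx]; exact Lf_nonneg X
    have hLa1 : Lx ≤ a := by
      have : 0 ≤ 2 / τ * Lx := by positivity
      linarith
    have hLa2 : 2 * Lx ≤ τ * a := by
      have h1 : 2 / τ * Lx ≤ a := by linarith
      have h2 := mul_le_mul_of_nonneg_left h1 hτ0.le
      have h3 : τ * (2 / τ * Lx) = 2 * Lx := by field_simp
      linarith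
    -- T = N ^ τ
    obtain ⟨T, hT⟩ : ∃ T : ℝ, T = Real.exp (τ * a) := ⟨_, rfl⟩
    have hTℓ : ℓ ^ 3 ≤ T := by
      refine e1.trans ?_
      rw [hT]
      exact Real.exp_le_exp.2 (mul_le_mul_of_nonneg_left hLa1 hτ0.le)
    have hℓ3 : (512 : ℝ) ≤ ℓ ^ 3 := by
      have : (8 : ℝ) ^ 3 ≤ ℓ ^ 3 := pow_le_pow_left₀ (by norm_num) hℓ8 3
      linarith
    have hT512 : 512 ≤ T := hℓ3.trans hTℓ
    have ha0 : 0 < a := by
      by_contra hcon
      push Not at hcon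
      have : T ≤ 1 := by
        rw [hT, Real.exp_le_one_iff]
        exact mul_nonpos_of_nonneg_of_nonpos hτ0.le hcon
      linarith
    obtain ⟨y, hy⟩ : ∃ y : ℕ, y = ⌊T⌋₊ := ⟨_, rfl⟩
    have hyT : (y : ℝ) ≤ T := by rw [hy]; exact Nat.floor_le (by linarith)
    have hyT1 : T < y + 1 := by rw [hy]; exact Nat.lt_floor_add_one T
    have hy400 : 400 ≤ y := by
      have : (400 : ℝ) ≤ y := by linarith
      exact_mod_cast this
    have hyr : (400 : ℝ) ≤ y := by exact_mod_cast hy400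
    have hyX : y ≤ X := by
      have h1 : T ≤ N := by
        rw [hT, hNa]
        apply Real.exp_le_exp.2
        exact mul_le_of_le_one_left ha0.le (by linarith)
      have : (y : ℝ) ≤ X := by linarith
      exact_mod_cast this
    obtain ⟨b, hb⟩ : ∃ b : ℝ, b = Real.log y := ⟨_, rfl⟩
    have hb0 : 0 < b := by rw [hb]; exact Real.log_pos (by linarith)
    have hbτ : τ / 2 * a ≤ b := by
      obtain ⟨u, hu⟩ : ∃ u : ℝ, u = Real.exp (τ / 2 * a) := ⟨_, rfl⟩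
      have hu0 : 0 < u := by rw [hu]; exact Real.exp_pos _
      have huT : u ^ 2 = T := by
        rw [hu, hT, ← Real.exp_nat_mul]
        congr 1
        push_cast
        ring
      have hu2 : 2 ≤ u := by
        have h4 : (2 : ℝ) ^ 2 ≤ u ^ 2 := by rw [huT]; linarith
        exact (pow_le_pow_iff_left₀ (by norm_num) hu0.le two_ne_zero).1 h4
      have huy : u ≤ y := by
        have h4 : 2 * u ≤ u ^ 2 := by rw [sq]; exact mul_le_mul_of_nonneg_right hu2 hu0.le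
        linarith
      have := Real.log_le_log hu0 huy
      rw [hu, Real.log_exp] at this
      rw [hb]
      exact this
    obtain ⟨m, hm⟩ : ∃ m : ℕ, m = Nat.log y X := ⟨_, rfl⟩
    have hm1 : 1 ≤ m := by rw [hm]; exact Nat.log_pos (by omega) hyX
    have hmX : y ^ m ≤ X := by rw [hm]; exact Nat.pow_log_le_self y (by omega)
    have hXm : X < y ^ (m + 1) := by rw [hm]; exact Nat.lt_pow_succ_log_self (by omega) X
    have hmr : (1 : ℝ) ≤ m := by exact_mod_cast hm1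
    have hmb : m * b ≤ ℓ := by
      have h1 : ((y : ℝ)) ^ m ≤ X := by exact_mod_cast hmX
      have h2 := Real.log_le_log (by positivity) h1
      rw [Real.log_pow, ← hb, ← hℓ] at h2
      exact h2
    -- the logarithm of `3 ℓ`
    obtain ⟨g, hg⟩ : ∃ g : ℝ, g = Real.log ℓ := ⟨_, rfl⟩
    have hg0 : 0 ≤ g := by rw [hg]; exact Real.log_nonneg (by linarith)
    have hLsq : Lx ^ 2 = ℓ * g := by
      rw [hLx, Lf, ← hℓ, ← hg, Real.sq_sqrt (by positivity)]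
    have h3ℓ : Real.log (3 * ℓ) ≤ 2 * g := by
      have h1 : 3 * ℓ ≤ ℓ ^ 2 := by
        rw [sq]
        exact mul_le_mul_of_nonneg_right (by linarith) (by linarith)
      have h2 := Real.log_le_log (by positivity) h1
      rw [Real.log_pow, ← hg] at h2
      push_cast at h2
      exact h2
    have hmg : m * (2 * g) ≤ τ * a := by
      have h1 : (m : ℝ) * (τ / 2 * a) ≤ ℓ := by
        refine le_trans ?_ hmb
        exact mul_le_mul_of_nonneg_left hbτ (by linarith)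
      have h2 : (m : ℝ) * (τ / 2 * a) * g ≤ ℓ * g := mul_le_mul_of_nonneg_right h1 hg0
      rw [← hLsq] at h2
      have h3 : (2 * Lx) ^ 2 ≤ (τ * a) ^ 2 := pow_le_pow_left₀ (by positivity) hLa2 2
      have h4 : 0 < τ * a := by positivity
      have h5 : (m * (2 * g)) * (τ * a) ≤ (τ * a) * (τ * a) := by linarith
      exact le_of_mul_le_mul_right h5 h4
    have hpow : (3 * ℓ) ^ m ≤ T := by
      have h1 : (3 * ℓ) ^ m = Real.exp (m * Real.log (3 * ℓ)) := by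
        rw [Real.exp_nat_mul, Real.exp_log (by positivity)]
      rw [h1, hT]
      apply Real.exp_le_exp.2
      refine le_trans ?_ hmg
      exact mul_le_mul_of_nonneg_left h3ℓ (by linarith)
    have h3ℓ1 : 1 ≤ 3 * ℓ := by linarith
    have hpow1 : 1 ≤ (3 * ℓ) ^ m := one_le_pow₀ h3ℓ1
    have hden : 0 < (y : ℝ) * (3 * ℓ) ^ m := by positivity
    obtain ⟨σ, hσ⟩ : ∃ σ : ℝ, σ = 1 / ((y : ℝ) * (3 * ℓ) ^ m) := ⟨_, rfl⟩
    have hσ0 : 0 < σ := by rw [hσ]; positivity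
    have hσ1 : σ ≤ 1 := by
      rw [hσ, div_le_one hden]
      exact one_le_mul_of_one_le_of_one_le (by linarith) hpow1
    have hσT : 1 / (T * T) ≤ σ := by
      rw [hσ]
      apply one_div_le_one_div_of_le hden
      exact mul_le_mul hyT hpow (by positivity) (by linarith)
    have hTT : 1 / (T * T) = Real.exp (-(2 * τ * a)) := by
      rw [hT, ← Real.exp_add, one_div, ← Real.exp_neg]
      congr 1
      ring
    refine ⟨y, σ, hyX, hσ0, hσ1, ?_, ?_, ?_⟩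
    · -- the count
      have h1 := smooth_sparse y m X hm1 (by omega) hmX
      refine le_trans ?_ h1
      have h2 := Supply_cheb y hy400
      rw [← hb] at h2
      have h3 : (y : ℝ) / (3 * ℓ) ≤ ((Nat.primeCounting y : ℝ) - 1) / m := by
        rw [div_le_div_iff₀ (by positivity) (by linarith)]
        have hpi : 0 ≤ (Nat.primeCounting y : ℝ) - 1 := by
          by_contra hcon
          push Not at hcon
          have : ((Nat.primeCounting y : ℝ) - 1) * b < 0 := mul_neg_of_neg_of_pos hcon hb0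
          linarith
        have h4 : ((Nat.primeCounting y : ℝ) - 1) * (m * b) ≤ ((Nat.primeCounting y : ℝ) - 1) * ℓ :=
          mul_le_mul_of_nonneg_left hmb hpi
        have h5 : (y : ℝ) / 3 * m ≤ ((Nat.primeCounting y : ℝ) - 1) * b * m :=
          mul_le_mul_of_nonneg_right h2 (by linarith)
        linarith
      have h6 := pow_le_pow_left₀ (by positivity) h3 m
      refine le_trans ?_ h6
      rw [div_pow, hσ]
      have h7 : (X : ℝ) ≤ (y : ℝ) ^ m * y := by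
        have : (X : ℝ) < (y : ℝ) ^ (m + 1) := by exact_mod_cast hXm
        rw [pow_succ] at this
        exact this.le
      have h8 : 1 / ((y : ℝ) * (3 * ℓ) ^ m) * X / 2 = (X / y) / (3 * ℓ) ^ m / 2 := by
        field_simp
      rw [h8]
      have h9 : (X : ℝ) / y ≤ (y : ℝ) ^ m := by
        rw [div_le_iff₀ (by linarith)]
        exact h7
      have h10 : (X / y : ℝ) / (3 * ℓ) ^ m ≤ (y : ℝ) ^ m / (3 * ℓ) ^ m :=
        div_le_div_of_nonneg_right h9 (by positivity)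
      have h11 : 0 ≤ (X / y : ℝ) / (3 * ℓ) ^ m := by positivity
      linarith
    · -- `ρ ≤ 2 σ`
      have h1 : (X : ℝ) ^ (-κ) = Real.exp (-(κ * ℓ)) := by
        rw [Real.rpow_def_of_pos hXr0, ← hℓ]
        congr 1
        ring
      have h2 : Real.exp (-(κ * ℓ)) ≤ Real.exp (-(2 * τ * a)) := by
        apply Real.exp_le_exp.2
        have h3 : 2 * τ * a ≤ κ * ℓ := by
          calc 2 * τ * a ≤ κ * a := mul_le_mul_of_nonneg_right hτκ ha0.le
            _ ≤ κ * ℓ := mul_le_mul_of_nonneg_left haℓ hκ0.le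
        linarith
      rw [← hTT] at h2
      rw [h1] at hρ
      linarith
    · -- the supply
      have h1 : Real.exp (-(2 * τ * a)) ^ (2 * R + 1) ≤ σ ^ (2 * R + 1) := by
        rw [← hTT]
        exact pow_le_pow_left₀ (by positivity) hσT _
      have h2 : Real.exp (a / 2) ≤ N * Real.exp (-(2 * τ * a)) ^ (2 * R + 1) := by
        rw [hNa, ← Real.exp_nat_mul, ← Real.exp_add]
        apply Real.exp_le_exp.2
        push_cast
        have h3 : (2 * R + 1) * (2 * τ) ≤ 1 / 2 := by linarith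
        have h4 := mul_le_mul_of_nonneg_right h3 ha0.le
        linarith
      have h3 : Real.exp (a / 2) ≤ N * σ ^ (2 * R + 1) :=
        h2.trans (mul_le_mul_of_nonneg_left h1 hN0.le)
      refine le_trans ?_ h3
      have h4 : T * T ≤ Real.exp (a / 2) := by
        rw [hT, ← Real.exp_add]
        apply Real.exp_le_exp.2
        have h5 := mul_le_mul_of_nonneg_right hτ1 ha0.le
        linarith
      refine le_trans ?_ h4
      have h5 : 2 * A' ≤ ℓ := by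
        refine le_trans ?_ hℓB
        have h6 : (1 : ℝ) ≤ 2 ^ (2 * R + 1) := one_le_pow₀ (by norm_num)
        have h7 := mul_le_mul_of_nonneg_left h6 (by linarith : 0 ≤ 3 * A')
        linarith
      calc A * (y + 1) * ℓ ^ 2 ≤ A' * (T + T) * ℓ ^ 2 := by
            apply mul_le_mul_of_nonneg_right _ (sq_nonneg _)
            apply mul_le_mul hAA (by linarith) (by positivity) (by linarith)
        _ = (2 * A') * ℓ ^ 2 * T := by ring
        _ ≤ ℓ * ℓ ^ 2 * T := by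
            apply mul_le_mul_of_nonneg_right _ (by linarith)
            exact mul_le_mul_of_nonneg_right h5 (sq_nonneg _)
        _ = ℓ ^ 3 * T := by ring
        _ ≤ T * T := mul_le_mul_of_nonneg_right hTℓ (by linarith)

end Pool.Agent.H87D
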