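import Pool.Agent.H87D.Defs
import Pool.Agent.H87D.CombId

/-!
The law of a random set in a finite window, and the expectation of the window variable.

PROOF PLAN.  `{tr (S ω) I = T}` is the intersection over `k ∈ I` of `{k ∈ S}` (`k ∈ T`) or its
complement; independence of the events and complements (`iIndepSet`, e.g. via `iIndepSet.iIndepFun_indicator`
or `iIndepSets`/generateFrom, reindexing `k = i + 1`) gives the product.  For the expectation:
`Yw = ∑_{T ⊆ A, |T| = R} 1_{tr (S ω) I = T} * (|∑_T ξ|^2 - K)` pointwise (for these `T` also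
`T ⊆ I`), so the integral is `∑_T wt ρ I T * (|∑_T ξ|^2 - K) >= ∑_T (q |∑_T ξ|^2 - 2 q K)
>= q * choose m R * (R/2 - 2K) >= q * choose m R` by `sum_powersetCard_norm_sq` (file CombId) and
`4 K + 2 <= R`.
-/

namespace Pool.Agent.H87D

open MeasureTheory ProbabilityTheory Finset

variable {Ω : Type*} [MeasurableSpace Ω] {P : Measure Ω} [IsProbabilityMeasure P]
  {ρ : ℕ → ℝ} {S : Ω → Set ℕ}

theorem WindowExp_tr_iff (S : Set ℕ) (I T : Finset ℕ) :
    tr S I = T ↔ T ⊆ I ∧ ∀ k ∈ I, (k ∈ S ↔ k ∈ T) := by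
  constructor
  · rintro rfl
    refine ⟨fun k hk => (mem_tr.1 hk).1, fun k hk => ?_⟩
    rw [mem_tr]
    exact ⟨fun e => ⟨hk, e⟩, fun e => e.2⟩
  · rintro ⟨h1, h2⟩
    ext k
    rw [mem_tr]
    exact ⟨fun e => (h2 k e.1).1 e.2, fun e => ⟨h1 e, (h2 k (h1 e)).2 e⟩⟩

theorem measurableSet_tr_eq (h : IsRandomSet P ρ S) (I T : Finset ℕ) (hI : ∀ k ∈ I, 1 ≤ k) :
    MeasurableSet {ω | tr (S ω) I = T} := by
  have e : {ω | tr (S ω) I = T} = {ω | T ⊆ I} ∩ ⋂ k ∈ I, {ω | k ∈ S ω ↔ k ∈ T} := by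
    ext ω
    rw [Set.mem_ofPred_eq, WindowExp_tr_iff, Set.mem_inter_iff, Set.mem_iInter₂]
    exact Iff.rfl
  rw [e]
  refine (MeasurableSet.const _).inter (Finset.measurableSet_biInter I (fun k hk => ?_))
  by_cases hkT : k ∈ T
  · have e2 : {ω | k ∈ S ω ↔ k ∈ T} = {ω | k ∈ S ω} := by
      ext ω
      rw [Set.mem_ofPred_eq, Set.mem_ofPred_eq]
      exact ⟨fun e => e.2 hkT, fun e => ⟨fun _ => hkT, fun _ => e⟩⟩
    rw [e2]
    exact h.meas k (hI k hk)
  · have e2 : {ω | k ∈ S ω ↔ k ∈ T} = {ω | k ∈ S ω}ᶜ := by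
      ext ω
      rw [Set.mem_ofPred_eq, Set.mem_compl_iff, Set.mem_ofPred_eq]
      exact ⟨fun e e' => hkT (e.1 e'), fun e => ⟨fun e' => absurd e' e, fun e' => absurd e' hkT⟩⟩
    rw [e2]
    exact (h.meas k (hI k hk)).compl

/-- `P (S ∩ I = T) = ∏_{k ∈ T} ρ k * ∏_{k ∈ I \ T} (1 - ρ k)`. -/
theorem prob_tr_eq (h : IsRandomSet P ρ S) (hρ : Dens ρ) (I T : Finset ℕ)
    (hI : ∀ k ∈ I, 1 ≤ k) (hT : T ⊆ I) :
    P {ω | tr (S ω) I = T} = ENNReal.ofReal (wt ρ I T) := by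
  classical
  have hind := (iIndepSet_iff _ _).1 h.indep (I.image (fun k => k - 1))
    (f := fun i => if i + 1 ∈ T then {ω | i + 1 ∈ S ω} else {ω | i + 1 ∈ S ω}ᶜ) (by
      intro i _
      have hg : MeasurableSet[MeasurableSpace.generateFrom {{ω | i + 1 ∈ S ω}}]
          {ω | i + 1 ∈ S ω} := MeasurableSpace.measurableSet_generateFrom rfl
      split_ifs with hi
      · exact hg
      · exact MeasurableSet.compl hg)
  have hinj : Set.InjOn (fun k => k - 1) (I : Set ℕ) := by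
    intro a ha b hb hab
    have h1 := hI a ha
    have h2 := hI b hb
    have h3 : a - 1 = b - 1 := hab
    omega
  have e : {ω | tr (S ω) I = T} = ⋂ i ∈ I.image (fun k => k - 1),
      (if i + 1 ∈ T then {ω | i + 1 ∈ S ω} else {ω | i + 1 ∈ S ω}ᶜ) := by
    ext ω
    rw [Set.mem_ofPred_eq, WindowExp_tr_iff, Set.mem_iInter₂]
    constructor
    · rintro ⟨-, h2⟩ i hi
      obtain ⟨k, hk, rfl⟩ := Finset.mem_image.1 hi
      have hk1 : k - 1 + 1 = k := Nat.sub_add_cancel (hI k hk)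
      rw [hk1]
      split_ifs with hkT
      · exact (h2 k hk).2 hkT
      · exact fun e' => hkT ((h2 k hk).1 e')
    · intro h2
      refine ⟨hT, fun k hk => ?_⟩
      have hk1 : k - 1 + 1 = k := Nat.sub_add_cancel (hI k hk)
      have h3 := h2 (k - 1) (Finset.mem_image_of_mem _ hk)
      rw [hk1] at h3
      by_cases hkT : k ∈ T
      · rw [if_pos hkT] at h3
        exact ⟨fun _ => hkT, fun _ => h3⟩
      · rw [if_neg hkT] at h3
        exact ⟨fun e' => absurd e' h3, fun e' => absurd e' hkT⟩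
  rw [e, hind, Finset.prod_image hinj]
  have hterm : ∀ k ∈ I, P (if k - 1 + 1 ∈ T then {ω | k - 1 + 1 ∈ S ω} else
      {ω | k - 1 + 1 ∈ S ω}ᶜ) = ENNReal.ofReal (if k ∈ T then ρ k else 1 - ρ k) := by
    intro k hk
    have hk1 : k - 1 + 1 = k := Nat.sub_add_cancel (hI k hk)
    rw [hk1]
    split_ifs with hkT
    · exact h.prob k (hI k hk)
    · rw [prob_compl_eq_one_sub (h.meas k (hI k hk)), h.prob k (hI k hk),
        ENNReal.ofReal_sub 1 (hρ.nonneg k (hI k hk)), ENNReal.ofReal_one]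
  rw [Finset.prod_congr rfl hterm, ← ENNReal.ofReal_prod_of_nonneg]
  · congr 1
    unfold wt
    rw [← Finset.prod_sdiff hT, mul_comm]
    congr 1
    · exact Finset.prod_congr rfl (fun k hk => if_pos hk)
    · exact Finset.prod_congr rfl (fun k hk => if_neg (Finset.mem_sdiff.1 hk).2)
  · intro k hk
    split_ifs
    · exact hρ.nonneg k (hI k hk)
    · linarith [hρ.le_one k (hI k hk)]

theorem WindowExp_wt_nonneg (hρ : Dens ρ) (I T : Finset ℕ)
    (hI : ∀ k ∈ I, 1 ≤ k) (hT : T ⊆ I) : 0 ≤ wt ρ I T := by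
  unfold wt
  refine mul_nonneg (Finset.prod_nonneg (fun k hk => hρ.nonneg k (hI k (hT hk))))
    (Finset.prod_nonneg (fun k hk => ?_))
  linarith [hρ.le_one k (hI k (Finset.mem_sdiff.1 hk).1)]

theorem WindowExp_Yw (R : ℕ) (K : ℝ) (ξ : ℕ → ℂ) (I A : Finset ℕ) (S : Ω → Set ℕ) (ω : Ω) :
    Yw R K ξ I A (S ω) = ∑ T ∈ A.powersetCard R,
      {ω | tr (S ω) I = T}.indicator (fun _ => ‖∑ s ∈ T, ξ s‖ ^ 2 - K) ω := by
  classical
  unfold Yw
  split_ifs with hc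
  · rw [Finset.sum_eq_single (tr (S ω) I)]
    · rw [Set.indicator_of_mem]
      exact rfl
    · intro T _ hne
      rw [Set.indicator_of_notMem]
      exact fun e => hne e.symm
    · intro e
      exact absurd (Finset.mem_powersetCard.2 hc) e
  · symm
    refine Finset.sum_eq_zero (fun T hT => ?_)
    rw [Set.indicator_of_notMem]
    intro e
    have e' : tr (S ω) I = T := e
    rw [Finset.mem_powersetCard, ← e'] at hT
    exact hc hT

theorem expectation_Yw (h : IsRandomSet P ρ S) (hρ : Dens ρ) (I A : Finset ℕ)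
    (hI : ∀ k ∈ I, 1 ≤ k) (hA : A ⊆ I) (R : ℕ) (hR : 1 ≤ R) (hAR : 2 * R ≤ A.card)
    (K : ℝ) (hK0 : 0 ≤ K) (hK : 4 * K + 2 ≤ R) (ξ : ℕ → ℂ) (hξ : ∀ n ∈ A, ‖ξ n‖ = 1)
    (q : ℝ) (hq0 : 0 ≤ q)
    (hq : ∀ T : Finset ℕ, T ⊆ A → T.card = R → q ≤ wt ρ I T ∧ wt ρ I T ≤ 2 * q) :
    q * (A.card.choose R) ≤ ∫ ω, Yw R K ξ I A (S ω) ∂P := by
  have e1 : ∫ ω, Yw R K ξ I A (S ω) ∂P =
      ∑ T ∈ A.powersetCard R, wt ρ I T * (‖∑ s ∈ T, ξ s‖ ^ 2 - K) := by
    simp_rw [WindowExp_Yw]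
    rw [integral_finsetSum]
    · refine Finset.sum_congr rfl (fun T hT => ?_)
      have hTI : T ⊆ I := (Finset.mem_powersetCard.1 hT).1.trans hA
      rw [integral_indicator_const _ (measurableSet_tr_eq h I T hI), smul_eq_mul, Measure.real,
        prob_tr_eq h hρ I T hI hTI, ENNReal.toReal_ofReal (WindowExp_wt_nonneg hρ I T hI hTI)]
    · intro T _
      exact (integrable_const _).indicator (measurableSet_tr_eq h I T hI)
  rw [e1]
  have h2 := sum_powersetCard_norm_sq A R hR hAR ξ hξ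
  have h3 : ∑ T ∈ A.powersetCard R, (q * ‖∑ s ∈ T, ξ s‖ ^ 2 - 2 * q * K) ≤
      ∑ T ∈ A.powersetCard R, wt ρ I T * (‖∑ s ∈ T, ξ s‖ ^ 2 - K) := by
    refine Finset.sum_le_sum (fun T hT => ?_)
    obtain ⟨hT1, hT2⟩ := Finset.mem_powersetCard.1 hT
    obtain ⟨h4, h5⟩ := hq T hT1 hT2
    have h6 : 0 ≤ ‖∑ s ∈ T, ξ s‖ ^ 2 := sq_nonneg _
    nlinarith [mul_le_mul_of_nonneg_right h4 h6, mul_le_mul_of_nonneg_right h5 hK0]
  refine le_trans ?_ h3
  rw [Finset.sum_sub_distrib, Finset.sum_const, Finset.card_powersetCard, ← Finset.mul_sum,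
    nsmul_eq_mul]
  have h7 := mul_le_mul_of_nonneg_left h2 hq0
  have h8 : 0 ≤ q * (A.card.choose R : ℝ) := mul_nonneg hq0 (Nat.cast_nonneg _)
  nlinarith [mul_le_mul_of_nonneg_left hK h8]

end Pool.Agent.H87D
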