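import Pool.Agent.H87D.Defs

/-!
Selection of many windows of length `W` in `(X/2, X]` which contain many elements of a given set
`Q` and on which the non-increasing sequence `ρ` is almost constant.

PROOF PLAN.  `J0 = (X - X/2) / W` windows `j < J0`, `m j` = number of elements of `Q` in window `j`,
`σ X / 2 <= |Q| <= ∑ m j + W`, `m j <= W`.  If `G` is the set of `j` with `m j >= σ W / 4` then
`|G| W + J0 W σ / 4 + W >= σ X / 2`, so `|G| >= σ X / (4 W)` (use `W <= σ X / 32`, so `X >= 32`).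
Windows with `ρ (start) > (1 + ε) ρ (end)` have `ρ (start) - ρ (end) > ε ρ X`, and the sum of
`ρ (start) - ρ (end)` over `j < J0` telescopes to at most `ρ (X/2) - ρ X <= 4 ρ X`: there are at most
`4 / ε` of them.  `|J| >= σ X / (4 W) - 4 / ε >= σ X / (16 W)`.
-/

namespace Pool.Agent.H87D

open Finset

theorem WindowSel_cover (X W b : ℕ) (hW : 1 ≤ W) (hb : b ≤ X)
    (Q : Finset ℕ) (hQ : Q ⊆ Ioc b X) :
    Q.card ≤ ∑ j ∈ range ((X - b) / W), (Q ∩ Ioc (b + j * W) (b + (j + 1) * W)).card + W := by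
  classical
  set J0 := (X - b) / W with hJ0
  have hJ1 : J0 * W ≤ X - b := Nat.div_mul_le_self _ _
  have hJ2 : X - b < (J0 + 1) * W := by
    have := Nat.lt_div_mul_add (a := X - b) (b := W) (by omega)
    rw [← hJ0] at this
    rw [Nat.add_mul, one_mul]
    exact this
  have hsub : Q ⊆ (range J0).biUnion (fun j => Q ∩ Ioc (b + j * W) (b + (j + 1) * W)) ∪
      Ioc (b + J0 * W) X := by
    intro k hk
    have h1 := Finset.mem_Ioc.1 (hQ hk)
    rw [Finset.mem_union]
    by_cases h2 : b + J0 * W < k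
    · exact Or.inr (Finset.mem_Ioc.2 ⟨h2, h1.2⟩)
    · left
      rw [Finset.mem_biUnion]
      have h3 : (k - b - 1) / W * W ≤ k - b - 1 := Nat.div_mul_le_self _ _
      have h4 : k - b - 1 < ((k - b - 1) / W + 1) * W := by
        have := Nat.lt_div_mul_add (a := k - b - 1) (b := W) (by omega)
        rw [Nat.add_mul, one_mul]
        exact this
      refine ⟨(k - b - 1) / W, ?_, ?_⟩
      · rw [Finset.mem_range]
        by_contra hcon
        push Not at hcon
        have h5 : J0 * W ≤ (k - b - 1) / W * W := Nat.mul_le_mul_right W hcon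
        omega
      · rw [Finset.mem_inter, Finset.mem_Ioc]
        refine ⟨hk, ?_, ?_⟩
        · omega
        · omega
  have h1 := Finset.card_le_card hsub
  have h2 := Finset.card_union_le ((range J0).biUnion
    (fun j => Q ∩ Ioc (b + j * W) (b + (j + 1) * W))) (Ioc (b + J0 * W) X)
  have h3 : ((range J0).biUnion (fun j => Q ∩ Ioc (b + j * W) (b + (j + 1) * W))).card ≤
      ∑ j ∈ range J0, (Q ∩ Ioc (b + j * W) (b + (j + 1) * W)).card := Finset.card_biUnion_le
  have h4 : (Ioc (b + J0 * W) X).card ≤ W := by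
    rw [Nat.card_Ioc]
    rw [Nat.add_mul, one_mul] at hJ2
    omega
  omega

theorem WindowSel_bad (X W b J0 : ℕ) (hb : 1 ≤ b) (hJ : b + J0 * W ≤ X) (ρ : ℕ → ℝ) (hρ : Dens ρ)
    (ε : ℝ) (hε : 0 < ε) (hpos : 0 < ρ X) (hreg : ρ b ≤ 5 * ρ X) (B : Finset ℕ)
    (hB : B ⊆ range J0) (hB2 : ∀ j ∈ B, ¬ ρ (b + j * W) ≤ (1 + ε) * ρ (b + (j + 1) * W)) :
    (B.card : ℝ) ≤ 4 / ε := by
  have hle : ∀ j ∈ range J0, b + (j + 1) * W ≤ X := by
    intro j hj
    have h1 : (j + 1) * W ≤ J0 * W := Nat.mul_le_mul_right W (Finset.mem_range.1 hj)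
    omega
  have hdiff : ∀ j ∈ range J0, 0 ≤ ρ (b + j * W) - ρ (b + (j + 1) * W) := by
    intro j _
    have h1 : b + j * W ≤ b + (j + 1) * W := by
      rw [Nat.add_mul, one_mul]
      omega
    have := hρ.anti (b + j * W) (b + (j + 1) * W) (by omega) h1
    linarith
  have hsum : ∑ j ∈ range J0, (ρ (b + j * W) - ρ (b + (j + 1) * W)) =
      ρ (b + 0 * W) - ρ (b + J0 * W) :=
    Finset.sum_range_sub' (fun j => ρ (b + j * W)) J0
  have h1 : (B.card : ℝ) * (ε * ρ X) ≤ ∑ j ∈ B, (ρ (b + j * W) - ρ (b + (j + 1) * W)) := by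
    rw [← nsmul_eq_mul, ← Finset.sum_const]
    refine Finset.sum_le_sum (fun j hj => ?_)
    have h2 := hB2 j hj
    push Not at h2
    have h3 := hρ.anti (b + (j + 1) * W) X (by omega) (hle j (hB hj))
    nlinarith [mul_le_mul_of_nonneg_left h3 hε.le]
  have h2 := Finset.sum_le_sum_of_subset_of_nonneg hB (fun j hj _ => hdiff j hj)
  have h3 := hρ.anti (b + J0 * W) X (by omega) hJ
  rw [hsum, Nat.zero_mul, Nat.add_zero] at h2
  have h4 : (B.card : ℝ) * (ε * ρ X) ≤ 4 * ρ X := by linarith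
  rw [le_div_iff₀ hε]
  have h5 : ((B.card : ℝ) * ε) * ρ X ≤ 4 * ρ X := by rw [mul_assoc]; exact h4
  exact le_of_mul_le_mul_right h5 hpos

theorem window_selection (X W : ℕ) (hW : 1 ≤ W) (ρ : ℕ → ℝ) (hρ : Dens ρ) (σ ε : ℝ)
    (hε : 0 < ε) (hσ0 : 0 < σ) (hσ1 : σ ≤ 1) (hpos : 0 < ρ X) (hreg : ρ (X / 2) ≤ 5 * ρ X)
    (Q : Finset ℕ) (hQ : Q ⊆ Ioc (X / 2) X) (hQc : σ * X / 2 ≤ Q.card)
    (h1 : (W : ℝ) ≤ σ * X / 32) (h2 : 4 / ε + 1 ≤ σ * X / (16 * W)) :
    ∃ J : Finset ℕ, σ * X / (16 * W) ≤ J.card ∧ ∀ j ∈ J,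
      X / 2 + (j + 1) * W ≤ X ∧
      σ * W / 4 ≤ ((Q ∩ Ioc (X / 2 + j * W) (X / 2 + (j + 1) * W)).card : ℝ) ∧
      ρ (X / 2 + j * W) ≤ (1 + ε) * ρ (X / 2 + (j + 1) * W) := by
  classical
  have hW' : (1 : ℝ) ≤ W := by exact_mod_cast hW
  have hX0 : (0 : ℝ) ≤ X := Nat.cast_nonneg X
  have hX32 : (32 : ℝ) ≤ X := by nlinarith
  have hX32' : 32 ≤ X := by exact_mod_cast hX32
  have hb1 : 1 ≤ X / 2 := by omega
  have hbX : X / 2 ≤ X := Nat.div_le_self _ _
  have hcov := WindowSel_cover X W (X / 2) hW hbX Q hQ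
  set b := X / 2 with hb
  set J0 := (X - b) / W with hJ0
  have hJ1 : J0 * W ≤ X - b := Nat.div_mul_le_self _ _
  set m : ℕ → ℕ := fun j => (Q ∩ Ioc (b + j * W) (b + (j + 1) * W)).card with hm
  have hmW : ∀ j, m j ≤ W := by
    intro j
    refine (Finset.card_le_card Finset.inter_subset_right).trans ?_
    rw [Nat.card_Ioc, Nat.add_mul, one_mul]
    omega
  set G := (range J0).filter (fun j => σ * W / 4 ≤ (m j : ℝ)) with hG
  set B := (range J0).filter (fun j => ¬ ρ (b + j * W) ≤ (1 + ε) * ρ (b + (j + 1) * W)) with hB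
  have hBc : (B.card : ℝ) ≤ 4 / ε := by
    refine WindowSel_bad X W b J0 hb1 (by omega) ρ hρ ε hε hpos hreg B (Finset.filter_subset _ _) ?_
    intro j hj
    exact (Finset.mem_filter.1 hj).2
  have hsumm : (∑ j ∈ range J0, m j : ℕ) ≤ (G.card : ℝ) * W + J0 * (σ * W / 4) := by
    push_cast
    rw [← Finset.sum_filter_add_sum_filter_not (range J0) (fun j => σ * W / 4 ≤ (m j : ℝ))]
    refine add_le_add ?_ ?_
    · rw [← nsmul_eq_mul, ← Finset.sum_const]
      exact Finset.sum_le_sum (fun j _ => by exact_mod_cast hmW j)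
    · have h3 : ∑ j ∈ (range J0).filter (fun j => ¬ σ * W / 4 ≤ (m j : ℝ)), (m j : ℝ) ≤
          ∑ j ∈ (range J0).filter (fun j => ¬ σ * W / 4 ≤ (m j : ℝ)), (σ * W / 4) :=
        Finset.sum_le_sum (fun j hj => by
          have := (Finset.mem_filter.1 hj).2
          push Not at this
          exact this.le)
      refine h3.trans ?_
      rw [Finset.sum_const, nsmul_eq_mul]
      refine mul_le_mul_of_nonneg_right ?_ (by positivity)
      have h4 := Finset.card_le_card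
        (Finset.filter_subset (fun j => ¬ σ * W / 4 ≤ (m j : ℝ)) (range J0))
      rw [Finset.card_range] at h4
      exact_mod_cast h4
  have hcov' : (Q.card : ℝ) ≤ (∑ j ∈ range J0, m j : ℕ) + W := by exact_mod_cast hcov
  have hJW : (J0 : ℝ) * W ≤ (X + 1) / 2 := by
    have h3 : 2 * (J0 * W) ≤ X + 1 := by omega
    have h4 : (2 : ℝ) * (J0 * W) ≤ X + 1 := by exact_mod_cast h3
    linarith
  have hGc : σ * X / (4 * W) ≤ (G.card : ℝ) := by
    rw [div_le_iff₀ (by positivity)]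
    have h5 : (J0 : ℝ) * (σ * W / 4) ≤ σ * (X + 1) / 8 := by
      have := mul_le_mul_of_nonneg_left hJW hσ0.le
      nlinarith
    have h6 : σ * 32 ≤ σ * X := mul_le_mul_of_nonneg_left hX32 hσ0.le
    nlinarith
  refine ⟨G \ B, ?_, ?_⟩
  · have h3 : G.card ≤ (G \ B).card + B.card := by
      have := Finset.le_card_sdiff B G
      omega
    have h4 : (G.card : ℝ) ≤ ((G \ B).card : ℝ) + B.card := by exact_mod_cast h3
    have h5 : σ * X / (4 * W) = 4 * (σ * X / (16 * W)) := by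
      field_simp
      norm_num
    have h6 : 0 ≤ σ * X / (16 * W) := by positivity
    rw [h5] at hGc
    linarith
  · intro j hj
    obtain ⟨hjG, hjB⟩ := Finset.mem_sdiff.1 hj
    obtain ⟨hj1, hj2⟩ := Finset.mem_filter.1 hjG
    refine ⟨?_, hj2, ?_⟩
    · have h3 : (j + 1) * W ≤ J0 * W := Nat.mul_le_mul_right W (Finset.mem_range.1 hj1)
      omega
    · by_contra hcon
      exact hjB (Finset.mem_filter.2 ⟨hj1, hcon⟩)

end Pool.Agent.H87D
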