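import Pool.Agent.H87D.OneScale
import Pool.Agent.H87D.WindowExp
import Pool.Agent.H87D.WindowSel
import Pool.Agent.H87D.QB
import Pool.Agent.H87D.Supply

/-!
At a regular scale the probability that some unimodular function has discrepancy at most `C`
along the random set is at most `1 / X`.

PROOF PLAN.  `K = 4 C^2 + 1`, `R = ⌈4 K + 2⌉`, `b = 85 R`, `η' = η/2`,
`ε = min (η/2) (1/(2 (R + b/η')))`, `A` large depending on `R, η`; `lam, X0` from `supply`.
`W = ⌈16 R/ρ X⌉₊ <= 17 R/ρ X`, `Q = flt (Sm y) (Ioc (X/2) X)`, windows from `window_selection`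
(`h1`, `h2` follow from `X ρ σ^(2R+1) >= A (y+1) (log X)^2 >= A`, `σ <= 1`).
In a window `I = Ioc (X/2+jW) (X/2+(j+1)W)` put `r = ρ (X/2+(j+1)W)` (`ρ X <= r <= 5 ρ X`), `A j = Q ∩ I`:
`|A j| >= σ W/4 >= 4 R σ/ρ X >= 2 R` (as `ρ X <= 2 σ`), `r W <= 85 R = b`,
`(1+ε) r <= (1+ε)(1-η) <= 1 - η'`.  `q_bounds` + `expectation_Yw` give
`E Yw >= r^R exp (-2b/η') choose |A j| R >= (r |A j|/R)^R exp (-2b/η') >= (4σ)^R exp (-2b/η')
>= β := σ^R exp (-2b/η')` (`choose m R >= (m/R)^R`).  `one_scale` with `E = Nat.log 2 X`,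
`M = R^2 (y+1) E + 1 <= X^3` (large `X`): the probability is at most
`X^(3(y+1)) exp (-2 |J| β^2/(R^2+K)^2)`, `|J| β^2 >= (σ X/(16 W)) σ^(2R) exp (-4b/η')
>= c X ρ σ^(2R+1) >= c A (y+1) (log X)^2`, and this is at most `1/X` when `A` is large.
-/

namespace Pool.Agent.H87D

open MeasureTheory ProbabilityTheory Finset

theorem GoodScale_choose (m R : ℕ) (hR : 1 ≤ R) (h : 2 * R ≤ m) :
    ((m : ℝ) / (2 * R)) ^ R ≤ (m.choose R : ℝ) := by
  have h1 : (m + 1 - R) ^ R ≤ R.factorial * m.choose R := by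
    have := Nat.pow_sub_le_descFactorial m R
    rwa [Nat.descFactorial_eq_factorial_mul_choose] at this
  have h2 : R.factorial ≤ R ^ R := Nat.factorial_le_pow R
  have h3 : (m + 1 - R) ^ R ≤ R ^ R * m.choose R :=
    h1.trans (Nat.mul_le_mul_right _ h2)
  have h4 : (((m + 1 - R : ℕ) : ℝ)) ^ R ≤ (R : ℝ) ^ R * (m.choose R : ℝ) := by exact_mod_cast h3
  have hR0 : (0 : ℝ) < R := by exact_mod_cast hR
  have h5 : (m : ℝ) / 2 ≤ ((m + 1 - R : ℕ) : ℝ) := by
    have : m ≤ 2 * (m + 1 - R) := by omega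
    have : (m : ℝ) ≤ 2 * ((m + 1 - R : ℕ) : ℝ) := by exact_mod_cast this
    linarith
  have h6 : ((m : ℝ) / 2) ^ R ≤ (R : ℝ) ^ R * (m.choose R : ℝ) :=
    (pow_le_pow_left₀ (by positivity) h5 R).trans h4
  rw [show (m : ℝ) / (2 * R) = ((m : ℝ) / 2) / R by field_simp, div_pow,
    div_le_iff₀ (by positivity)]
  linarith

theorem GoodScale_log {X s p : ℕ} (hs0 : s ≠ 0) (hs : s ≤ X) :
    s.factorization p ≤ Nat.log 2 X := by
  by_cases hp : p.Prime
  · refine le_trans ?_ (Nat.log_mono_right hs)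
    refine Nat.le_log_of_pow_le (by norm_num) ?_
    calc 2 ^ s.factorization p ≤ p ^ s.factorization p :=
          Nat.pow_le_pow_left hp.two_le _
      _ ≤ s := Nat.le_of_dvd (Nat.pos_of_ne_zero hs0) (Nat.ordProj_dvd s p)
  · rw [Nat.factorization_eq_zero_of_not_prime _ hp]
    exact Nat.zero_le _

/-- The numerical estimate at the end of the proof. -/
theorem GoodScale_num (X y M : ℕ) (T : ℝ) (hX : 3 ≤ Real.log X) (hM : M ≤ X ^ 3)
    (hT : 4 * ((y : ℝ) + 1) * Real.log X ≤ T) :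
    (M : ℝ) ^ (y + 1) * Real.exp (-T) ≤ 1 / X := by
  have hX0 : (0 : ℝ) < X := by
    by_contra hcon
    have : (X : ℝ) = 0 := le_antisymm (not_lt.mp hcon) (Nat.cast_nonneg _)
    rw [this, Real.log_zero] at hX
    norm_num at hX
  have h1 : (M : ℝ) ≤ Real.exp (3 * Real.log X) := by
    have : (M : ℝ) ≤ (X : ℝ) ^ 3 := by exact_mod_cast hM
    rw [show 3 * Real.log X = Real.log ((X : ℝ) ^ 3) by rw [Real.log_pow]; norm_num,
      Real.exp_log (by positivity)]
    exact this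
  have h2 : (M : ℝ) ^ (y + 1) ≤ Real.exp (((y : ℝ) + 1) * (3 * Real.log X)) := by
    calc (M : ℝ) ^ (y + 1) ≤ (Real.exp (3 * Real.log X)) ^ (y + 1) :=
          pow_le_pow_left₀ (Nat.cast_nonneg _) h1 _
      _ = Real.exp (((y : ℝ) + 1) * (3 * Real.log X)) := by
          rw [← Real.exp_nat_mul]; push_cast; ring_nf
  have h3 : 1 / (X : ℝ) = Real.exp (-Real.log X) := by
    rw [Real.exp_neg, Real.exp_log hX0, one_div]
  rw [h3]
  calc (M : ℝ) ^ (y + 1) * Real.exp (-T)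
      ≤ Real.exp (((y : ℝ) + 1) * (3 * Real.log X)) * Real.exp (-T) :=
        mul_le_mul_of_nonneg_right h2 (Real.exp_pos _).le
    _ = Real.exp (((y : ℝ) + 1) * (3 * Real.log X) + -T) := by rw [Real.exp_add]
    _ ≤ Real.exp (-Real.log X) := by
        refine Real.exp_le_exp.mpr ?_
        have hy : (0 : ℝ) ≤ y := Nat.cast_nonneg y
        nlinarith

theorem good_scale (C : ℝ) (hC : 0 ≤ C) (η : ℝ) (hη0 : 0 < η) (hη1 : η ≤ 1) :
    ∃ lam : ℝ, ∃ X0 : ℕ, ∀ {Ω : Type*} [MeasurableSpace Ω] (P : Measure Ω)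
      [IsProbabilityMeasure P] (ρ : ℕ → ℝ) (S : Ω → Set ℕ), IsRandomSet P ρ S → Dens ρ →
      ∀ X : ℕ, X0 ≤ X → ρ (X / 2) ≤ 1 - η → ρ (X / 2) ≤ 5 * ρ X →
      Real.exp (lam * Lf X) ≤ X * ρ X →
      P {ω | ∃ a : ℕ → ℂ, (∀ k, 1 ≤ k → ‖a k‖ = 1) ∧ DiscLe (S ω) a C} ≤
        ENNReal.ofReal (1 / X) := by
  -- constants
  set K : ℝ := 4 * C ^ 2 + 1 with hK
  have hK1 : 1 ≤ K := by nlinarith [sq_nonneg C]
  obtain ⟨R, hRK⟩ := exists_nat_ge (4 * K + 2)
  have hR6 : (6 : ℝ) ≤ R := by linarith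
  have hR1 : 1 ≤ R := by
    have : (1 : ℝ) ≤ R := by linarith
    exact_mod_cast this
  have hR0 : (0 : ℝ) < R := by linarith
  set b : ℝ := 85 * R with hb
  set η' : ℝ := η / 2 with hη'
  have hη'0 : 0 < η' := by positivity
  set ε : ℝ := min (η / 2) (1 / (2 * (R + b / η'))) with hε
  have hb0 : 0 < b := by positivity
  have hε0 : 0 < ε := lt_min (by positivity) (by positivity)
  have hε1 : ε ≤ η / 2 := min_le_left _ _
  have hε2 : ε * (R + b / η') ≤ 1 / 2 := by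
    have h1 : ε ≤ 1 / (2 * (R + b / η')) := min_le_right _ _
    have h2 : 0 < R + b / η' := by positivity
    calc ε * (R + b / η') ≤ 1 / (2 * (R + b / η')) * (R + b / η') :=
          mul_le_mul_of_nonneg_right h1 h2.le
      _ = 1 / 2 := by field_simp
  set c1 : ℝ := Real.exp (-(2 * b / η')) with hc1
  have hc10 : 0 < c1 := Real.exp_pos _
  set D : ℝ := c1 ^ 2 / (136 * R * ((R : ℝ) ^ 2 + K) ^ 2) with hD
  have hD0 : 0 < D := by positivity
  set A : ℝ := max (544 * R) (max (272 * R * (4 / ε + 1)) (4 / D)) with hA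
  have hA1 : 544 * (R : ℝ) ≤ A := le_max_left _ _
  have hA2 : 272 * R * (4 / ε + 1) ≤ A := le_trans (le_max_left _ _) (le_max_right _ _)
  have hA3 : 4 / D ≤ A := le_trans (le_max_right _ _) (le_max_right _ _)
  have hA0 : 0 < A := by linarith
  obtain ⟨lam, X0, hsup⟩ := supply R hR1 A
  -- a lower bound on `X` which makes `log X ≥ 3`
  refine ⟨lam, max X0 (4 * R ^ 2 + 100), ?_⟩
  intro Ω _ P _ ρ S hS hρ X hX hη hreg hexp
  have hXX0 : X0 ≤ X := le_trans (le_max_left _ _) hX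
  have hXR : 4 * R ^ 2 + 100 ≤ X := le_trans (le_max_right _ _) hX
  have hX100 : 100 ≤ X := by omega
  have hX1 : (100 : ℝ) ≤ X := by exact_mod_cast hX100
  have hXpos : (0 : ℝ) < X := by linarith
  have hlogX : 3 ≤ Real.log X := by
    rw [Real.le_log_iff_exp_le hXpos]
    have h1 : Real.exp 3 = Real.exp 1 ^ 3 := by rw [← Real.exp_nat_mul]; norm_num
    have h2 := Real.exp_one_lt_d9
    have h3 : Real.exp 1 ^ 3 ≤ 2.7182818286 ^ 3 :=
      pow_le_pow_left₀ (Real.exp_pos 1).le h2.le 3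
    rw [h1]
    refine h3.trans ?_
    norm_num
    linarith
  have hρX : 0 < ρ X := by
    have h1 : 0 < (X : ℝ) * ρ X := lt_of_lt_of_le (Real.exp_pos _) hexp
    exact (pos_iff_pos_of_mul_pos h1).mp hXpos
  have hρX1 : ρ X ≤ 1 := hρ.le_one X (by omega)
  obtain ⟨y, σ, hyX, hσ0, hσ1, hcount, hρσ, hsupply⟩ := hsup X hXX0 (ρ X) hρX hρX1 hexp
  have hy0 : (0 : ℝ) ≤ y := Nat.cast_nonneg y
  -- consequences of the supply inequality
  have hlog1 : 1 ≤ (Real.log X) ^ 2 := one_le_pow₀ (by linarith)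
  have hN1 : A * ((y : ℝ) + 1) * (Real.log X) ^ 2 ≤ X * ρ X * σ ^ (2 * R + 1) := hsupply
  have hσpow : σ ^ (2 * R + 1) ≤ σ := by
    calc σ ^ (2 * R + 1) ≤ σ ^ 1 := pow_le_pow_of_le_one hσ0.le hσ1 (by omega)
      _ = σ := pow_one σ
  have hN2 : A ≤ X * ρ X * σ := by
    have h1 : A ≤ A * ((y : ℝ) + 1) * (Real.log X) ^ 2 := by
      have h2 : 1 ≤ ((y : ℝ) + 1) * (Real.log X) ^ 2 :=
        one_le_mul_of_one_le_of_one_le (by linarith) hlog1
      calc A = A * 1 := (mul_one A).symm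
        _ ≤ A * (((y : ℝ) + 1) * (Real.log X) ^ 2) := mul_le_mul_of_nonneg_left h2 hA0.le
        _ = A * ((y : ℝ) + 1) * (Real.log X) ^ 2 := by ring
    have h3 : X * ρ X * σ ^ (2 * R + 1) ≤ X * ρ X * σ :=
      mul_le_mul_of_nonneg_left hσpow (by positivity)
    linarith
  -- the window length
  set W : ℕ := ⌈16 * (R : ℝ) / ρ X⌉₊ with hW
  have hRρ : (R : ℝ) ≤ R / ρ X := by
    rw [le_div_iff₀ hρX]
    exact mul_le_of_le_one_right hR0.le hρX1
  have hW1 : 16 * (R : ℝ) / ρ X ≤ W := Nat.le_ceil _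
  have hW2 : (W : ℝ) ≤ 17 * R / ρ X := by
    have h1 : (W : ℝ) < 16 * (R : ℝ) / ρ X + 1 := Nat.ceil_lt_add_one (by positivity)
    have h2 : 17 * (R : ℝ) / ρ X = 16 * (R : ℝ) / ρ X + R / ρ X := by ring
    linarith
  have hW0 : (0 : ℝ) < W := lt_of_lt_of_le (by positivity) hW1
  have hWnat : 1 ≤ W := by exact_mod_cast hW0
  have hWρ : (W : ℝ) * ρ X ≤ 17 * R := by
    rw [le_div_iff₀ hρX] at hW2; exact hW2
  have hWρ' : 16 * (R : ℝ) ≤ W * ρ X := by
    rw [div_le_iff₀ hρX] at hW1; exact hW1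
  have hk1 : (W : ℝ) ≤ σ * X / 32 := by
    have h1 : (W : ℝ) * ρ X ≤ σ * X / 32 * ρ X := by
      have h2 : 544 * (R : ℝ) ≤ X * ρ X * σ := hA1.trans hN2
      have h3 : σ * X / 32 * ρ X = X * ρ X * σ / 32 := by ring
      rw [h3]
      linarith
    exact le_of_mul_le_mul_right h1 hρX
  have hk2 : 4 / ε + 1 ≤ σ * X / (16 * W) := by
    rw [le_div_iff₀ (by positivity)]
    have h1 : (4 / ε + 1) * (16 * W) * ρ X ≤ σ * X * ρ X := by
      have h2 : 272 * R * (4 / ε + 1) ≤ X * ρ X * σ := hA2.trans hN2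
      have h3 : 0 < 4 / ε + 1 := by positivity
      have h4 : (4 / ε + 1) * 16 * (W * ρ X) ≤ (4 / ε + 1) * 16 * (17 * R) :=
        mul_le_mul_of_nonneg_left hWρ (by positivity)
      calc (4 / ε + 1) * (16 * W) * ρ X = (4 / ε + 1) * 16 * (W * ρ X) := by ring
        _ ≤ (4 / ε + 1) * 16 * (17 * R) := h4
        _ = 272 * R * (4 / ε + 1) := by ring
        _ ≤ X * ρ X * σ := h2
        _ = σ * X * ρ X := by ring
    exact le_of_mul_le_mul_right h1 hρX
  set Q := flt (Sm y) (Ioc (X / 2) X) with hQ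
  have hQsub : Q ⊆ Ioc (X / 2) X := fun s hs => (mem_flt.mp hs).1
  obtain ⟨J, hJcard, hJ⟩ := window_selection X W hWnat ρ hρ σ ε hε0 hσ0 hσ1 hρX hreg Q hQsub
    hcount hk1 hk2
  -- the parameters of the one-scale bound
  set β : ℝ := σ ^ R * c1 with hβ
  have hβ0 : 0 ≤ β := by positivity
  set E := Nat.log 2 X with hE
  set M := R ^ 2 * (y + 1) * E + 1 with hM
  have hone := one_scale (P := P) (ρ := ρ) (S := S) hS C hC y E R M hR1 (Nat.le_succ _)
    (Nat.le_add_left 1 _) J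
    (fun j => X / 2 + j * W) (fun j => X / 2 + (j + 1) * W)
    (fun j => Q ∩ Ioc (X / 2 + j * W) (X / 2 + (j + 1) * W)) ?_ ?_ ?_ β hβ0 ?_
  · refine hone.trans (ENNReal.ofReal_le_ofReal ?_)
    have hMX : M ≤ X ^ 3 := by
      have h1 : E ≤ X := Nat.log_le_self 2 X
      have h2 : R ^ 2 * (y + 1) * E ≤ R ^ 2 * (X + 1) * X := by gcongr
      have h3 : 4 * R ^ 2 ≤ X := by omega
      have h4 : R ^ 2 * (X + 1) * X + 1 ≤ 4 * R ^ 2 * (X * X) := by
        have hR2 : 1 ≤ R ^ 2 := Nat.one_le_pow _ _ hR1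
        have hXX1 : 1 ≤ X * X := Nat.mul_pos (by omega) (by omega)
        calc R ^ 2 * (X + 1) * X + 1 ≤ R ^ 2 * (X + X) * X + R ^ 2 * (X * X) := by
              refine Nat.add_le_add ?_ ?_
              · exact Nat.mul_le_mul_right _ (Nat.mul_le_mul_left _ (by omega))
              · exact Nat.mul_pos (by omega) (by omega)
          _ = 3 * R ^ 2 * (X * X) := by ring
          _ ≤ 4 * R ^ 2 * (X * X) :=
              Nat.mul_le_mul_right _ (Nat.mul_le_mul_right _ (by norm_num))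
      have h5 : 4 * R ^ 2 * (X * X) ≤ X * (X * X) := Nat.mul_le_mul_right _ h3
      calc M ≤ R ^ 2 * (X + 1) * X + 1 := by rw [hM]; omega
        _ ≤ X * (X * X) := h4.trans h5
        _ = X ^ 3 := by ring
    rw [show -2 * (J.card : ℝ) * β ^ 2 / ((R : ℝ) ^ 2 + (4 * C ^ 2 + 1)) ^ 2
      = -(2 * (J.card : ℝ) * β ^ 2 / ((R : ℝ) ^ 2 + K) ^ 2) by rw [hK]; ring]
    refine GoodScale_num X y M _ hlogX hMX ?_
    have h1 : D * (X * ρ X * σ ^ (2 * R + 1)) ≤ 2 * (J.card : ℝ) * β ^ 2 / ((R : ℝ) ^ 2 + K) ^ 2 := by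
      have h2 : σ * X * ρ X / (272 * R) ≤ J.card := by
        refine le_trans ?_ hJcard
        rw [div_le_div_iff₀ (by positivity) (by positivity)]
        have h9 : σ * X * 16 * (W * ρ X) ≤ σ * X * 16 * (17 * R) :=
          mul_le_mul_of_nonneg_left hWρ (by positivity)
        calc σ * X * ρ X * (16 * W) = σ * X * 16 * (W * ρ X) := by ring
          _ ≤ σ * X * 16 * (17 * R) := h9
          _ = σ * X * (272 * R) := by ring
      have h3 : β ^ 2 = σ ^ (2 * R) * c1 ^ 2 := by rw [hβ]; ring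
      rw [h3, le_div_iff₀ (by positivity)]
      have h4 : D * (X * ρ X * σ ^ (2 * R + 1)) * ((R : ℝ) ^ 2 + K) ^ 2
          = 2 * (σ * X * ρ X / (272 * R)) * (σ ^ (2 * R) * c1 ^ 2) := by
        rw [hD, pow_succ]
        field_simp
        ring
      rw [h4]
      gcongr
    refine le_trans ?_ h1
    have h5 : 4 ≤ D * A := by
      rw [div_le_iff₀ hD0] at hA3; linarith
    calc 4 * ((y : ℝ) + 1) * Real.log X ≤ 4 * ((y : ℝ) + 1) * (Real.log X) ^ 2 := by
          have : Real.log X ≤ (Real.log X) ^ 2 := by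
            rw [pow_two]; exact le_mul_of_one_le_left (by linarith) (by linarith)
          gcongr
      _ ≤ D * A * ((y : ℝ) + 1) * (Real.log X) ^ 2 := by gcongr
      _ = D * (A * ((y : ℝ) + 1) * (Real.log X) ^ 2) := by ring
      _ ≤ D * (X * ρ X * σ ^ (2 * R + 1)) := mul_le_mul_of_nonneg_left hN1 hD0.le
  · intro j _
    have : j * W ≤ (j + 1) * W := Nat.mul_le_mul_right _ (Nat.le_succ j)
    exact Nat.add_le_add_left this _
  · intro i _ j _ hij
    have key : ∀ i j : ℕ, i < j → Disjoint (Ioc (X / 2 + i * W) (X / 2 + (i + 1) * W))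
        (Ioc (X / 2 + j * W) (X / 2 + (j + 1) * W)) := by
      intro i j hij
      rw [Finset.disjoint_left]
      intro s hs hs'
      rw [mem_Ioc] at hs hs'
      have : (i + 1) * W ≤ j * W := Nat.mul_le_mul_right _ hij
      omega
    rcases Nat.lt_or_gt_of_ne hij with h | h
    · exact key i j h
    · exact (key j i h).symm
  · intro j _ s hs
    rw [mem_inter, hQ, mem_flt, mem_Ioc] at hs
    exact ⟨hs.1.2, fun p => GoodScale_log hs.1.2.1 hs.1.1.2⟩
  · intro j hj ξ hξ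
    obtain ⟨hjX, hjm, hjρ⟩ := hJ j hj
    set I := Ioc (X / 2 + j * W) (X / 2 + (j + 1) * W) with hI
    set r := ρ (X / 2 + (j + 1) * W) with hr
    have hcardI : I.card = W := by
      rw [hI, Nat.card_Ioc, Nat.add_mul, one_mul]; omega
    have hI1 : ∀ k ∈ I, 1 ≤ k := by
      intro k hk; rw [hI, mem_Ioc] at hk; omega
    have hlow : ∀ k ∈ I, r ≤ ρ k := by
      intro k hk
      have hk1 := hI1 k hk
      rw [hI, mem_Ioc] at hk
      exact hρ.anti k _ hk1 hk.2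
    have hup : ∀ k ∈ I, ρ k ≤ (1 + ε) * r := by
      intro k hk
      rw [hI, mem_Ioc] at hk
      exact (hρ.anti _ k (by omega) hk.1.le).trans hjρ
    have hrX : ρ X ≤ r := hρ.anti _ X (by omega) hjX
    have hr0 : 0 < r := lt_of_lt_of_le hρX hrX
    have hrh : r ≤ ρ (X / 2) := hρ.anti _ _ (by omega) (Nat.le_add_right _ _)
    have hr5 : r ≤ 5 * ρ X := hrh.trans hreg
    have hr1 : (1 + ε) * r ≤ 1 - η' := by
      have h1 : r ≤ 1 - η := hrh.trans hη
      have h2 : ε * r ≤ ε * 1 := mul_le_mul_of_nonneg_left (by linarith) hε0.le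
      have h3 : (1 + ε) * r = r + ε * r := by ring
      rw [h3, hη']
      linarith
    have hbI : r * I.card ≤ b := by
      rw [hcardI, hb]
      calc r * (W : ℝ) ≤ 5 * ρ X * W := mul_le_mul_of_nonneg_right hr5 hW0.le
        _ = 5 * (W * ρ X) := by ring
        _ ≤ 85 * R := by linarith
    have hAsub : Q ∩ I ⊆ I := Finset.inter_subset_right
    obtain ⟨q, hq1, hq2⟩ := q_bounds ρ I (Q ∩ I) hAsub R hR1 η' r ε b hη'0 (by linarith) hr0
      hε0.le hlow hup hr1 hbI hε2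
    have hq0 : 0 ≤ q := le_trans (by positivity) hq1
    have hm4 : 4 * R * σ ≤ (Q ∩ I).card * ρ X := by
      have h1 : σ * W / 4 * ρ X ≤ (Q ∩ I).card * ρ X :=
        mul_le_mul_of_nonneg_right hjm hρX.le
      have h2 : σ / 4 * (16 * R) ≤ σ / 4 * (W * ρ X) :=
        mul_le_mul_of_nonneg_left hWρ' (by positivity)
      calc 4 * R * σ = σ / 4 * (16 * R) := by ring
        _ ≤ σ / 4 * (W * ρ X) := h2
        _ = σ * W / 4 * ρ X := by ring
        _ ≤ (Q ∩ I).card * ρ X := h1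
    have hm2 : 2 * R ≤ (Q ∩ I).card := by
      have h1 : 2 * (R : ℝ) * ρ X ≤ (Q ∩ I).card * ρ X := by
        have h3 : 2 * (R : ℝ) * ρ X ≤ 2 * (R : ℝ) * (2 * σ) :=
          mul_le_mul_of_nonneg_left hρσ (by positivity)
        linarith
      have h2 := le_of_mul_le_mul_right h1 hρX
      exact_mod_cast h2
    have hexpY := expectation_Yw (P := P) hS hρ I (Q ∩ I) hI1 hAsub R hR1 hm2 K (by linarith)
      hRK ξ (fun n _ => hξ n) q hq0 hq2
    refine le_trans ?_ hexpY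
    have hch := GoodScale_choose (Q ∩ I).card R hR1 hm2
    calc β = c1 * σ ^ R := by rw [hβ]; ring
      _ ≤ c1 * (r * ((Q ∩ I).card / (2 * R))) ^ R := by
          refine mul_le_mul_of_nonneg_left (pow_le_pow_left₀ hσ0.le ?_ R) hc10.le
          rw [← mul_div_assoc, le_div_iff₀ (by positivity)]
          have h1 : ((Q ∩ I).card : ℝ) * ρ X ≤ (Q ∩ I).card * r :=
            mul_le_mul_of_nonneg_left hrX (Nat.cast_nonneg _)
          have h2 : 0 ≤ (R : ℝ) * σ := by positivity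
          calc σ * (2 * (R : ℝ)) ≤ 4 * R * σ := by linarith
            _ ≤ (Q ∩ I).card * ρ X := hm4
            _ ≤ (Q ∩ I).card * r := h1
            _ = r * (Q ∩ I).card := by ring
      _ = (r ^ R * c1) * (((Q ∩ I).card : ℝ) / (2 * R)) ^ R := by rw [mul_pow]; ring
      _ ≤ q * ((Q ∩ I).card.choose R) := by
          exact mul_le_mul hq1 hch (by positivity) hq0

end Pool.Agent.H87D
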