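import Pool.Agent.H87D.Defs

/-!
Hoeffding's inequality for the sum of the window variables over disjoint windows.

PROOF PLAN.  `Yw` takes values in `[-K, R^2]`, is a function of `tr (S ω) (I j)` (finitely many
values, measurable), and the windows are disjoint, so the variables are independent: use
`iIndepSet` → `iIndepFun` of the indicators → `iIndepFun.finsets_comp` (or a direct argument).
Then `P (∑ (Yw - E Yw) <= -|J| β) <= exp (-2 (|J| β)^2 / (|J| (R^2+K)^2))` by Hoeffding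
(Mathlib: `ProbabilityTheory.hasSubgaussianMGF_of_mem_Icc` and
`HasSubgaussianMGF.measure_sum_ge_le_of_iIndepFun`, applied to `-(Yw - E Yw)`).
-/

namespace Pool.Agent.H87D

open MeasureTheory ProbabilityTheory Finset

variable {Ω : Type*} [MeasurableSpace Ω] {P : Measure Ω} [IsProbabilityMeasure P]
  {ρ : ℕ → ℝ} {S : Ω → Set ℕ}

/-- the indicator of `k + 1 ∈ S` -/
private noncomputable def Hoeff_f (S : Ω → Set ℕ) (k : ℕ) : Ω → ℕ :=
  ({ω | k + 1 ∈ S ω} : Set Ω).indicator fun _ => 1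

omit [MeasurableSpace Ω] in
private theorem Hoeff_f_eq (S : Ω → Set ℕ) (k : ℕ) (hk : 1 ≤ k) (ω : Ω) :
    Hoeff_f S (k - 1) ω = 1 ↔ k ∈ S ω := by
  classical
  unfold Hoeff_f
  rw [Nat.sub_add_cancel hk, Set.indicator_apply]
  by_cases h : k ∈ S ω
  · rw [if_pos (show ω ∈ {ω | k ∈ S ω} from h)]
    exact ⟨fun _ => h, fun _ => rfl⟩
  · rw [if_neg (show ω ∉ {ω | k ∈ S ω} from h)]
    exact ⟨fun h1 => absurd h1 (by norm_num), fun h1 => absurd h1 h⟩

omit [IsProbabilityMeasure P] in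
private theorem Hoeff_f_meas (h : IsRandomSet P ρ S) (k : ℕ) : Measurable (Hoeff_f S k) :=
  measurable_const.indicator (h.meas (k + 1) (by omega))

/-- the set which is reconstructed from the indicators -/
private def Hoeff_rec (T : Finset ℕ) (g : T → ℕ) : Set ℕ :=
  {k | 1 ≤ k ∧ ∃ hk : k - 1 ∈ T, g ⟨k - 1, hk⟩ = 1}

omit [MeasurableSpace Ω] in
private theorem Hoeff_fac (S : Ω → Set ℕ) (I : Finset ℕ) (hI : ∀ k ∈ I, 1 ≤ k) (G : Set ℕ → ℝ)
    (hG : ∀ U V : Set ℕ, (∀ k ∈ I, k ∈ U ↔ k ∈ V) → G U = G V) (ω : Ω) :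
    G (S ω) = G (Hoeff_rec (I.image (fun k => k - 1)) fun i => Hoeff_f S i ω) := by
  apply hG
  intro k hk
  have h1 : k - 1 ∈ I.image (fun k => k - 1) := Finset.mem_image.2 ⟨k, hk, rfl⟩
  constructor
  · intro h2
    exact ⟨hI k hk, h1, (Hoeff_f_eq S k (hI k hk) ω).2 h2⟩
  · rintro ⟨h2, h3, h4⟩
    exact (Hoeff_f_eq S k (hI k hk) ω).1 h4

omit [IsProbabilityMeasure P] in
private theorem Hoeff_meas (h : IsRandomSet P ρ S) (I : Finset ℕ) (hI : ∀ k ∈ I, 1 ≤ k)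
    (G : Set ℕ → ℝ) (hG : ∀ U V : Set ℕ, (∀ k ∈ I, k ∈ U ↔ k ∈ V) → G U = G V) :
    Measurable fun ω => G (S ω) := by
  have h1 : (fun ω => G (S ω)) =
      (fun g : (I.image (fun k => k - 1)) → ℕ => G (Hoeff_rec _ g)) ∘
        fun ω (i : I.image (fun k => k - 1)) => Hoeff_f S i ω := by
    funext ω
    exact Hoeff_fac S I hI G hG ω
  rw [h1]
  exact (measurable_of_countable
    (fun g : (I.image (fun k => k - 1)) → ℕ => G (Hoeff_rec _ g))).comp
    (measurable_pi_iff.2 fun i => Hoeff_f_meas h i)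

omit [IsProbabilityMeasure P] in
private theorem Hoeff_indep (h : IsRandomSet P ρ S) (I1 I2 : Finset ℕ) (hI1 : ∀ k ∈ I1, 1 ≤ k)
    (hI2 : ∀ k ∈ I2, 1 ≤ k) (hd : Disjoint I1 I2) (G1 G2 : Set ℕ → ℝ)
    (hG1 : ∀ U V : Set ℕ, (∀ k ∈ I1, k ∈ U ↔ k ∈ V) → G1 U = G1 V)
    (hG2 : ∀ U V : Set ℕ, (∀ k ∈ I2, k ∈ U ↔ k ∈ V) → G2 U = G2 V) :
    IndepFun (fun ω => G1 (S ω)) (fun ω => G2 (S ω)) P := by
  have hf : iIndepFun (fun k => Hoeff_f S k) P := h.indep.iIndepFun_indicator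
  have hdis : Disjoint (I1.image (fun k => k - 1)) (I2.image (fun k => k - 1)) := by
    rw [Finset.disjoint_left]
    intro a ha hb
    obtain ⟨k, hk, rfl⟩ := Finset.mem_image.1 ha
    obtain ⟨l, hl, hkl⟩ := Finset.mem_image.1 hb
    have h1 := hI1 k hk
    have h2 := hI2 l hl
    have h3 : l = k := by omega
    subst h3
    exact Finset.disjoint_left.1 hd hk hl
  have h1 := hf.indepFun_finset _ _ hdis (Hoeff_f_meas h)
  have h2 := h1.comp
    (φ := fun g : (I1.image (fun k => k - 1)) → ℕ => G1 (Hoeff_rec _ g))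
    (ψ := fun g : (I2.image (fun k => k - 1)) → ℕ => G2 (Hoeff_rec _ g))
    (measurable_of_countable _) (measurable_of_countable _)
  have e1 : (fun ω => G1 (S ω)) =
      (fun g : (I1.image (fun k => k - 1)) → ℕ => G1 (Hoeff_rec _ g)) ∘
        fun ω (i : I1.image (fun k => k - 1)) => Hoeff_f S i ω := by
    funext ω
    exact Hoeff_fac S I1 hI1 G1 hG1 ω
  have e2 : (fun ω => G2 (S ω)) =
      (fun g : (I2.image (fun k => k - 1)) → ℕ => G2 (Hoeff_rec _ g)) ∘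
        fun ω (i : I2.image (fun k => k - 1)) => Hoeff_f S i ω := by
    funext ω
    exact Hoeff_fac S I2 hI2 G2 hG2 ω
  rw [e1, e2]
  exact h2

private theorem Hoeff_Yw_congr (R : ℕ) (K : ℝ) (ξ : ℕ → ℂ) (I A : Finset ℕ) (U V : Set ℕ)
    (h : ∀ k ∈ I, k ∈ U ↔ k ∈ V) : Yw R K ξ I A U = Yw R K ξ I A V := by
  have h1 : tr U I = tr V I := by
    ext k
    rw [mem_tr, mem_tr]
    constructor
    · rintro ⟨h2, h3⟩
      exact ⟨h2, (h k h2).1 h3⟩
    · rintro ⟨h2, h3⟩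
      exact ⟨h2, (h k h2).2 h3⟩
  unfold Yw
  rw [h1]

private theorem Hoeff_Yw_mem (R : ℕ) (K : ℝ) (hK0 : 0 ≤ K) (ξ : ℕ → ℂ) (hξ : ∀ n, ‖ξ n‖ = 1)
    (I A : Finset ℕ) (U : Set ℕ) : Yw R K ξ I A U ∈ Set.Icc (-K) ((R : ℝ) ^ 2) := by
  unfold Yw
  split_ifs with h
  · have h1 : ‖∑ s ∈ tr U I, ξ s‖ ≤ R := by
      refine (norm_sum_le _ _).trans ?_
      rw [Finset.sum_congr rfl fun s _ => hξ s, Finset.sum_const, h.2]
      simp
    have h2 : ‖∑ s ∈ tr U I, ξ s‖ ^ 2 ≤ (R : ℝ) ^ 2 := by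
      exact pow_le_pow_left₀ (norm_nonneg _) h1 2
    constructor
    · have := sq_nonneg ‖∑ s ∈ tr U I, ξ s‖
      linarith
    · linarith
  · constructor
    · linarith
    · positivity

theorem prob_sum_Yw_nonpos (h : IsRandomSet P ρ S) (J : Finset ℕ) (I A : ℕ → Finset ℕ)
    (hI : ∀ j ∈ J, ∀ k ∈ I j, 1 ≤ k)
    (hdisj : ∀ i ∈ J, ∀ j ∈ J, i ≠ j → Disjoint (I i) (I j))
    (R : ℕ) (hR : 1 ≤ R) (K : ℝ) (hK0 : 0 ≤ K) (ξ : ℕ → ℂ) (hξ : ∀ n, ‖ξ n‖ = 1)
    (β : ℝ) (hβ0 : 0 ≤ β) (hβ : ∀ j ∈ J, β ≤ ∫ ω, Yw R K ξ (I j) (A j) (S ω) ∂P) :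
    P {ω | ∑ j ∈ J, Yw R K ξ (I j) (A j) (S ω) ≤ 0} ≤
      ENNReal.ofReal (Real.exp (-2 * J.card * β ^ 2 / ((R : ℝ) ^ 2 + K) ^ 2)) := by
  classical
  obtain ⟨c, hc⟩ : ∃ c : NNReal, c = (‖(R : ℝ) ^ 2 - -K‖₊ / 2) ^ 2 := ⟨_, rfl⟩
  have hcr : (c : ℝ) = (((R : ℝ) ^ 2 + K) / 2) ^ 2 := by
    rw [hc]
    push_cast
    rw [sub_neg_eq_add, Real.norm_eq_abs, abs_of_nonneg (by positivity)]
  -- one window
  have hone : ∀ j ∈ J, HasSubgaussianMGF
      (fun ω => ∫ ω, Yw R K ξ (I j) (A j) (S ω) ∂P - Yw R K ξ (I j) (A j) (S ω)) c P := by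
    intro j hj
    have h1 := hasSubgaussianMGF_of_mem_Icc (μ := P) (X := fun ω => Yw R K ξ (I j) (A j) (S ω))
      (a := -K) (b := (R : ℝ) ^ 2)
      (Hoeff_meas h (I j) (hI j hj) (Yw R K ξ (I j) (A j))
        (Hoeff_Yw_congr R K ξ (I j) (A j))).aemeasurable
      (Filter.Eventually.of_forall fun ω => Hoeff_Yw_mem R K hK0 ξ hξ (I j) (A j) (S ω))
    rw [← hc] at h1
    have h2 := h1.neg
    have h3 : (fun ω => ∫ ω, Yw R K ξ (I j) (A j) (S ω) ∂P - Yw R K ξ (I j) (A j) (S ω)) =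
        -(fun ω => Yw R K ξ (I j) (A j) (S ω) - ∫ ω, Yw R K ξ (I j) (A j) (S ω) ∂P) := by
      funext ω
      simp
    rw [h3]
    exact h2
  -- the sum
  have hsum : ∀ J' : Finset ℕ, J' ⊆ J → HasSubgaussianMGF
      (fun ω => ∑ j ∈ J', (∫ ω, Yw R K ξ (I j) (A j) (S ω) ∂P - Yw R K ξ (I j) (A j) (S ω)))
      (J'.card * c) P := by
    intro J'
    induction J' using Finset.induction_on with
    | empty =>
      intro _
      simp only [Finset.sum_empty, Finset.card_empty, Nat.cast_zero, zero_mul]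
      exact HasSubgaussianMGF.fun_zero
    | insert i J' hi ih =>
      intro hsub
      have hiJ : i ∈ J := hsub (Finset.mem_insert_self i J')
      have hJ'J : J' ⊆ J := fun j hj => hsub (Finset.mem_insert_of_mem hj)
      have h1 := ih hJ'J
      have hcast : ((insert i J').card * c : NNReal) = c + J'.card * c := by
        rw [Finset.card_insert_of_notMem hi]
        push_cast
        ring
      rw [hcast]
      simp only [Finset.sum_insert hi]
      refine (hone i hiJ).add_of_indepFun h1 ?_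
      refine Hoeff_indep h (I i) (J'.biUnion I) (hI i hiJ) ?_ ?_
        (fun U => ∫ ω, Yw R K ξ (I i) (A i) (S ω) ∂P - Yw R K ξ (I i) (A i) U)
        (fun U => ∑ j ∈ J', (∫ ω, Yw R K ξ (I j) (A j) (S ω) ∂P - Yw R K ξ (I j) (A j) U)) ?_ ?_
      · intro k hk
        obtain ⟨j, hj, hkj⟩ := Finset.mem_biUnion.1 hk
        exact hI j (hJ'J hj) k hkj
      · rw [Finset.disjoint_biUnion_right]
        intro j hj
        refine hdisj i hiJ j (hJ'J hj) ?_
        rintro rfl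
        exact hi hj
      · intro U V hUV
        rw [Hoeff_Yw_congr R K ξ (I i) (A i) U V hUV]
      · intro U V hUV
        refine Finset.sum_congr rfl fun j hj => ?_
        rw [Hoeff_Yw_congr R K ξ (I j) (A j) U V]
        intro k hk
        exact hUV k (Finset.mem_biUnion.2 ⟨j, hj, hk⟩)
  have hε : 0 ≤ (J.card : ℝ) * β := by positivity
  have hfin := (hsum J (Finset.Subset.refl J)).measure_ge_le hε
  have hsubset : {ω | ∑ j ∈ J, Yw R K ξ (I j) (A j) (S ω) ≤ 0} ⊆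
      {ω | (J.card : ℝ) * β ≤
        ∑ j ∈ J, (∫ ω, Yw R K ξ (I j) (A j) (S ω) ∂P - Yw R K ξ (I j) (A j) (S ω))} := by
    intro ω hω
    have h1 : ∑ j ∈ J, Yw R K ξ (I j) (A j) (S ω) ≤ 0 := hω
    have h2 : (J.card : ℝ) * β ≤ ∑ j ∈ J, ∫ ω, Yw R K ξ (I j) (A j) (S ω) ∂P := by
      rw [← nsmul_eq_mul]
      exact Finset.card_nsmul_le_sum J _ β hβ
    change (J.card : ℝ) * β ≤
        ∑ j ∈ J, (∫ ω, Yw R K ξ (I j) (A j) (S ω) ∂P - Yw R K ξ (I j) (A j) (S ω))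
    rw [Finset.sum_sub_distrib]
    linarith
  refine (measure_mono hsubset).trans ?_
  rw [← ofReal_measureReal]
  apply ENNReal.ofReal_le_ofReal
  refine hfin.trans (le_of_eq ?_)
  congr 1
  push_cast
  rw [hcr]
  have hpos : 0 < (R : ℝ) ^ 2 + K := by
    have : (1 : ℝ) ≤ R := by exact_mod_cast hR
    nlinarith
  rcases Nat.eq_zero_or_pos J.card with h0 | h0
  · rw [h0]
    simp
  · have h1 : (0 : ℝ) < J.card := by exact_mod_cast h0
    field_simp

end Pool.Agent.H87D
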