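import Pool.Agent.H87D.Fourier
import Pool.Agent.H87D.Hoeff

/-!
The union bound over all characters at one scale.

PROOF PLAN.  Let `a` have discrepancy at most `C` along `S ω`.  Let `F` be the family of the sets
`tr (S ω) (Ioc (u j) (v j))`, `j ∈ J`, which are contained in `A j` and have `R` elements (different
`j` give different, disjoint nonempty sets).  The sum of `a (d s)` over such a set is a difference of
two partial sums, so it is at most `2 C` in absolute value.  `fourier_reduction` with `B = 2 C`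
gives `φ` with `∑_j Yw R (4 C^2 + 1) (chi y M φ) .. (S ω) <= 0`.  Union bound over the `M^(y+1)`
functions `φ` and `prob_sum_Yw_nonpos`.
-/

namespace Pool.Agent.H87D

open MeasureTheory ProbabilityTheory Finset

variable {Ω : Type*} [MeasurableSpace Ω] {P : Measure Ω} [IsProbabilityMeasure P]
  {ρ : ℕ → ℝ} {S : Ω → Set ℕ}

theorem OneScale_partial (S : Set ℕ) (a : ℕ → ℂ) (C : ℝ) (hC : 0 ≤ C) (hS : DiscLe S a C)
    (d n : ℕ) (hd : 1 ≤ d) :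
    ‖∑ k ∈ Finset.Icc 1 n, Set.indicator S (fun _ => (1 : ℂ)) k * a (d * k)‖ ≤ C := by
  rcases Nat.eq_zero_or_pos n with hn | hn
  · subst hn
    have e : Finset.Icc 1 0 = (∅ : Finset ℕ) := by
      apply Finset.Icc_eq_empty
      omega
    rw [e, Finset.sum_empty, norm_zero]
    exact hC
  · exact hS d n hd hn

theorem OneScale_block (S : Set ℕ) (a : ℕ → ℂ) (d u v : ℕ) (huv : u ≤ v) :
    ∑ s ∈ tr S (Ioc u v), a (d * s) =
      ∑ k ∈ Finset.Icc 1 v, Set.indicator S (fun _ => (1 : ℂ)) k * a (d * k) -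
      ∑ k ∈ Finset.Icc 1 u, Set.indicator S (fun _ => (1 : ℂ)) k * a (d * k) := by
  classical
  have e1 : ∑ s ∈ tr S (Ioc u v), a (d * s) =
      ∑ k ∈ Ioc u v, Set.indicator S (fun _ => (1 : ℂ)) k * a (d * k) := by
    unfold tr flt
    rw [Finset.sum_filter]
    refine Finset.sum_congr rfl (fun k _ => ?_)
    by_cases hk : k ∈ S
    · rw [if_pos hk, Set.indicator_of_mem hk, one_mul]
    · rw [if_neg hk, Set.indicator_of_notMem hk, zero_mul]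
  have e2 : Finset.Icc 1 v = Finset.Icc 1 u ∪ Ioc u v := by
    ext k
    rw [Finset.mem_union, Finset.mem_Icc, Finset.mem_Icc, Finset.mem_Ioc]
    omega
  have e3 : Disjoint (Finset.Icc 1 u) (Ioc u v) := by
    rw [Finset.disjoint_left]
    intro k hk hk'
    rw [Finset.mem_Icc] at hk
    rw [Finset.mem_Ioc] at hk'
    omega
  rw [e1, e2, Finset.sum_union e3]
  ring

theorem OneScale_det (S : Set ℕ) (a : ℕ → ℂ) (C : ℝ) (hC : 0 ≤ C)
    (ha : ∀ k, 1 ≤ k → ‖a k‖ = 1) (hS : DiscLe S a C)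
    (y E R M : ℕ) (hR : 1 ≤ R) (hM : R ^ 2 * (y + 1) * E ≤ M) (hM1 : 1 ≤ M)
    (J : Finset ℕ) (u v : ℕ → ℕ) (A : ℕ → Finset ℕ)
    (huv : ∀ j ∈ J, u j ≤ v j)
    (hdisj : ∀ i ∈ J, ∀ j ∈ J, i ≠ j → Disjoint (Ioc (u i) (v i)) (Ioc (u j) (v j)))
    (hsm : ∀ j ∈ J, ∀ s ∈ A j, Sm y s ∧ ∀ p : ℕ, s.factorization p ≤ E) :
    ∃ φ : Fin (y + 1) → Fin M,
      ∑ j ∈ J, Yw R (4 * C ^ 2 + 1) (chi y M φ) (Ioc (u j) (v j)) (A j) S ≤ 0 := by
  classical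
  set T : ℕ → Finset ℕ := fun j => tr S (Ioc (u j) (v j)) with hT
  set J' : Finset ℕ := J.filter (fun j => T j ⊆ A j ∧ (T j).card = R) with hJ'
  have hinj : Set.InjOn T (J' : Set ℕ) := by
    intro i hi j hj hij
    by_contra hne
    obtain ⟨hi1, hi2⟩ := Finset.mem_filter.1 (Finset.mem_coe.1 hi)
    obtain ⟨hj1, -⟩ := Finset.mem_filter.1 (Finset.mem_coe.1 hj)
    have hpos : 0 < (T i).card := by rw [hi2.2]; omega
    obtain ⟨k, hk⟩ := Finset.card_pos.1 hpos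
    have hk' : k ∈ T j := by rw [← hij]; exact hk
    exact Finset.disjoint_left.1 (hdisj i hi1 j hj1 hne) (mem_tr.1 hk).1 (mem_tr.1 hk').1
  obtain ⟨φ, hφ⟩ := fourier_reduction y E R M hR hM hM1 (J'.image T) (by
      intro T' hT'
      obtain ⟨j, hj, rfl⟩ := Finset.mem_image.1 hT'
      exact (Finset.mem_filter.1 hj).2.2) (by
      intro T' hT' s hs
      obtain ⟨j, hj, rfl⟩ := Finset.mem_image.1 hT'
      obtain ⟨h1, h2, -⟩ := Finset.mem_filter.1 hj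
      exact hsm j h1 s (h2 hs)) a ha (2 * C) (by
      intro d hd T' hT'
      obtain ⟨j, hj, rfl⟩ := Finset.mem_image.1 hT'
      have h1 := (Finset.mem_filter.1 hj).1
      have h2 := OneScale_block S a d (u j) (v j) (huv j h1)
      have h3 := OneScale_partial S a C hC hS d (u j) hd
      have h4 := OneScale_partial S a C hC hS d (v j) hd
      have h5 : ‖∑ s ∈ T j, a (d * s)‖ ≤ C + C := by
        rw [hT]
        dsimp only
        rw [h2]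
        exact (norm_sub_le _ _).trans (add_le_add h4 h3)
      linarith)
  refine ⟨φ, ?_⟩
  rw [Finset.sum_image hinj, Finset.card_image_of_injOn hinj] at hφ
  have e1 : ∑ j ∈ J, Yw R (4 * C ^ 2 + 1) (chi y M φ) (Ioc (u j) (v j)) (A j) S =
      ∑ j ∈ J', (‖∑ s ∈ T j, chi y M φ s‖ ^ 2 - (4 * C ^ 2 + 1)) := by
    rw [hJ', Finset.sum_filter]
    refine Finset.sum_congr rfl (fun j _ => ?_)
    unfold Yw
    rfl
  rw [e1, Finset.sum_sub_distrib, Finset.sum_const, nsmul_eq_mul]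
  nlinarith [hφ]

theorem one_scale (h : IsRandomSet P ρ S) (C : ℝ) (hC : 0 ≤ C)
    (y E R M : ℕ) (hR : 1 ≤ R) (hM : R ^ 2 * (y + 1) * E ≤ M) (hM1 : 1 ≤ M)
    (J : Finset ℕ) (u v : ℕ → ℕ) (A : ℕ → Finset ℕ)
    (huv : ∀ j ∈ J, u j ≤ v j)
    (hdisj : ∀ i ∈ J, ∀ j ∈ J, i ≠ j → Disjoint (Ioc (u i) (v i)) (Ioc (u j) (v j)))
    (hsm : ∀ j ∈ J, ∀ s ∈ A j, Sm y s ∧ ∀ p : ℕ, s.factorization p ≤ E)
    (β : ℝ) (hβ0 : 0 ≤ β)
    (hβ : ∀ j ∈ J, ∀ ξ : ℕ → ℂ, (∀ n, ‖ξ n‖ = 1) →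
      β ≤ ∫ ω, Yw R (4 * C ^ 2 + 1) ξ (Ioc (u j) (v j)) (A j) (S ω) ∂P) :
    P {ω | ∃ a : ℕ → ℂ, (∀ k, 1 ≤ k → ‖a k‖ = 1) ∧ DiscLe (S ω) a C} ≤
      ENNReal.ofReal ((M : ℝ) ^ (y + 1) *
        Real.exp (-2 * J.card * β ^ 2 / ((R : ℝ) ^ 2 + (4 * C ^ 2 + 1)) ^ 2)) := by
  have hsub : {ω | ∃ a : ℕ → ℂ, (∀ k, 1 ≤ k → ‖a k‖ = 1) ∧ DiscLe (S ω) a C} ⊆
      ⋃ φ : Fin (y + 1) → Fin M,
        {ω | ∑ j ∈ J, Yw R (4 * C ^ 2 + 1) (chi y M φ) (Ioc (u j) (v j)) (A j) (S ω) ≤ 0} := by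
    rintro ω ⟨a, ha, hS⟩
    obtain ⟨φ, hφ⟩ := OneScale_det (S ω) a C hC ha hS y E R M hR hM hM1 J u v A huv hdisj hsm
    exact Set.mem_iUnion.2 ⟨φ, hφ⟩
  have hK0 : 0 ≤ 4 * C ^ 2 + 1 := by positivity
  refine (measure_mono hsub).trans ((measure_iUnion_fintype_le P _).trans ?_)
  have hb : ∀ φ : Fin (y + 1) → Fin M,
      P {ω | ∑ j ∈ J, Yw R (4 * C ^ 2 + 1) (chi y M φ) (Ioc (u j) (v j)) (A j) (S ω) ≤ 0} ≤
      ENNReal.ofReal (Real.exp (-2 * J.card * β ^ 2 / ((R : ℝ) ^ 2 + (4 * C ^ 2 + 1)) ^ 2)) := by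
    intro φ
    refine prob_sum_Yw_nonpos h J (fun j => Ioc (u j) (v j)) A ?_ hdisj R hR (4 * C ^ 2 + 1) hK0
      (chi y M φ) (norm_chi y M φ) β hβ0 (fun j hj => hβ j hj _ (norm_chi y M φ))
    intro j _ k hk
    have := (Finset.mem_Ioc.1 hk).1
    omega
  refine (Finset.sum_le_sum (fun φ _ => hb φ)).trans (le_of_eq ?_)
  rw [Finset.sum_const, Finset.card_univ, Fintype.card_fun, Fintype.card_fin, Fintype.card_fin,
    nsmul_eq_mul, ENNReal.ofReal_mul (by positivity)]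
  congr 1
  rw [ENNReal.ofReal_pow (Nat.cast_nonneg M), ENNReal.ofReal_natCast]
  push_cast
  rfl

end Pool.Agent.H87D
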