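import Pool.Agent.H87D.Defs
import Pool.Agent.H91.GoldMertens

/-!
For some `θ < 1`, at least half of the integers in `(X/2, X]` are `X^θ`-smooth, for large `X`.

PROOF PLAN.  `(X/2, X]` has at least `X/2` elements.  A non-`y`-smooth element has a prime factor
`p ∈ (X^θ, X]`; the number of multiples of `p` in `(X/2, X]` is at most `(X/2+1)/p + 1`.  So it suffices that
`∑_{X^θ < p <= X} 1/p <= 1/8` (roughly) and `π(X) = o(X)`.  Chebyshev (Mathlib
`Mathlib.NumberTheory.Chebyshev`: `pi_le_log4_mul_div`, `eventually_primeCounting_le`, or the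
primorial bound `primorial_le_4_pow`): the number of primes in `(2^i, 2^(i+1)]` is at most
`4 * 2^i / i`, so `∑ 1/p` over this range is at most `4 / i`, and the sum over
`θ log₂ X - 1 <= i <= log₂ X` is at most about `4 log (1/θ)`: take `θ` close to `1`
(e.g. `θ = 99/100`).
-/

namespace Pool.Agent.H87D

open Finset

open scoped ArithmeticFunction.vonMangoldt in
theorem SmoothDense_sum (X y : ℕ) (hX : 1024 ≤ X) (hy : 2 ≤ y) (hyX : y ≤ X) :
    Real.log y * ∑ p ∈ (Ioc y X).filter Nat.Prime, (1 : ℝ) / p ≤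
      Real.log X - Real.log y + 1.0818 := by
  have h1 := Pool.Agent.H91.Gold.Mt_le X hX
  have h2 := Pool.Agent.H91.Gold.Mt_ge y (by omega)
  have h3 : Pool.Agent.H91.Gold.Mt X = Pool.Agent.H91.Gold.Mt y + ∑ d ∈ Ioc y X, Λ d / d := by
    unfold Pool.Agent.H91.Gold.Mt
    rw [← Finset.sum_union]
    · congr 1
      ext k
      rw [Finset.mem_union, Finset.mem_Ioc, Finset.mem_Ioc, Finset.mem_Ioc]
      omega
    · rw [Finset.disjoint_left]
      intro k hk hk'
      rw [Finset.mem_Ioc] at hk hk'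
      omega
  have h4 : Real.log y * ∑ p ∈ (Ioc y X).filter Nat.Prime, (1 : ℝ) / p ≤
      ∑ d ∈ Ioc y X, Λ d / d := by
    rw [Finset.mul_sum]
    refine (Finset.sum_le_sum (fun p hp => ?_)).trans
      (Finset.sum_le_sum_of_subset_of_nonneg (Finset.filter_subset Nat.Prime (Ioc y X))
        (fun d _ _ => div_nonneg ArithmeticFunction.vonMangoldt_nonneg (Nat.cast_nonneg d)))
    obtain ⟨hp1, hp2⟩ := Finset.mem_filter.1 hp
    rw [Finset.mem_Ioc] at hp1
    rw [ArithmeticFunction.vonMangoldt_apply_prime hp2, mul_one_div]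
    have hpy : (y : ℝ) ≤ p := by exact_mod_cast hp1.1.le
    have hy0 : (0 : ℝ) < y := by exact_mod_cast (show 0 < y by omega)
    exact div_le_div_of_nonneg_right (Real.log_le_log hy0 hpy) (Nat.cast_nonneg p)
  linarith

theorem SmoothDense_count (X y : ℕ) :
    ((flt (fun n => ¬ Sm y n) (Ioc (X / 2) X)).card : ℝ) ≤
      X * ∑ p ∈ (Ioc y X).filter Nat.Prime, (1 : ℝ) / p := by
  classical
  have hsub : flt (fun n => ¬ Sm y n) (Ioc (X / 2) X) ⊆
      ((Ioc y X).filter Nat.Prime).biUnion (fun p => {x ∈ Ioc 0 X | p ∣ x}) := by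
    intro n hn
    obtain ⟨h1, h2⟩ := mem_flt.1 hn
    rw [Finset.mem_Ioc] at h1
    unfold Sm at h2
    push Not at h2
    obtain ⟨p, hp, hpn, hyp⟩ := h2 (by omega)
    rw [Finset.mem_biUnion]
    have hple : p ≤ n := Nat.le_of_dvd (by omega) hpn
    refine ⟨p, Finset.mem_filter.2 ⟨Finset.mem_Ioc.2 ⟨hyp, by omega⟩, hp⟩, ?_⟩
    exact Finset.mem_filter.2 ⟨Finset.mem_Ioc.2 ⟨by omega, h1.2⟩, hpn⟩
  have h1 := (Finset.card_le_card hsub).trans Finset.card_biUnion_le
  have h2 : ((flt (fun n => ¬ Sm y n) (Ioc (X / 2) X)).card : ℝ) ≤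
      ∑ p ∈ (Ioc y X).filter Nat.Prime, (({x ∈ Ioc 0 X | p ∣ x}.card : ℕ) : ℝ) := by
    exact_mod_cast h1
  refine h2.trans ?_
  rw [Finset.mul_sum]
  refine Finset.sum_le_sum (fun p _ => ?_)
  rw [Nat.Ioc_filter_dvd_card_eq_div, mul_one_div]
  exact Nat.cast_div_le

theorem smooth_dense : ∃ θ : ℝ, 0 < θ ∧ θ < 1 ∧ ∃ X0 : ℕ, ∀ X : ℕ, X0 ≤ X → ∀ y : ℕ,
    (X : ℝ) ^ θ ≤ y → (X : ℝ) / 4 ≤ ((flt (Sm y) (Ioc (X / 2) X)).card : ℝ) := by
  classical
  refine ⟨9 / 10, by norm_num, by norm_num, 2 ^ 20, fun X hX y hy => ?_⟩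
  have hX0 : (0 : ℝ) < X := by
    have : (2 : ℝ) ^ 20 ≤ X := by exact_mod_cast hX
    linarith [show (0 : ℝ) < 2 ^ 20 by norm_num]
  have hlogX : (13 : ℝ) ≤ Real.log X := by
    have h1 : Real.log ((2 : ℝ) ^ 20) ≤ Real.log X :=
      Real.log_le_log (by norm_num) (by exact_mod_cast hX)
    rw [Real.log_pow] at h1
    have h2 := Real.log_two_gt_d9
    push_cast at h1
    linarith
  have hXpow : Real.log ((X : ℝ) ^ (9 / 10 : ℝ)) = 9 / 10 * Real.log X := Real.log_rpow hX0 _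
  have hpow0 : (0 : ℝ) < (X : ℝ) ^ (9 / 10 : ℝ) := Real.rpow_pos_of_pos hX0 _
  have hy0 : (0 : ℝ) < y := lt_of_lt_of_le hpow0 hy
  have hlogy : 9 / 10 * Real.log X ≤ Real.log y := by
    rw [← hXpow]
    exact Real.log_le_log hpow0 hy
  have hy2 : 2 ≤ y := by
    by_contra hcon
    have h1 : y ≤ 1 := by omega
    have h2 : (y : ℝ) ≤ 1 := by exact_mod_cast h1
    have h3 := Real.log_nonpos hy0.le h2
    linarith
  have hsum : ∑ p ∈ (Ioc y X).filter Nat.Prime, (1 : ℝ) / p ≤ 1 / 4 := by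
    rcases le_total y X with hyX | hyX
    · have h1 := SmoothDense_sum X y (by omega) hy2 hyX
      have hlogy0 : 0 < Real.log y := by linarith
      have h2 : Real.log y * ∑ p ∈ (Ioc y X).filter Nat.Prime, (1 : ℝ) / p ≤
          Real.log y * (1 / 4) := by linarith
      exact le_of_mul_le_mul_left h2 hlogy0
    · rw [Finset.Ioc_eq_empty (by omega), Finset.filter_empty, Finset.sum_empty]
      norm_num
  have h1 := SmoothDense_count X y
  have h2 : (flt (Sm y) (Ioc (X / 2) X)).card + (flt (fun n => ¬ Sm y n) (Ioc (X / 2) X)).card =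
      (Ioc (X / 2) X).card := by
    rw [← Finset.card_union_of_disjoint]
    · congr 1
      ext k
      rw [Finset.mem_union, mem_flt, mem_flt]
      constructor
      · rintro (h | h)
        · exact h.1
        · exact h.1
      · intro h
        by_cases hk : Sm y k
        · exact Or.inl ⟨h, hk⟩
        · exact Or.inr ⟨h, hk⟩
    · rw [Finset.disjoint_left]
      intro k hk hk'
      exact (mem_flt.1 hk').2 (mem_flt.1 hk).2
  rw [Nat.card_Ioc] at h2
  have h3 : X ≤ 2 * ((flt (Sm y) (Ioc (X / 2) X)).card +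
      (flt (fun n => ¬ Sm y n) (Ioc (X / 2) X)).card) := by omega
  have h4 : (X : ℝ) ≤ 2 * ((flt (Sm y) (Ioc (X / 2) X)).card +
      (flt (fun n => ¬ Sm y n) (Ioc (X / 2) X)).card) := by exact_mod_cast h3
  have h5 := mul_le_mul_of_nonneg_left hsum hX0.le
  linarith

end Pool.Agent.H87D
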