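import Pool.Agent.H87D.SumLf
import Pool.Agent.H10.GoldLoc.Mertens

/-!
Upper bound for the number of `exp (mu L(n))`-smooth numbers `n` in short intervals.

PROOF PLAN.  First `z <= x` and `kap >= 0` (WLOG): put `Y = exp (mu L(2x))`.  An element `n ∈ (x, x+z]` with all prime
factors `<= Y` has a divisor `d ∈ (√x/Y, √x]` (maximal product of its primes that is `<= √x`), so the
count is at most `∑_{d ∈ (√x/Y, √x], d Y-smooth} (z/d + 1) <= 2 z ∑_{d > √x/Y, Y-smooth} 1/d`
(`√x <= z` for large `x`, `exp_Lf_le_rpow`) `<= 2 z (√x/Y)^(-α) ∏_{p <= Y} (1 - p^(α-1))⁻¹` (Rankin;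
Euler product over smooth numbers, or only finitely many `d`), with `α = log log x/(4 log Y)`, so
`Y^α = (log x)^(1/4)`.  The product is at most `exp (C Y^α ∑_{p <= Y} 1/p) <= exp (C' (log x)^(1/4)
log log x)` (`∑_{p <= Y} 1/p <= C log log Y`: dyadic blocks and Chebyshev) and
`(√x/Y)^α >= x^(α/4) = exp (log x log log x/(16 log Y)) >= exp (c'' L(x))`, since
`log Y = mu L(2x) <= 2 mu L(x)`.  For `z > x` add up dyadic blocks `(2^i x, 2^(i+1) x]` (`L` is
monotone), decreasing `c`.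
-/

namespace Pool.Agent.H87D

open Finset

open Pool.Agent.H10.GoldLoc (PP mem_PP exists_mertens)

/-- A smooth number above `x` has a divisor just below the square root of `x`. -/
theorem SmoothShort_divisor {x y n : ℕ} (hx : 1 ≤ x) (hxn : x < n) (hn : Sm y n) :
    ∃ d, 1 ≤ d ∧ d ∣ n ∧ d * d ≤ x ∧ x < (d * y) * (d * y) := by
  classical
  have hn0 : n ≠ 0 := hn.1
  have hne : (n.divisors.filter (fun d => d * d ≤ x)).Nonempty :=
    ⟨1, Finset.mem_filter.2 ⟨Nat.mem_divisors.2 ⟨one_dvd n, hn0⟩, by omega⟩⟩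
  obtain ⟨d, hd, hmax⟩ := Finset.exists_max_image _ (fun d => d) hne
  obtain ⟨hd1, hd2⟩ := Finset.mem_filter.1 hd
  have hdn := (Nat.mem_divisors.1 hd1).1
  have hd0 : 1 ≤ d := Nat.pos_of_dvd_of_pos hdn (by omega)
  obtain ⟨e, he⟩ := hdn
  have hdd : d ≤ d * d := Nat.le_mul_of_pos_left d hd0
  have he1 : e ≠ 1 := by
    intro h
    rw [h, mul_one] at he
    omega
  have hp := Nat.minFac_prime he1
  have hpe := Nat.minFac_dvd e
  have hpn : d * e.minFac ∣ n := by
    rw [he]
    exact Nat.mul_dvd_mul_left d hpe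
  have hpy : e.minFac ≤ y := hn.2 _ hp ((Dvd.intro_left d rfl).trans hpn)
  refine ⟨d, hd0, ⟨e, he⟩, hd2, ?_⟩
  have h1 : x < (d * e.minFac) * (d * e.minFac) := by
    by_contra hcon
    push Not at hcon
    have h2 := hmax (d * e.minFac)
      (Finset.mem_filter.2 ⟨Nat.mem_divisors.2 ⟨hpn, hn0⟩, hcon⟩)
    have h3 : d * 2 ≤ d * e.minFac := Nat.mul_le_mul_left d hp.two_le
    omega
  have h2 : d * e.minFac ≤ d * y := Nat.mul_le_mul_left d hpy
  exact lt_of_lt_of_le h1 (Nat.mul_le_mul h2 h2)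

theorem SmoothShort_mult (x z d : ℕ) (hd : 1 ≤ d) :
    (({k ∈ Ioc x (x + z) | d ∣ k}.card : ℕ) : ℝ) ≤ (z : ℝ) / d + 1 := by
  classical
  have hsub : {k ∈ Ioc x (x + z) | d ∣ k} ⊆
      (Ioc (x / d) ((x + z) / d)).image (fun m => d * m) := by
    intro k hk
    obtain ⟨h1, m, rfl⟩ := Finset.mem_filter.1 hk
    rw [Finset.mem_Ioc] at h1
    refine Finset.mem_image.2 ⟨m, Finset.mem_Ioc.2 ⟨?_, ?_⟩, rfl⟩
    · rw [Nat.div_lt_iff_lt_mul (by omega), mul_comm]
      exact h1.1
    · rw [Nat.le_div_iff_mul_le (by omega), mul_comm]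
      exact h1.2
  have h1 := (Finset.card_le_card hsub).trans Finset.card_image_le
  rw [Nat.card_Ioc] at h1
  have h2 : x / d ≤ (x + z) / d := Nat.div_le_div_right (by omega)
  have h3 : (({k ∈ Ioc x (x + z) | d ∣ k}.card : ℕ) : ℝ) ≤
      (((x + z) / d : ℕ) : ℝ) - ((x / d : ℕ) : ℝ) := by
    rw [← Nat.cast_sub h2]
    exact_mod_cast h1
  have hd0 : (0 : ℝ) < d := by exact_mod_cast hd
  have h4 : (((x + z) / d : ℕ) : ℝ) ≤ ((x + z : ℕ) : ℝ) / d := Nat.cast_div_le
  have h5 : (x : ℝ) / d - 1 ≤ ((x / d : ℕ) : ℝ) := by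
    rw [sub_le_iff_le_add, div_le_iff₀ hd0]
    have h6 := Nat.lt_div_mul_add (a := x) (b := d) (by omega)
    have h7 : (x : ℝ) ≤ (x / d : ℕ) * d + d := by exact_mod_cast h6.le
    linarith
  have h8 : ((x + z : ℕ) : ℝ) / d = (x : ℝ) / d + (z : ℝ) / d := by
    push_cast
    rw [add_div]
  linarith

/-- The Euler product bound. -/
theorem SmoothShort_euler (y : ℕ) (al : ℝ) (hal0 : 0 ≤ al) (hal : al ≤ 1 / 2) (D : Finset ℕ)
    (hD : ∀ d ∈ D, Sm y d) :
    ∑ d ∈ D, (d : ℝ) ^ (al - 1) ≤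
      Real.exp (4 * ((y : ℝ) ^ al * ∑ p ∈ PP 0 y, (1 : ℝ) / p)) := by
  classical
  let f : ℕ →* ℝ :=
    { toFun := fun n => (n : ℝ) ^ (al - 1)
      map_one' := by simp
      map_mul' := by
        intro a b
        push_cast
        exact Real.mul_rpow (Nat.cast_nonneg a) (Nat.cast_nonneg b) }
  have hfv : ∀ n : ℕ, f n = (n : ℝ) ^ (al - 1) := fun n => rfl
  have hf0 : ∀ n : ℕ, 0 ≤ f n := fun n => Real.rpow_nonneg (Nat.cast_nonneg n) _
  have hf34 : ∀ {p : ℕ}, p.Prime → f p ≤ 3 / 4 := by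
    intro p hp
    rw [hfv]
    have h2p : (2 : ℝ) ≤ p := by exact_mod_cast hp.two_le
    have h1 : (p : ℝ) ^ (al - 1) ≤ (2 : ℝ) ^ (al - 1) :=
      Real.rpow_le_rpow_of_nonpos (by norm_num) h2p (by linarith)
    have h2 : (2 : ℝ) ^ (al - 1) ≤ (2 : ℝ) ^ (-(1 / 2) : ℝ) :=
      Real.rpow_le_rpow_of_exponent_le (by norm_num) (by linarith)
    have h3 : (2 : ℝ) ^ (-(1 / 2) : ℝ) ≤ 3 / 4 := by
      rw [Real.rpow_neg (by norm_num), ← Real.sqrt_eq_rpow]
      have h4 : (4 : ℝ) / 3 ≤ Real.sqrt 2 := by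
        apply Real.le_sqrt_of_sq_le
        norm_num
      rw [inv_le_comm₀ (by positivity) (by norm_num)]
      linarith
    linarith
  have hf1 : ∀ {p : ℕ}, p.Prime → ‖f p‖ < 1 := by
    intro p hp
    rw [Real.norm_of_nonneg (hf0 p)]
    linarith [hf34 hp]
  obtain ⟨-, hsum⟩ :=
    EulerProduct.summable_and_hasSum_smoothNumbers_prod_primesBelow_geometric (f := f) hf1 (y + 1)
  have hPP : (y + 1).primesBelow = PP 0 y := by
    ext q
    rw [Nat.mem_primesBelow, mem_PP]
    constructor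
    · rintro ⟨h1, h2⟩
      exact ⟨h2.pos, by omega, h2⟩
    · rintro ⟨h1, h2, h3⟩
      exact ⟨by omega, h3⟩
  have hmem : ∀ d ∈ D, d ∈ (y + 1).smoothNumbers := by
    intro d hd
    rw [Nat.mem_smoothNumbers]
    refine ⟨(hD d hd).1, fun p hp => ?_⟩
    have h1 := Nat.prime_of_mem_primeFactorsList hp
    have h2 := Nat.dvd_of_mem_primeFactorsList hp
    have := (hD d hd).2 p h1 h2
    omega
  have h3 := sum_le_hasSum
    (D.attach.image (fun m => (⟨m.1, hmem m.1 m.2⟩ : (y + 1).smoothNumbers)))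
    (fun m _ => hf0 m.1) hsum
  rw [Finset.sum_image (by
    intro a _ b _ hab
    simp only [Subtype.mk.injEq] at hab
    exact Subtype.ext hab)] at h3
  have h4 : ∑ d ∈ D, (d : ℝ) ^ (al - 1) ≤ ∏ p ∈ (y + 1).primesBelow, (1 - f p)⁻¹ := by
    refine le_trans (le_of_eq ?_) h3
    rw [← Finset.sum_attach]
    rfl
  refine h4.trans ?_
  rw [hPP]
  have h5 : ∏ p ∈ PP 0 y, (1 - f p)⁻¹ ≤ ∏ p ∈ PP 0 y, Real.exp (4 * ((y : ℝ) ^ al * (1 / p))) := by
    refine Finset.prod_le_prod (fun p hp => ?_) (fun p hp => ?_)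
    · have := hf34 (mem_PP.1 hp).2.2
      exact inv_nonneg.2 (by linarith)
    · obtain ⟨hp1, hp2, hp3⟩ := mem_PP.1 hp
      have h34 := hf34 hp3
      have h0 := hf0 p
      have hp0 : (0 : ℝ) < p := by exact_mod_cast hp1
      have h6 : (1 - f p)⁻¹ ≤ 1 + 4 * f p := by
        rw [inv_le_comm₀ (by linarith) (by linarith), inv_le_iff_one_le_mul₀ (by linarith)]
        nlinarith
      have h7 : 1 + 4 * f p ≤ Real.exp (4 * f p) := by
        have := Real.add_one_le_exp (4 * f p)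
        linarith
      have h8 : f p ≤ (y : ℝ) ^ al * (1 / p) := by
        rw [hfv, Real.rpow_sub_one hp0.ne', mul_one_div]
        refine div_le_div_of_nonneg_right ?_ hp0.le
        exact Real.rpow_le_rpow hp0.le (by exact_mod_cast hp2) hal0
      have h9 : Real.exp (4 * f p) ≤ Real.exp (4 * ((y : ℝ) ^ al * (1 / p))) :=
        Real.exp_le_exp.2 (by linarith)
      linarith
  refine h5.trans (le_of_eq ?_)
  rw [← Real.exp_sum]
  congr 1
  rw [← Finset.mul_sum, ← Finset.mul_sum]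

/-- The bound for the number of smooth numbers in a short interval. -/
theorem SmoothShort_count (x z y : ℕ) (hx : 1 ≤ x) (hy : 1 ≤ y) (hz : x ≤ z * z) (al : ℝ)
    (hal0 : 0 ≤ al) (hal : al ≤ 1 / 2) :
    ((flt (Sm y) (Ioc x (x + z))).card : ℝ) ≤
      2 * z * (Real.exp (-(al * (Real.log x / 2 - Real.log y))) *
        Real.exp (4 * ((y : ℝ) ^ al * ∑ p ∈ PP 0 y, (1 : ℝ) / p))) := by
  classical
  set D : Finset ℕ := (Finset.Icc 1 x).filter
    (fun d => d * d ≤ x ∧ x < (d * y) * (d * y) ∧ Sm y d) with hD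
  have hsub : flt (Sm y) (Ioc x (x + z)) ⊆ D.biUnion (fun d => {k ∈ Ioc x (x + z) | d ∣ k}) := by
    intro n hn
    obtain ⟨h1, h2⟩ := mem_flt.1 hn
    obtain ⟨d, hd1, hd2, hd3, hd4⟩ := SmoothShort_divisor hx (Finset.mem_Ioc.1 h1).1 h2
    refine Finset.mem_biUnion.2 ⟨d, Finset.mem_filter.2 ⟨Finset.mem_Icc.2 ⟨hd1, ?_⟩, hd3, hd4, ?_⟩,
      Finset.mem_filter.2 ⟨h1, hd2⟩⟩
    · have := Nat.le_mul_of_pos_left d hd1
      omega
    · exact ⟨by omega, fun p hp hpd => h2.2 p hp (hpd.trans hd2)⟩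
  have h1 := (Finset.card_le_card hsub).trans Finset.card_biUnion_le
  have h2 : ((flt (Sm y) (Ioc x (x + z))).card : ℝ) ≤
      ∑ d ∈ D, (({k ∈ Ioc x (x + z) | d ∣ k}.card : ℕ) : ℝ) := by exact_mod_cast h1
  have h3 : ∀ d ∈ D, (({k ∈ Ioc x (x + z) | d ∣ k}.card : ℕ) : ℝ) ≤
      2 * z * (Real.exp (-(al * (Real.log x / 2 - Real.log y))) * (d : ℝ) ^ (al - 1)) := by
    intro d hd
    obtain ⟨hd1, hd2, hd3, hd4⟩ := Finset.mem_filter.1 hd
    have hd0 := (Finset.mem_Icc.1 hd1).1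
    have hdr : (0 : ℝ) < d := by exact_mod_cast hd0
    have hyr : (0 : ℝ) < y := by exact_mod_cast hy
    have hxr : (0 : ℝ) < x := by exact_mod_cast hx
    have hdz : d ≤ z := by
      by_contra hcon
      push Not at hcon
      have : z * z < d * d := Nat.mul_lt_mul'' hcon hcon
      omega
    have h4 := SmoothShort_mult x z d hd0
    have h5 : (1 : ℝ) ≤ (z : ℝ) / d := by
      rw [one_le_div hdr]
      exact_mod_cast hdz
    have h6 : (d : ℝ) ^ (al - 1) = (d : ℝ) ^ al / d := Real.rpow_sub_one hdr.ne' al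
    have hlog : Real.log x / 2 - Real.log y ≤ Real.log d := by
      have h7 : (x : ℝ) ≤ (d * y) * (d * y) := by exact_mod_cast hd3.le
      have h8 := Real.log_le_log hxr h7
      rw [Real.log_mul (by positivity) (by positivity),
        Real.log_mul (by positivity) (by positivity)] at h8
      linarith
    have h9 : 1 ≤ Real.exp (-(al * (Real.log x / 2 - Real.log y))) * (d : ℝ) ^ al := by
      rw [Real.rpow_def_of_pos hdr, ← Real.exp_add]
      rw [← Real.exp_zero]
      apply Real.exp_le_exp.2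
      have := mul_le_mul_of_nonneg_left hlog hal0
      linarith
    rw [h6]
    have hz0 : (0 : ℝ) ≤ z := Nat.cast_nonneg z
    calc (({k ∈ Ioc x (x + z) | d ∣ k}.card : ℕ) : ℝ) ≤ (z : ℝ) / d + 1 := h4
      _ ≤ 2 * ((z : ℝ) / d) * 1 := by linarith
      _ ≤ 2 * ((z : ℝ) / d) *
          (Real.exp (-(al * (Real.log x / 2 - Real.log y))) * (d : ℝ) ^ al) :=
        mul_le_mul_of_nonneg_left h9 (by positivity)
      _ = 2 * z * (Real.exp (-(al * (Real.log x / 2 - Real.log y))) * ((d : ℝ) ^ al / d)) := by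
        ring
  refine h2.trans ((Finset.sum_le_sum h3).trans ?_)
  rw [← Finset.mul_sum, ← Finset.mul_sum]
  have h10 := SmoothShort_euler y al hal0 hal D (fun d hd => (Finset.mem_filter.1 hd).2.2.2)
  refine mul_le_mul_of_nonneg_left (mul_le_mul_of_nonneg_left h10 (Real.exp_pos _).le) ?_
  have hz0 : (0 : ℝ) ≤ z := Nat.cast_nonneg z
  linarith

/-- Asymptotic facts. -/
theorem SmoothShort_asym (mu : ℝ) (hmu : 0 < mu) (C : ℝ) :
    ∀ᶠ x : ℕ in Filter.atTop, 1 ≤ Real.log (Real.log x) ∧ 2 ≤ Real.log x ∧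
      Lf x ^ 2 = Real.log x * Real.log (Real.log x) ∧ 0 < Lf x ∧
      Real.log (Real.log x) / (8 * mu * Lf x) ≤ 1 / 2 ∧
      Real.log 2 + Real.log (Real.log x) / 4 +
        4 * (Real.exp (Real.log (Real.log x) / 4) * (Real.log (Real.log x) + C)) ≤
        Lf x / (32 * mu) := by
  have hlogx : Filter.Tendsto (fun x : ℕ => Real.log x) Filter.atTop Filter.atTop :=
    Real.tendsto_log_atTop.comp tendsto_natCast_atTop_atTop
  have key : ∀ᶠ t : ℝ in Filter.atTop, Real.exp 1 ≤ t ∧ 2 ≤ t ∧ Real.log t ≤ t ^ (1 / 8 : ℝ) ∧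
      max (max 1 C) (max (320 * mu) (1 / (4 * mu))) ≤ t ^ (1 / 8 : ℝ) := by
    have h1 := (isLittleO_log_rpow_atTop (show (0 : ℝ) < 1 / 8 by norm_num)).bound
      (show (0 : ℝ) < 1 by norm_num)
    have h2 := (tendsto_rpow_atTop (show (0 : ℝ) < 1 / 8 by norm_num)).eventually_ge_atTop
      (max (max 1 C) (max (320 * mu) (1 / (4 * mu))))
    filter_upwards [h1, h2, Filter.eventually_ge_atTop (Real.exp 1), Filter.eventually_ge_atTop 2,
      Filter.eventually_ge_atTop 1] with t a1 a2 a3 a4 a5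
    refine ⟨a3, a4, ?_, a2⟩
    rw [one_mul, Real.norm_of_nonneg (Real.log_nonneg a5),
      Real.norm_of_nonneg (Real.rpow_nonneg (by linarith) _)] at a1
    exact a1
  filter_upwards [hlogx.eventually key] with x hx
  obtain ⟨a1, a2, a3, a4⟩ := hx
  set t := Real.log x with ht
  set T := t ^ (1 / 8 : ℝ) with hT
  have ht0 : 0 < t := by linarith
  have hl1 : 1 ≤ Real.log t := by
    rw [Real.le_log_iff_exp_le ht0]
    exact a1
  have hT1 : 1 ≤ T := (le_max_left _ _).trans ((le_max_left _ _).trans a4)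
  have hTC : C ≤ T := (le_max_right _ _).trans ((le_max_left _ _).trans a4)
  have hTm : 320 * mu ≤ T := (le_max_left _ _).trans ((le_max_right _ _).trans a4)
  have hTm' : 1 / (4 * mu) ≤ T := (le_max_right _ _).trans ((le_max_right _ _).trans a4)
  have hT8 : T ^ 8 = t := by
    rw [hT, ← Real.rpow_natCast, ← Real.rpow_mul ht0.le]
    norm_num
  have hT0 : 0 < T := by linarith
  have hsq : Lf x ^ 2 = t * Real.log t := by
    unfold Lf
    rw [Real.sq_sqrt]
    exact mul_nonneg ht0.le (by linarith)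
  have hL : T ^ 4 ≤ Lf x := by
    unfold Lf
    apply Real.le_sqrt_of_sq_le
    rw [← pow_mul]
    norm_num
    rw [hT8, ← ht]
    nlinarith
  have hL0 : 0 < Lf x := lt_of_lt_of_le (by positivity) hL
  have hexp : Real.exp (Real.log t / 4) = T ^ 2 := by
    have h1 : Real.log t = 8 * Real.log T := by
      rw [← hT8, Real.log_pow]
      push_cast
      ring
    rw [h1, show 8 * Real.log T / 4 = 2 * Real.log T by ring]
    rw [show (2 : ℝ) * Real.log T = ((2 : ℕ) : ℝ) * Real.log T by norm_num, Real.exp_nat_mul,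
      Real.exp_log hT0]
  refine ⟨hl1, a2, hsq, hL0, ?_, ?_⟩
  · rw [div_le_iff₀ (by positivity)]
    have h1 : 1 ≤ 4 * mu * T := by
      rw [div_le_iff₀ (by positivity)] at hTm'
      linarith
    have h2 : T ≤ T ^ 4 * (4 * mu) := by
      have h3 : 1 ≤ T ^ 2 := one_le_pow₀ hT1
      have h4 : T * 1 ≤ T * (T ^ 2 * (4 * mu * T)) := by
        refine mul_le_mul_of_nonneg_left ?_ hT0.le
        nlinarith
      nlinarith
    have h5 : T ^ 4 * (4 * mu) ≤ Lf x * (4 * mu) := mul_le_mul_of_nonneg_right hL (by positivity)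
    linarith
  · rw [hexp]
    have h2 : Real.log 2 ≤ 1 := by
      have := Real.log_two_lt_d9
      linarith
    have h3 : T ≤ T ^ 3 := by
      have h4 : 1 ≤ T ^ 2 := one_le_pow₀ hT1
      nlinarith
    have h5 : T ^ 2 * (Real.log t + C) ≤ 2 * T ^ 3 := by
      have h6 : T ^ 2 * (Real.log t + C) ≤ T ^ 2 * (T + T) :=
        mul_le_mul_of_nonneg_left (by linarith) (by positivity)
      nlinarith
    have h7 : 10 * T ^ 3 ≤ T ^ 4 / (32 * mu) := by
      rw [le_div_iff₀ (by positivity)]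
      have h8 : T ^ 3 * (320 * mu) ≤ T ^ 3 * T := mul_le_mul_of_nonneg_left hTm (by positivity)
      nlinarith
    have h9 : T ^ 4 / (32 * mu) ≤ Lf x / (32 * mu) :=
      div_le_div_of_nonneg_right hL (by positivity)
    linarith

theorem SmoothShort_double {x : ℕ} (hx : 2 ≤ x) (h1 : 1 ≤ Real.log (Real.log x))
    (h2 : 2 ≤ Real.log x) : Lf (2 * x) ≤ 2 * Lf x := by
  have hx0 : (2 : ℝ) ≤ x := by exact_mod_cast hx
  have h3 : Real.log ((2 * x : ℕ) : ℝ) ≤ 2 * Real.log x := by
    push_cast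
    rw [Real.log_mul (by norm_num) (by linarith)]
    have := Real.log_le_log (by norm_num) hx0
    linarith
  have h4 : Real.log x ≤ Real.log ((2 * x : ℕ) : ℝ) := by
    apply Real.log_le_log (by linarith)
    push_cast
    linarith
  have h5 : Real.log (Real.log ((2 * x : ℕ) : ℝ)) ≤ 2 * Real.log (Real.log x) := by
    have h6 := Real.log_le_log (by linarith) h3
    rw [Real.log_mul (by norm_num) (by linarith)] at h6
    have := Real.log_two_lt_d9
    linarith
  have h7 : 0 ≤ Real.log (Real.log ((2 * x : ℕ) : ℝ)) := Real.log_nonneg (by linarith)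
  unfold Lf
  have e : ∀ A : ℝ, Real.sqrt (4 * A) = 2 * Real.sqrt A := by
    intro A
    rw [Real.sqrt_mul (by norm_num : (0 : ℝ) ≤ 4) A, show (4 : ℝ) = 2 ^ 2 by norm_num,
      Real.sqrt_sq (by norm_num : (0 : ℝ) ≤ 2)]
  rw [← e]
  apply Real.sqrt_le_sqrt
  nlinarith [mul_le_mul h3 h5 h7 (by linarith)]

/-- The case `z ≤ x`. -/
theorem SmoothShort_core (mu : ℝ) (hmu : 0 < mu) (kap : ℝ) : ∃ x0 : ℕ,
    ∀ x : ℕ, x0 ≤ x → ∀ z : ℕ, z ≤ x → (x : ℝ) * Real.exp (-kap * Lf x) ≤ z →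
      ((flt (VSm mu) (Ioc x (x + z))).card : ℝ) ≤ z * Real.exp (-(1 / (32 * mu)) * Lf x) := by
  classical
  obtain ⟨C, hC0, hC⟩ := exists_mertens
  have hev : ∀ᶠ x : ℕ in Filter.atTop, ∀ z : ℕ, z ≤ x → (x : ℝ) * Real.exp (-kap * Lf x) ≤ z →
      ((flt (VSm mu) (Ioc x (x + z))).card : ℝ) ≤ z * Real.exp (-(1 / (32 * mu)) * Lf x) := by
    filter_upwards [SmoothShort_asym mu hmu C, exp_Lf_le_rpow kap (1 / 2) (by norm_num),
      exp_Lf_le_rpow (2 * mu) 1 (by norm_num), Filter.eventually_ge_atTop 1024]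
      with x ha hb hc hx z hzx hz
    obtain ⟨hl1, hl2, hsq, hL0, hal, hfin⟩ := ha
    set L := Lf x with hL
    set lam := Real.log (Real.log x) with hlam
    set y := ⌊Real.exp (mu * Lf (2 * x))⌋₊ with hy
    have hxr : (1024 : ℝ) ≤ x := by exact_mod_cast hx
    have hx0 : (0 : ℝ) < x := by linarith
    have hdbl : Lf (2 * x) ≤ 2 * L := SmoothShort_double (by omega) hl1 hl2
    have hY1 : 1 ≤ Real.exp (mu * Lf (2 * x)) :=
      Real.one_le_exp (mul_nonneg hmu.le (Lf_nonneg _))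
    have hy1 : 1 ≤ y := Nat.le_floor (by exact_mod_cast hY1)
    have hyY : (y : ℝ) ≤ Real.exp (2 * mu * L) := by
      refine (Nat.floor_le (by positivity)).trans (Real.exp_le_exp.2 ?_)
      nlinarith
    have hyx : y ≤ x := by
      have : (y : ℝ) ≤ x := by
        rw [Real.rpow_one] at hc
        linarith
      exact_mod_cast this
    have hsub : flt (VSm mu) (Ioc x (x + z)) ⊆ flt (Sm y) (Ioc x (x + z)) := by
      intro n hn
      obtain ⟨h1, h2⟩ := mem_flt.1 hn
      have h3 := Finset.mem_Ioc.1 h1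
      refine mem_flt.2 ⟨h1, by omega, fun p hp hpn => Nat.le_floor ?_⟩
      refine (h2 p hp hpn).trans (Real.exp_le_exp.2 (mul_le_mul_of_nonneg_left ?_ hmu.le))
      exact Lf_mono (by omega) (by omega)
    have hzz : x ≤ z * z := by
      have h1 : (x : ℝ) ^ (1 / 2 : ℝ) * Real.exp (kap * L) ≤ x := by
        have h2 : (x : ℝ) ^ (1 / 2 : ℝ) * Real.exp (kap * L) ≤
            (x : ℝ) ^ (1 / 2 : ℝ) * (x : ℝ) ^ (1 / 2 : ℝ) :=
          mul_le_mul_of_nonneg_left hb (Real.rpow_nonneg hx0.le _)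
        rw [← Real.rpow_add hx0] at h2
        norm_num at h2
        exact h2
      have h3 : (x : ℝ) ^ (1 / 2 : ℝ) ≤ z := by
        refine le_trans ?_ hz
        have h4 : Real.exp (-kap * L) = (Real.exp (kap * L))⁻¹ := by
          rw [← Real.exp_neg]
          congr 1
          ring
        rw [h4, ← div_eq_mul_inv, le_div_iff₀ (Real.exp_pos _)]
        exact h1
      have h5 : (x : ℝ) ≤ z * z := by
        have h6 : (x : ℝ) = (x : ℝ) ^ (1 / 2 : ℝ) * (x : ℝ) ^ (1 / 2 : ℝ) := by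
          rw [← Real.rpow_add hx0]
          norm_num
        rw [h6]
        exact mul_le_mul h3 h3 (Real.rpow_nonneg hx0.le _) (Nat.cast_nonneg z)
      exact_mod_cast h5
    set al := lam / (8 * mu * L) with hal'
    have hlam0 : 0 ≤ lam := by linarith
    have hal0 : 0 ≤ al := by
      rw [hal']
      positivity
    have hcount := SmoothShort_count x z y (by omega) hy1 hzz al hal0 hal
    have hcard : ((flt (VSm mu) (Ioc x (x + z))).card : ℝ) ≤
        ((flt (Sm y) (Ioc x (x + z))).card : ℝ) := by exact_mod_cast Finset.card_le_card hsub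
    refine hcard.trans (hcount.trans ?_)
    have hyr : (0 : ℝ) < y := by exact_mod_cast hy1
    have hlogy : Real.log y ≤ 2 * mu * L := by
      have := Real.log_le_log hyr hyY
      rwa [Real.log_exp] at this
    have halL : al * (2 * mu * L) = lam / 4 := by
      rw [hal']
      field_simp
      ring
    have halogy : al * Real.log y ≤ lam / 4 := by
      rw [← halL]
      exact mul_le_mul_of_nonneg_left hlogy hal0
    have halx : al * (Real.log x / 2) = L / (16 * mu) := by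
      rw [hal', div_mul_eq_mul_div, div_eq_div_iff (by positivity) (by positivity)]
      have : lam * (Real.log x / 2) * (16 * mu) = 8 * mu * (Real.log x * lam) := by ring
      rw [this, ← hsq]
      ring
    have hyal : (y : ℝ) ^ al ≤ Real.exp (lam / 4) := by
      rw [Real.rpow_def_of_pos hyr]
      apply Real.exp_le_exp.2
      linarith
    have hsump : ∑ p ∈ PP 0 y, (1 : ℝ) / p ≤ lam + C := by
      refine le_trans ?_ (hC x hx)
      refine Finset.sum_le_sum_of_subset_of_nonneg ?_ (fun p _ _ => by positivity)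
      intro p hp
      rw [mem_PP] at hp ⊢
      exact ⟨hp.1, by omega, hp.2.2⟩
    have hsump0 : 0 ≤ ∑ p ∈ PP 0 y, (1 : ℝ) / p := Finset.sum_nonneg (fun p _ => by positivity)
    have hprod : (y : ℝ) ^ al * ∑ p ∈ PP 0 y, (1 : ℝ) / p ≤ Real.exp (lam / 4) * (lam + C) :=
      mul_le_mul hyal hsump hsump0 (Real.exp_pos _).le
    have hz0 : (0 : ℝ) ≤ z := Nat.cast_nonneg z
    have h2e : (2 : ℝ) = Real.exp (Real.log 2) := (Real.exp_log (by norm_num)).symm
    have hmain : 2 * (Real.exp (-(al * (Real.log x / 2 - Real.log y))) *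
        Real.exp (4 * ((y : ℝ) ^ al * ∑ p ∈ PP 0 y, (1 : ℝ) / p))) ≤
        Real.exp (-(1 / (32 * mu)) * L) := by
      rw [← Real.exp_add]
      nth_rewrite 1 [h2e]
      rw [← Real.exp_add]
      apply Real.exp_le_exp.2
      have e1 : L / (16 * mu) = 2 * (L / (32 * mu)) := by
        field_simp
        norm_num
      have e2 : -(1 / (32 * mu)) * L = -(L / (32 * mu)) := by ring
      rw [e2]
      have e3 : al * (Real.log x / 2 - Real.log y) = al * (Real.log x / 2) - al * Real.log y := by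
        ring
      rw [e3, halx, e1]
      linarith
    calc 2 * z * (Real.exp (-(al * (Real.log x / 2 - Real.log y))) *
        Real.exp (4 * ((y : ℝ) ^ al * ∑ p ∈ PP 0 y, (1 : ℝ) / p)))
        = z * (2 * (Real.exp (-(al * (Real.log x / 2 - Real.log y))) *
        Real.exp (4 * ((y : ℝ) ^ al * ∑ p ∈ PP 0 y, (1 : ℝ) / p)))) := by ring
      _ ≤ _ := mul_le_mul_of_nonneg_left hmain hz0
  obtain ⟨x0, hx0⟩ := Filter.eventually_atTop.1 hev
  exact ⟨x0, hx0⟩

theorem smooth_short (mu : ℝ) (hmu : 0 < mu) (kap : ℝ) : ∃ c : ℝ, 0 < c ∧ ∃ x0 : ℕ,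
    ∀ x : ℕ, x0 ≤ x → ∀ z : ℕ, (x : ℝ) * Real.exp (-kap * Lf x) ≤ z →
      ((flt (VSm mu) (Ioc x (x + z))).card : ℝ) ≤ z * Real.exp (-c * Lf x) := by
  classical
  set c := 1 / (32 * mu) with hc
  have hc0 : 0 < c := by positivity
  obtain ⟨x1, hx1⟩ := SmoothShort_core mu hmu kap
  obtain ⟨x2, hx2⟩ := SmoothShort_core mu hmu 0
  rw [← hc] at hx1 hx2
  obtain ⟨x3, hx3⟩ := Filter.eventually_atTop.1 (log_pow_le_exp_Lf (c / 2) (by positivity) 1)
  refine ⟨c / 2, by positivity, max (max x1 x2) (max x3 55), ?_⟩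
  intro x hx z hz
  have hxx1 : x1 ≤ x := (le_max_left _ _).trans ((le_max_left _ _).trans hx)
  have hxx2 : x2 ≤ x := (le_max_right _ _).trans ((le_max_left _ _).trans hx)
  have hxx3 : x3 ≤ x := (le_max_left _ _).trans ((le_max_right _ _).trans hx)
  have hx55 : 55 ≤ x := (le_max_right _ _).trans ((le_max_right _ _).trans hx)
  have hL0 := Lf_nonneg x
  have hz0 : (0 : ℝ) ≤ z := Nat.cast_nonneg z
  rcases le_total z x with hzx | hzx
  · refine (hx1 x hxx1 z hzx hz).trans (mul_le_mul_of_nonneg_left (Real.exp_le_exp.2 ?_) hz0)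
    nlinarith [mul_nonneg hc0.le hL0]
  · -- dyadic blocks
    have hblock : ∀ k : ℕ, ((flt (VSm mu) (Ioc x (2 ^ k * x))).card : ℝ) ≤
        2 ^ k * x * Real.exp (-c * Lf x) := by
      intro k
      induction k with
      | zero =>
        have e : flt (VSm mu) (Ioc x (2 ^ 0 * x)) = ∅ := by
          rw [pow_zero, one_mul]
          unfold flt
          rw [Finset.Ioc_self, Finset.filter_empty]
        rw [e, Finset.card_empty]
        push_cast
        positivity
      | succ k ih =>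
        have hk1 : 1 ≤ 2 ^ k := Nat.one_le_two_pow
        have hxk : x ≤ 2 ^ k * x := Nat.le_mul_of_pos_left x (by omega)
        have e0 : 2 ^ (k + 1) * x = 2 ^ k * x + 2 ^ k * x := by
          rw [pow_succ]
          ring
        have e : flt (VSm mu) (Ioc x (2 ^ (k + 1) * x)) ⊆
            flt (VSm mu) (Ioc x (2 ^ k * x)) ∪
              flt (VSm mu) (Ioc (2 ^ k * x) (2 ^ k * x + 2 ^ k * x)) := by
          intro n hn
          rw [Finset.mem_union, mem_flt, mem_flt, Finset.mem_Ioc, Finset.mem_Ioc]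
          rw [mem_flt, Finset.mem_Ioc, e0] at hn
          by_cases h : n ≤ 2 ^ k * x
          · exact Or.inl ⟨⟨hn.1.1, h⟩, hn.2⟩
          · exact Or.inr ⟨⟨by omega, hn.1.2⟩, hn.2⟩
        have h1 := (Finset.card_le_card e).trans (Finset.card_union_le _ _)
        have h2 : ((flt (VSm mu) (Ioc x (2 ^ (k + 1) * x))).card : ℝ) ≤
            ((flt (VSm mu) (Ioc x (2 ^ k * x))).card : ℝ) +
            ((flt (VSm mu) (Ioc (2 ^ k * x) (2 ^ k * x + 2 ^ k * x))).card : ℝ) := by
          exact_mod_cast h1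
        have h3 := hx2 (2 ^ k * x) (by omega) (2 ^ k * x) le_rfl (by simp)
        have h4 : Real.exp (-c * Lf (2 ^ k * x)) ≤ Real.exp (-c * Lf x) := by
          apply Real.exp_le_exp.2
          have := Lf_mono (by omega : 1 ≤ x) hxk
          nlinarith
        have h5 : ((2 ^ k * x : ℕ) : ℝ) * Real.exp (-c * Lf (2 ^ k * x)) ≤
            ((2 ^ k * x : ℕ) : ℝ) * Real.exp (-c * Lf x) :=
          mul_le_mul_of_nonneg_left h4 (Nat.cast_nonneg _)
        push_cast at h3 h5
        have e6 : (2 : ℝ) ^ (k + 1) = 2 * 2 ^ k := by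
          rw [pow_succ]
          ring
        rw [e6]
        linarith
    obtain ⟨k, hk1, hk2⟩ : ∃ k : ℕ, x + z ≤ 2 ^ (k + 1) * x ∧ 2 ^ k * x < x + z := by
      have hex : ∃ k : ℕ, x + z ≤ 2 ^ k * x := by
        refine ⟨z + 1, ?_⟩
        have h1 : z + 1 < 2 ^ (z + 1) := Nat.lt_two_pow_self
        nlinarith
      have hfind := Nat.find_spec hex
      have hpos : Nat.find hex ≠ 0 := by
        intro h
        rw [h, pow_zero, one_mul] at hfind
        omega
      obtain ⟨k, hk⟩ := Nat.exists_eq_succ_of_ne_zero hpos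
      refine ⟨k, ?_, ?_⟩
      · rw [hk] at hfind
        exact hfind
      · have := Nat.find_min hex (m := k) (by omega)
        push Not at this
        exact this
    have hsub : flt (VSm mu) (Ioc x (x + z)) ⊆ flt (VSm mu) (Ioc x (2 ^ (k + 1) * x)) := by
      intro n hn
      rw [mem_flt, Finset.mem_Ioc] at hn ⊢
      exact ⟨⟨hn.1.1, by omega⟩, hn.2⟩
    have h1 : ((flt (VSm mu) (Ioc x (x + z))).card : ℝ) ≤
        ((flt (VSm mu) (Ioc x (2 ^ (k + 1) * x))).card : ℝ) := by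
      exact_mod_cast Finset.card_le_card hsub
    have h2 := hblock (k + 1)
    have h3 : (2 : ℝ) ^ (k + 1) * x ≤ 4 * z := by
      have h4 : 2 ^ (k + 1) * x ≤ 4 * z := by
        have e7 : 2 ^ (k + 1) * x = 2 * (2 ^ k * x) := by
          rw [pow_succ]
          ring
        rw [e7]
        omega
      exact_mod_cast h4
    have h5 : 4 ≤ Real.exp (c / 2 * Lf x) := by
      have h6 := hx3 x hxx3
      rw [pow_one] at h6
      have h7 : Real.log 55 ≤ Real.log x := Real.log_le_log (by norm_num) (by exact_mod_cast hx55)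
      have h8 : (4 : ℝ) ≤ Real.log 55 := by
        rw [Real.le_log_iff_exp_le (by norm_num)]
        have h9 := Real.exp_one_lt_d9
        have h10 : Real.exp 4 = Real.exp 1 ^ 4 := by
          rw [← Real.exp_nat_mul]
          norm_num
        rw [h10]
        have h11 : Real.exp 1 ^ 4 ≤ 2.7182818286 ^ 4 :=
          pow_le_pow_left₀ (Real.exp_pos 1).le h9.le 4
        refine h11.trans ?_
        norm_num
      linarith
    have h12 : Real.exp (-(c / 2) * Lf x) = Real.exp (c / 2 * Lf x) * Real.exp (-c * Lf x) := by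
      rw [← Real.exp_add]
      congr 1
      ring
    calc ((flt (VSm mu) (Ioc x (x + z))).card : ℝ) ≤ 2 ^ (k + 1) * x * Real.exp (-c * Lf x) :=
          h1.trans h2
      _ ≤ 4 * z * Real.exp (-c * Lf x) := mul_le_mul_of_nonneg_right h3 (Real.exp_pos _).le
      _ = z * (4 * Real.exp (-c * Lf x)) := by ring
      _ ≤ z * (Real.exp (c / 2 * Lf x) * Real.exp (-c * Lf x)) := by
          refine mul_le_mul_of_nonneg_left ?_ hz0
          exact mul_le_mul_of_nonneg_right h5 (Real.exp_pos _).le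
      _ = z * Real.exp (-(c / 2) * Lf x) := by rw [h12]

end Pool.Agent.H87D
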