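import Pool.Agent.H87D.Defs

/-!
Steering by fresh primes: if every element `s ≥ k0` of `S` outside `V` has a prime factor dividing
no smaller element of `S`, and in every interval `[m, n]`, `m ≥ k0`, the elements of `S ∩ V`
outnumber those of `S \ V` by at most `D`, then `S` is bad.

PROOF PLAN.  Build completely multiplicative unimodular functions `f_n : ℕ → ℂ`, `n = 0, 1, 2, ...`:
`f_n = f_{n-1}` unless `n ∈ S`, `n >= k0`, `n ∉ V`; in that case take the fresh prime `p = p(n)`,
`e = v_p(n) >= 1`, and change only the value at the prime `p` such that `f_n(n)` is the desired value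
`-T/|T|` (`1` if `T = 0`), where `T = ∑_{s ∈ S, s < n} f_{n-1}(s)` (an `e`-th root of a unimodular number
exists).  Since `p ∤ s` for `s ∈ S, s < n`, `f_n(s) = f_{n-1}(s)` for these `s`.  Every prime is changed
at most once (if `p(n) = p(n')`, `n < n'`, then `p(n') | n`, contradiction), and for `s ∈ S` and `n > s`
the prime `p(n)` does not divide `s`; so the limit `f` satisfies `f(s) = f_s(s)` for `s ∈ S`.  With
`T_n` the partial sum up to `n`: `|T|` becomes `| |T| - 1 |` at a steered element and grows by at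
most `1` at the others, so by induction `|T_n| <= 1 + k0 + max_{m} (U[m,n] - C[m,n])^+` over
`k0 <= m <= n`, `U` and `C` the numbers of elements in `S ∩ V` and `S \ V`; so it is at most
`1 + k0 + D`.  Finally `a = f` and `∑_{k <= n, k ∈ S} f(d k) = f(d) T_n`.  Use `isBadSet_iff`.
-/

namespace Pool.Agent.H87D

open Finset Pool.Agent.H91.Discrepancy

/-- the completely multiplicative function with values `c p` at the primes -/
private noncomputable def FF (c : ℕ → ℂ) (n : ℕ) : ℂ := n.factorization.prod fun p e => c p ^ e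

private theorem FF_mul (c : ℕ → ℂ) {m n : ℕ} (hm : m ≠ 0) (hn : n ≠ 0) :
    FF c (m * n) = FF c m * FF c n := by
  unfold FF
  rw [Nat.factorization_mul hm hn]
  exact Finsupp.prod_add_index' (fun _ => pow_zero _) (fun _ _ _ => pow_add _ _ _)

private theorem norm_FF (c : ℕ → ℂ) (hc : ∀ p, ‖c p‖ = 1) (n : ℕ) : ‖FF c n‖ = 1 := by
  unfold FF Finsupp.prod
  rw [norm_prod]
  exact Finset.prod_eq_one fun p _ => by rw [norm_pow, hc, one_pow]

private theorem FF_congr {c c' : ℕ → ℂ} {n : ℕ} (h : ∀ p, p.Prime → p ∣ n → c p = c' p) :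
    FF c n = FF c' n := by
  unfold FF Finsupp.prod
  refine Finset.prod_congr rfl fun p hp => ?_
  rw [Nat.support_factorization, Nat.mem_primeFactors] at hp
  simp only [h p hp.1 hp.2.1]

/-- one step of the steering -/
private theorem steer_exists (c : ℕ → ℂ) (hc : ∀ p, ‖c p‖ = 1) {n p : ℕ} (hn : n ≠ 0)
    (hp : p.Prime) (hpn : p ∣ n) (w : ℂ) (hw : ‖w‖ = 1) :
    ∃ c' : ℕ → ℂ, (∀ q, ‖c' q‖ = 1) ∧ (∀ q, q ≠ p → c' q = c q) ∧ FF c' n = w := by
  classical
  have hmem : p ∈ n.factorization.support := by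
    rw [Nat.support_factorization, Nat.mem_primeFactors]
    exact ⟨hp, hpn, hn⟩
  have he : 0 < n.factorization p := Nat.pos_of_ne_zero (Finsupp.mem_support_iff.1 hmem)
  set r : ℂ := ∏ q ∈ n.factorization.support.erase p, c q ^ n.factorization q with hr
  have hrn : ‖r‖ = 1 := by
    rw [hr, norm_prod]
    exact Finset.prod_eq_one fun q _ => by rw [norm_pow, hc, one_pow]
  have hr0 : r ≠ 0 := by
    intro h
    rw [h, norm_zero] at hrn
    exact zero_ne_one hrn
  obtain ⟨z, hz⟩ := IsAlgClosed.exists_pow_nat_eq (w / r) he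
  have hzn : ‖z‖ = 1 := by
    have h1 : ‖z‖ ^ n.factorization p = 1 := by
      rw [← norm_pow, hz, norm_div, hw, hrn, div_one]
    exact (pow_eq_one_iff_of_nonneg (norm_nonneg z) he.ne').1 h1
  refine ⟨Function.update c p z, ?_, ?_, ?_⟩
  · intro q
    by_cases hq : q = p
    · subst hq
      rw [Function.update_self]
      exact hzn
    · rw [Function.update_of_ne hq]
      exact hc q
  · intro q hq
    exact Function.update_of_ne hq z c
  · unfold FF Finsupp.prod
    rw [← Finset.mul_prod_erase _ _ hmem]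
    simp only [Function.update_self, hz]
    have h2 : ∏ q ∈ n.factorization.support.erase p,
        Function.update c p z q ^ n.factorization q = r := by
      refine Finset.prod_congr rfl fun q hq => ?_
      rw [Function.update_of_ne (Finset.ne_of_mem_erase hq)]
    rw [h2, div_mul_cancel₀ w hr0]

open Classical in
/-- the partial sum over `S` -/
private noncomputable def TT (S : Set ℕ) (c : ℕ → ℂ) (n : ℕ) : ℂ :=
  ∑ k ∈ Icc 1 n, if k ∈ S then FF c k else 0

/-- the desired value -/
private noncomputable def goalv (T : ℂ) : ℂ := if T = 0 then 1 else -(T / (‖T‖ : ℂ))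

private theorem norm_goalv (T : ℂ) : ‖goalv T‖ = 1 := by
  unfold goalv
  split_ifs with h
  · exact norm_one
  · rw [norm_neg, norm_div, Complex.norm_real, norm_norm, div_self (norm_ne_zero_iff.2 h)]

private theorem norm_add_goalv (T : ℂ) : ‖T + goalv T‖ = |‖T‖ - 1| := by
  unfold goalv
  split_ifs with h
  · rw [h, zero_add, norm_zero, norm_one]
    norm_num
  · have hn : (‖T‖ : ℂ) ≠ 0 := by
      rw [Ne, Complex.ofReal_eq_zero, norm_eq_zero]
      exact h
    have h1 : T + -(T / (‖T‖ : ℂ)) = (T / (‖T‖ : ℂ)) * ((‖T‖ - 1 : ℝ) : ℂ) := by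
      push_cast
      field_simp
      ring
    rw [h1, norm_mul, norm_div, Complex.norm_real, Complex.norm_real, norm_norm,
      div_self (norm_ne_zero_iff.2 h), one_mul, Real.norm_eq_abs]

theorem steering (S V : Set ℕ) (k0 D : ℕ)
    (hfresh : ∀ s ∈ S, k0 ≤ s → s ∉ V →
      ∃ p : ℕ, p.Prime ∧ p ∣ s ∧ ∀ t ∈ S, 1 ≤ t → t < s → ¬ p ∣ t)
    (hq : ∀ m n : ℕ, k0 ≤ m →
      (flt (fun s => s ∈ S ∧ s ∈ V) (Icc m n)).card ≤
        (flt (fun s => s ∈ S ∧ s ∉ V) (Icc m n)).card + D) :
    IsBadSet S := by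
  classical
  set st : ℕ → Prop := fun n => n ∈ S ∧ k0 ≤ n ∧ n ∉ V ∧ 1 ≤ n with hst
  have hpf : ∀ n, ∃ p : ℕ, st n → p.Prime ∧ p ∣ n ∧ ∀ t ∈ S, 1 ≤ t → t < n → ¬ p ∣ t := by
    intro n
    by_cases h : st n
    · obtain ⟨p, hp⟩ := hfresh n h.1 h.2.1 h.2.2.1
      exact ⟨p, fun _ => hp⟩
    · exact ⟨0, fun h' => absurd h' h⟩
  choose pf hpf using hpf
  -- one step
  have hstep : ∀ (n : ℕ) (c : {c : ℕ → ℂ // ∀ p, ‖c p‖ = 1}),
      ∃ c' : {c : ℕ → ℂ // ∀ p, ‖c p‖ = 1},
        (∀ q, q ≠ pf n → c'.1 q = c.1 q) ∧ (¬ st n → c' = c) ∧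
        (st n → FF c'.1 n = goalv (TT S c.1 (n - 1))) := by
    intro n c
    by_cases h : st n
    · obtain ⟨hp, hpn, -⟩ := hpf n h
      have hn0 : n ≠ 0 := by
        have := h.2.2.2
        omega
      obtain ⟨c', h1, h2, h3⟩ := steer_exists c.1 c.2 hn0 hp hpn (goalv (TT S c.1 (n - 1)))
        (norm_goalv _)
      exact ⟨⟨c', h1⟩, h2, fun h' => absurd h h', fun _ => h3⟩
    · exact ⟨c, fun _ _ => rfl, fun _ => rfl, fun h' => absurd h' h⟩
  choose nxt hn1 hn2 hn3 using hstep
  set cs : ℕ → {c : ℕ → ℂ // ∀ p, ‖c p‖ = 1} :=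
    fun n => Nat.rec ⟨fun _ => 1, fun _ => norm_one⟩ (fun n c => nxt n c) n with hcs
  have hcs_succ : ∀ n, cs (n + 1) = nxt n (cs n) := fun n => rfl
  -- a prime which divides an element `s` of `S` is not changed after `s`
  have hkeep1 : ∀ s ∈ S, 1 ≤ s → ∀ p : ℕ, p ∣ s → ∀ m, s + 1 ≤ m →
      (cs (m + 1)).1 p = (cs m).1 p := by
    intro s hs hs1 p hps m hm
    rw [hcs_succ]
    by_cases h : st m
    · refine hn1 m (cs m) p ?_
      intro hpe
      rw [hpe] at hps
      exact (hpf m h).2.2 s hs hs1 (by omega) hps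
    · rw [hn2 m (cs m) h]
  have hkeep : ∀ s ∈ S, 1 ≤ s → ∀ p : ℕ, p ∣ s → ∀ m, s + 1 ≤ m →
      (cs m).1 p = (cs (s + 1)).1 p := by
    intro s hs hs1 p hps m hm
    induction m, hm using Nat.le_induction with
    | base => rfl
    | succ m hm ih => rw [hkeep1 s hs hs1 p hps m hm, ih]
  -- the limit
  set f : ℕ → ℂ := fun p =>
    if h : ∃ s, s ∈ S ∧ 1 ≤ s ∧ p ∣ s then (cs (Nat.find h + 1)).1 p else 1 with hf
  have hf1 : ∀ p, ‖f p‖ = 1 := by
    intro p
    simp only [hf]
    split_ifs with h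
    · exact (cs (Nat.find h + 1)).2 p
    · exact norm_one
  have hfp : ∀ s ∈ S, 1 ≤ s → ∀ p : ℕ, p ∣ s → ∀ m, s + 1 ≤ m → (cs m).1 p = f p := by
    intro s hs hs1 p hps m hm
    have h : ∃ s, s ∈ S ∧ 1 ≤ s ∧ p ∣ s := ⟨s, hs, hs1, hps⟩
    have h1 : Nat.find h ≤ s := Nat.find_min' h ⟨hs, hs1, hps⟩
    obtain ⟨h2, h3, h4⟩ := Nat.find_spec h
    have h5 : f p = (cs (Nat.find h + 1)).1 p := by
      simp only [hf]
      rw [dif_pos h]
    rw [h5]
    exact hkeep _ h2 h3 p h4 m (by omega)
  have hFf : ∀ s ∈ S, 1 ≤ s → ∀ m, s + 1 ≤ m → FF (cs m).1 s = FF f s := by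
    intro s hs hs1 m hm
    exact FF_congr fun p _ hps => hfp s hs hs1 p hps m hm
  have hTT : ∀ n m, n + 1 ≤ m → TT S (cs m).1 n = TT S f n := by
    intro n m hm
    unfold TT
    refine Finset.sum_congr rfl fun k hk => ?_
    rw [Finset.mem_Icc] at hk
    split_ifs with h
    · exact hFf k h hk.1 m (by omega)
    · rfl
  -- recursion of the partial sums
  have hTsucc : ∀ n, 1 ≤ n → TT S f n = TT S f (n - 1) + if n ∈ S then FF f n else 0 := by
    intro n hn
    obtain ⟨k, rfl⟩ : ∃ k, n = k + 1 := ⟨n - 1, by omega⟩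
    unfold TT
    rw [Nat.add_sub_cancel, Finset.sum_Icc_succ_top (by omega)]
  have hsteer : ∀ n, st n → ‖TT S f n‖ = |‖TT S f (n - 1)‖ - 1| := by
    intro n hn
    have h1 := hn3 n (cs n) hn
    rw [← hcs_succ, hFf n hn.1 hn.2.2.2 (n + 1) le_rfl] at h1
    have h2 : TT S (cs n).1 (n - 1) = TT S f (n - 1) := hTT (n - 1) n (by
      have := hn.2.2.2
      omega)
    rw [h2] at h1
    rw [hTsucc n hn.2.2.2, if_pos hn.1, h1]
    exact norm_add_goalv _
  have hgrow : ∀ n, 1 ≤ n → ‖TT S f n‖ ≤ ‖TT S f (n - 1)‖ + 1 := by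
    intro n hn
    rw [hTsucc n hn]
    refine (norm_add_le _ _).trans ?_
    split_ifs
    · rw [norm_FF f hf1]
    · rw [norm_zero]
      linarith
  -- the bound for the first terms
  have hfirst : ∀ n, ‖TT S f n‖ ≤ n := by
    intro n
    induction n with
    | zero => simp [TT]
    | succ n ih =>
      have := hgrow (n + 1) (by omega)
      rw [Nat.add_sub_cancel] at this
      push_cast
      linarith
  have hcardV : ∀ m n, m ≤ n + 1 → ∀ Q : ℕ → Prop,
      (flt Q (Icc m (n + 1))).card = (flt Q (Icc m n)).card + if Q (n + 1) then 1 else 0 := by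
    intro m n hm Q
    have h1 : Icc m (n + 1) = insert (n + 1) (Icc m n) := by
      ext k
      simp only [Finset.mem_Icc, Finset.mem_insert]
      omega
    unfold flt
    rw [h1, Finset.filter_insert]
    split_ifs with h
    · rw [Finset.card_insert_of_notMem]
      intro h2
      rw [Finset.mem_filter, Finset.mem_Icc] at h2
      omega
    · rfl
  have hmain : ∀ n, ∃ m, k0 ≤ m ∧ 1 ≤ m ∧ (m ≤ n + 1 ∨ n < k0) ∧
      ‖TT S f n‖ ≤ 1 + k0 + ((flt (fun s => s ∈ S ∧ s ∈ V) (Icc m n)).card : ℝ) -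
        ((flt (fun s => s ∈ S ∧ s ∉ V) (Icc m n)).card : ℝ) := by
    intro n
    have hempty : ∀ m n, n < m → ∀ Q : ℕ → Prop, (flt Q (Icc m n)).card = 0 := by
      intro m n h Q
      rw [Finset.Icc_eq_empty (by omega)]
      unfold flt
      rw [Finset.filter_empty, Finset.card_empty]
    induction n with
    | zero =>
      refine ⟨max k0 1, le_max_left _ _, le_max_right _ _, ?_, ?_⟩
      · rcases Nat.eq_zero_or_pos k0 with h | h
        · left
          rw [h]
          simp
        · right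
          exact h
      · rw [hempty _ _ (by have := le_max_right k0 1; omega), hempty _ _ (by have := le_max_right k0 1; omega)]
        have := hfirst 0
        have h0 : (0 : ℝ) ≤ k0 := Nat.cast_nonneg _
        push_cast at this ⊢
        linarith
    | succ n ih =>
      by_cases hnk : n + 1 < k0
      · refine ⟨k0, le_rfl, by omega, Or.inr hnk, ?_⟩
        rw [hempty _ _ hnk, hempty _ _ hnk]
        have := hfirst (n + 1)
        have h0 : ((n + 1 : ℕ) : ℝ) ≤ k0 := by exact_mod_cast hnk.le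
        push_cast at this h0 ⊢
        linarith
      · obtain ⟨m, hm1, hm2, hm3, hm4⟩ : ∃ m, k0 ≤ m ∧ 1 ≤ m ∧ m ≤ n + 1 ∧
            ‖TT S f n‖ ≤ 1 + k0 + ((flt (fun s => s ∈ S ∧ s ∈ V) (Icc m n)).card : ℝ) -
            ((flt (fun s => s ∈ S ∧ s ∉ V) (Icc m n)).card : ℝ) := by
          obtain ⟨m, hm1, hm2, hm3, hm4⟩ := ih
          rcases hm3 with hm3 | hm3
          · exact ⟨m, hm1, hm2, hm3, hm4⟩
          · -- `n < k0 = n + 1`
            refine ⟨n + 1, by omega, by omega, le_rfl, ?_⟩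
            rw [hempty _ _ (Nat.lt_succ_self n), hempty _ _ (Nat.lt_succ_self n)]
            have := hfirst n
            have h0 : ((n : ℕ) : ℝ) ≤ k0 := by exact_mod_cast hm3.le
            push_cast at this h0 ⊢
            linarith
        have hg := hgrow (n + 1) (by omega)
        rw [Nat.add_sub_cancel] at hg
        by_cases hS : n + 1 ∈ S
        · by_cases hV : n + 1 ∈ V
          · refine ⟨m, hm1, hm2, Or.inl (by omega), ?_⟩
            rw [hcardV m n hm3, hcardV m n hm3, if_pos ⟨hS, hV⟩, if_neg (fun h => h.2 hV)]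
            push_cast
            linarith
          · have hs : st (n + 1) := ⟨hS, by omega, hV, by omega⟩
            have h1 := hsteer (n + 1) hs
            rw [Nat.add_sub_cancel] at h1
            by_cases hT : 1 ≤ ‖TT S f n‖
            · refine ⟨m, hm1, hm2, Or.inl (by omega), ?_⟩
              rw [hcardV m n hm3, hcardV m n hm3, if_neg (fun h => hV h.2), if_pos ⟨hS, hV⟩, h1,
                abs_of_nonneg (by linarith)]
              push_cast
              linarith
            · refine ⟨n + 2, by omega, by omega, Or.inl (by omega), ?_⟩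
              rw [hempty _ _ (by omega), hempty _ _ (by omega), h1,
                abs_of_nonpos (by linarith)]
              have h0 : (0 : ℝ) ≤ k0 := Nat.cast_nonneg _
              have h2 := norm_nonneg (TT S f n)
              push_cast
              linarith
        · refine ⟨m, hm1, hm2, Or.inl (by omega), ?_⟩
          have h2 : TT S f (n + 1) = TT S f n := by
            rw [hTsucc (n + 1) (by omega), if_neg hS, add_zero, Nat.add_sub_cancel]
          rw [hcardV m n hm3, hcardV m n hm3, if_neg (fun h => hS h.1), if_neg (fun h => hS h.1), h2]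
          push_cast
          linarith
  have hbound : ∀ n, ‖TT S f n‖ ≤ 1 + k0 + D := by
    intro n
    obtain ⟨m, hm1, -, -, hm4⟩ := hmain n
    have h1 : ((flt (fun s => s ∈ S ∧ s ∈ V) (Icc m n)).card : ℝ) ≤
        ((flt (fun s => s ∈ S ∧ s ∉ V) (Icc m n)).card : ℝ) + D := by
      exact_mod_cast hq m n hm1
    linarith
  -- conclusion
  rw [isBadSet_iff]
  refine ⟨FF f, fun k _ => norm_FF f hf1 k, 1 + k0 + D, fun d n hd hn => ?_⟩
  have h1 : ∑ k ∈ Icc 1 n, Set.indicator S (fun _ => (1 : ℂ)) k * FF f (d * k) =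
      FF f d * TT S f n := by
    unfold TT
    rw [Finset.mul_sum]
    refine Finset.sum_congr rfl fun k hk => ?_
    rw [Finset.mem_Icc] at hk
    rw [FF_mul f (by omega) (by omega)]
    by_cases h : k ∈ S
    · rw [Set.indicator_of_mem h, if_pos h, one_mul]
    · rw [Set.indicator_of_notMem h, if_neg h, zero_mul, mul_zero]
  rw [h1, norm_mul, norm_FF f hf1, one_mul]
  exact hbound n

end Pool.Agent.H87D
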